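import Pool.Agent.helper18.CR.D

/-!
# MG-B (helper7): for a fixed m, m q - 1 is composite for almost all primes q; adapted from the
bound of Pool/Agent/helper18/CR/C.lean for the primes r with 2 m r + 1 prime
-/

set_option autoImplicit false

open Finset

namespace Pool.Agent.helper6.MG

open Pool.Agent.helper20.MPN Pool.Agent.helper18.CR

theorem b7_pairs_card {w : ℕ} (hw : 2 ≤ w) {m y : ℕ} (hm : 1 ≤ m) (hy : 1 ≤ y) :
    (((Icc 1 y).filter (fun r => r.Prime ∧ (2 * m * r - 1).Prime)).card : ℝ) ≤
      w + (w : ℝ) ^ 148 + 8 * y * (m / m.totient) / Real.log (w + 1) ^ 2 := by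
  classical
  set S := (Icc 1 y).filter (fun r => r.Prime ∧ (2 * m * r - 1).Prime) with hS
  set A := (range (y + 1)).filter (fun r => (r.Prime ∧ (2 * m * r - 1).Prime) ∧ w < r) with hA
  have hcard : S.card ≤ w + A.card := by
    have h1 : S ⊆ Icc 1 w ∪ A := by
      intro q hq
      rw [hS, Finset.mem_filter, Finset.mem_Icc] at hq
      rw [Finset.mem_union]
      rcases Nat.lt_or_ge w q with h | h
      · right
        rw [hA, Finset.mem_filter, Finset.mem_range]
        exact ⟨by omega, hq.2, h⟩
      · left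
        exact Finset.mem_Icc.2 ⟨hq.1.1, h⟩
    calc S.card ≤ _ := Finset.card_le_card h1
      _ ≤ (Icc 1 w).card + A.card := Finset.card_union_le _ _
      _ ≤ w + A.card := by
          simp only [Nat.card_Icc]
          omega
  have hne : ∀ p : ℕ, p.Prime → ¬ p ∣ 2 * m → cls (2 * m) (p - 1) p ≠ 0 := by
    intro p hp hpm h0
    have h1 := cls_spec (t := 0) (b := p - 1) hp hpm (by rw [h0, Nat.zero_mod])
    rw [mul_zero, add_zero] at h1
    have h2 := hp.two_le
    have h3 := Nat.le_of_dvd (by omega) h1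
    omega
  have hcard2 : ∀ p : ℕ, p.Prime → ¬ p ∣ 2 * m → ({0, cls (2 * m) (p - 1) p} : Finset ℕ).card = 2 :=
    fun p hp hpm => Finset.card_pair (hne p hp hpm).symm
  have hp3 : ∀ p : ℕ, p.Prime → ¬ p ∣ 2 * m → 3 ≤ p := by
    intro p hp hpm
    rcases hp.two_le.lt_or_eq with h | h
    · exact h
    · exact absurd (h ▸ Dvd.intro m rfl) hpm
  have hsieve := sieve2 hw (fun p => if p ∣ 2 * m then {0} else {0, cls (2 * m) (p - 1) p})
    (Nat.primesLE w) (fun p hp => by
      rw [Nat.mem_primesLE] at hp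
      by_cases hpm : p ∣ 2 * m
      · simp only [if_pos hpm]
        refine ⟨⟨hp.2, ?_, ?_, ?_⟩, hp.1, ?_⟩
        · simp only [if_pos hpm]
          intro z hz
          rw [Finset.mem_singleton.1 hz]
          exact Finset.mem_range.2 hp.2.pos
        · simp only [if_pos hpm]
          exact Finset.singleton_nonempty _
        · simp only [if_pos hpm]
          rw [Finset.card_singleton]
          exact hp.2.one_lt
        · rw [Finset.card_singleton]
          norm_num
      · simp only [if_neg hpm]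
        refine ⟨⟨hp.2, ?_, ?_, ?_⟩, hp.1, ?_⟩
        · simp only [if_neg hpm]
          intro z hz
          rcases Finset.mem_insert.1 hz with hz | hz
          · rw [hz]
            exact Finset.mem_range.2 hp.2.pos
          · rw [Finset.mem_singleton.1 hz]
            exact Finset.mem_range.2 (cls_lt hp.2)
        · simp only [if_neg hpm]
          exact ⟨0, Finset.mem_insert_self _ _⟩
        · simp only [if_neg hpm]
          rw [hcard2 p hp.2 hpm]
          exact hp3 p hp.2 hpm
        · rw [hcard2 p hp.2 hpm]) (y + 1) A (Finset.filter_subset _ _) (fun t ht p hp hmem => by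
      rw [Nat.mem_primesLE] at hp
      rw [hA, Finset.mem_filter] at ht
      have h0 : t % p ≠ 0 := by
        intro h
        have h2 := (Nat.prime_dvd_prime_iff_eq hp.2 ht.2.1.1).1 (Nat.dvd_of_mod_eq_zero h)
        have h3 := ht.2.2
        have h4 := hp.1
        omega
      by_cases hpm : p ∣ 2 * m
      · simp only [if_pos hpm] at hmem
        exact h0 (Finset.mem_singleton.1 hmem)
      · simp only [if_neg hpm] at hmem
        rcases Finset.mem_insert.1 hmem with h | h
        · exact h0 h
        · have h1 := cls_spec hp.2 hpm (Finset.mem_singleton.1 h)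
          have h3 := ht.2.2
          have h4 := hp.1
          have hp1 := hp.2.one_le
          have h5 : 2 * t ≤ 2 * m * t := Nat.mul_le_mul_right t (by omega)
          have h6 : p - 1 + 2 * m * t = p + (2 * m * t - 1) := by omega
          rw [h6] at h1
          have h7 := (Nat.dvd_add_right (dvd_refl p)).1 h1
          have h2 := (Nat.prime_dvd_prime_iff_eq hp.2 ht.2.1.2).1 h7
          omega)
  have hφ : (0 : ℝ) < m.totient := by exact_mod_cast Nat.totient_pos.2 hm
  have hm0 : (0 : ℝ) < m := by exact_mod_cast hm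
  have hlog : 0 < Real.log ((w : ℝ) + 1) := Real.log_pos (by
    have : (2 : ℝ) ≤ w := by exact_mod_cast hw
    linarith)
  have hg : Real.log (w + 1) ^ 2 * ((m.totient : ℝ) / (2 * m)) ≤
      ∏ p ∈ Nat.primesLE w, (1 +
        (((if p ∣ 2 * m then {0} else {0, cls (2 * m) (p - 1) p} : Finset ℕ).card : ℕ) : ℝ) /
        ((p : ℝ) - ((if p ∣ 2 * m then {0} else {0, cls (2 * m) (p - 1) p} : Finset ℕ).card : ℕ))) := by
    have h1 := log_le_prod w
    have h2 := prod_dvd_ge (show 2 * m ≠ 0 by omega) w
    have h4 : (m.totient : ℝ) / (2 * m) ≤ (((2 * m).totient : ℕ) : ℝ) / ((2 * m : ℕ) : ℝ) := by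
      have h5 : m.totient ≤ (2 * m).totient :=
        Nat.le_of_dvd (Nat.totient_pos.2 (by omega)) (Nat.totient_dvd_of_dvd (Dvd.intro_left 2 rfl))
      push_cast
      have h6 : (m.totient : ℝ) ≤ ((2 * m).totient : ℝ) := by exact_mod_cast h5
      gcongr
    have hpos : ∀ p ∈ Nat.primesLE w, 0 < 1 - (p : ℝ)⁻¹ := by
      intro p hp
      have : (1 : ℝ) < p := by exact_mod_cast (Nat.mem_primesLE.1 hp).2.one_lt
      have h5 := inv_lt_one_of_one_lt₀ this
      linarith
    have h5 : (∏ p ∈ Nat.primesLE w, (1 - (p : ℝ)⁻¹)⁻¹) ^ 2 *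
        ∏ p ∈ (Nat.primesLE w).filter (fun p => p ∣ 2 * m), (1 - (p : ℝ)⁻¹) =
        ∏ p ∈ Nat.primesLE w, (((1 - (p : ℝ)⁻¹)⁻¹) ^ 2 *
          (if p ∣ 2 * m then (1 - (p : ℝ)⁻¹) else 1)) := by
      rw [Finset.prod_mul_distrib, Finset.prod_filter, Finset.prod_pow]
    calc Real.log (w + 1) ^ 2 * ((m.totient : ℝ) / (2 * m))
        ≤ (∏ p ∈ Nat.primesLE w, (1 - (p : ℝ)⁻¹)⁻¹) ^ 2 *
          ∏ p ∈ (Nat.primesLE w).filter (fun p => p ∣ 2 * m), (1 - (p : ℝ)⁻¹) := by
          apply mul_le_mul (pow_le_pow_left₀ hlog.le h1 2) (h4.trans h2) (by positivity)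
          positivity
      _ = _ := h5
      _ ≤ _ := by
          refine Finset.prod_le_prod (fun p hp => ?_) (fun p hp => ?_)
          · have h6 := hpos p hp
            split_ifs <;> positivity
          · have hpp := (Nat.mem_primesLE.1 hp).2
            have h6 := hpos p hp
            have h7 : (2 : ℝ) ≤ p := by exact_mod_cast hpp.two_le
            have h8 : 1 - (p : ℝ)⁻¹ = (p - 1) / p := by
              field_simp
            have h9 : (p : ℝ) - 1 ≠ 0 := by linarith
            have h10 : (p : ℝ) ≠ 0 := by linarith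
            by_cases hpm : p ∣ 2 * m
            · rw [if_pos hpm, if_pos hpm, Finset.card_singleton, Nat.cast_one, h8, inv_div]
              apply le_of_eq
              field_simp
              ring
            · rw [if_neg hpm, if_neg hpm, hcard2 p hpp hpm, h8, inv_div]
              have h11 : (3 : ℝ) ≤ p := by exact_mod_cast hp3 p hpp hpm
              have h12 : (p : ℝ) - 2 ≠ 0 := by linarith
              push_cast
              have h13 : 1 + 2 / ((p : ℝ) - 2) = p / (p - 2) := by
                field_simp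
                ring
              rw [h13, mul_one, div_pow, div_le_div_iff₀ (by nlinarith) (by linarith)]
              nlinarith
  have h5 := bound_of hsieve (by positivity) hg (by positivity)
  have h6 : 2 * (((y + 1 : ℕ) : ℝ)) / (Real.log (w + 1) ^ 2 * ((m.totient : ℝ) / (2 * m))) ≤
      8 * y * (m / m.totient) / Real.log (w + 1) ^ 2 := by
    have h7 : ((y + 1 : ℕ) : ℝ) ≤ 2 * y := by
      push_cast
      have h9 : (1 : ℝ) ≤ (y : ℝ) := by exact_mod_cast hy
      linarith
    calc 2 * (((y + 1 : ℕ) : ℝ)) / (Real.log (w + 1) ^ 2 * ((m.totient : ℝ) / (2 * m)))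
        ≤ 2 * (2 * (y : ℝ)) / (Real.log (w + 1) ^ 2 * ((m.totient : ℝ) / (2 * m))) := by gcongr
      _ = _ := by field_simp; ring
  have h7 : (S.card : ℝ) ≤ w + A.card := by exact_mod_cast hcard
  linarith


/-- primes `r ≤ y` with `2 m r - 1` prime -/
theorem b7_pairs_even : ∃ C : ℝ, 0 < C ∧ ∀ m y : ℕ, 1 ≤ m → 2 ≤ y →
    (((Icc 1 y).filter (fun r => r.Prime ∧ (2 * m * r - 1).Prime)).card : ℝ) ≤
      C * ((m / m.totient) * (y / Real.log y ^ 2)) := by
  refine ⟨2 ^ 154 + 720000, by positivity, fun m y hm hy => ?_⟩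
  have hφ : (0 : ℝ) < m.totient := by exact_mod_cast Nat.totient_pos.2 hm
  have hφk : (m.totient : ℝ) ≤ m := by exact_mod_cast Nat.totient_le m
  have hy' : (2 : ℝ) ≤ (y : ℝ) := by exact_mod_cast hy
  have hlog : 0 < Real.log (y : ℝ) := Real.log_pos (by linarith)
  obtain ⟨w, hw, h1, h2⟩ := exists_w (y := (y : ℝ)) (by linarith)
  have h3 := b7_pairs_card hw hm (by omega : 1 ≤ y)
  have h4 := sqrt_le_log_sq (y := (y : ℝ)) (by linarith)
  have hone : (1 : ℝ) ≤ m / m.totient := by
    rw [le_div_iff₀ hφ, one_mul]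
    exact hφk
  have h5 : 8 * (y : ℝ) * (m / m.totient) / Real.log (w + 1) ^ 2 ≤
      720000 * ((m / m.totient) * (y / Real.log y ^ 2)) := by
    calc 8 * (y : ℝ) * (m / m.totient) / Real.log (w + 1) ^ 2
        ≤ 8 * (y : ℝ) * (m / m.totient) / (Real.log y / 300) ^ 2 := by gcongr
      _ = _ := by field_simp; norm_num
  have h7 : 2 ^ 150 * √(y : ℝ) ≤ 2 ^ 154 * ((m / m.totient) * (y / Real.log y ^ 2)) := by
    have h8 : (y : ℝ) / Real.log y ^ 2 ≤ (m / m.totient) * (y / Real.log y ^ 2) :=
      le_mul_of_one_le_left (by positivity) hone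
    calc 2 ^ 150 * √(y : ℝ) ≤ 2 ^ 150 * (16 * ((m / m.totient) * (y / Real.log y ^ 2))) := by
          have := h4.trans (mul_le_mul_of_nonneg_left h8 (by norm_num : (0 : ℝ) ≤ 16))
          gcongr
      _ = _ := by ring
  rw [add_mul]
  linarith

/-- for a fixed `m`, `m q - 1` is composite for almost all primes `q`. -/
theorem pairs (m : ℕ) (hm : 1 ≤ m) (ε : ℝ) (hε : 0 < ε) : ∃ x0 : ℕ, ∀ x : ℕ, x0 ≤ x →
    (((range (x + 1)).filter (fun q => q.Prime ∧ (m * q - 1).Prime)).card : ℝ) * Real.log x ≤
      ε * x := by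
  have hlog : Filter.Tendsto (fun x : ℕ => Real.log (x : ℝ)) Filter.atTop Filter.atTop :=
    Real.tendsto_log_atTop.comp tendsto_natCast_atTop_atTop
  rcases Nat.even_or_odd' m with ⟨m', rfl | rfl⟩
  · -- even `m`
    obtain ⟨C, hC, hCb⟩ := b7_pairs_even
    have hm' : 1 ≤ m' := by omega
    have hφ : (0 : ℝ) < m'.totient := by exact_mod_cast Nat.totient_pos.2 hm'
    set K : ℝ := C * ((m' : ℝ) / m'.totient) with hK
    have hK0 : 0 ≤ K := by positivity
    obtain ⟨x0, hx0⟩ := Filter.eventually_atTop.1 ((hlog.eventually_ge_atTop (K / ε)).and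
      ((hlog.eventually_ge_atTop 1).and (Filter.eventually_ge_atTop 2)))
    refine ⟨x0, fun x hx => ?_⟩
    obtain ⟨h1, h2, h3⟩ := hx0 x hx
    have hsub : (range (x + 1)).filter (fun q => q.Prime ∧ (2 * m' * q - 1).Prime) ⊆
        (Icc 1 x).filter (fun q => q.Prime ∧ (2 * m' * q - 1).Prime) := by
      intro q hq
      rw [mem_filter, mem_range] at hq
      rw [mem_filter, mem_Icc]
      exact ⟨⟨hq.2.1.one_le, by omega⟩, hq.2⟩
    have h4 : (((range (x + 1)).filter (fun q => q.Prime ∧ (2 * m' * q - 1).Prime)).card : ℝ) ≤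
        K * (x / Real.log x ^ 2) := by
      have h5 : (((range (x + 1)).filter (fun q => q.Prime ∧ (2 * m' * q - 1).Prime)).card : ℝ) ≤
          (((Icc 1 x).filter (fun q => q.Prime ∧ (2 * m' * q - 1).Prime)).card : ℝ) := by
        exact_mod_cast card_le_card hsub
      refine h5.trans ((hCb m' x hm' h3).trans (le_of_eq ?_))
      rw [hK]
      ring
    have hL0 : 0 < Real.log (x : ℝ) := by linarith
    have hx0' : (0 : ℝ) ≤ x := Nat.cast_nonneg x
    have h6 : K / Real.log x ≤ ε := by
      rw [div_le_iff₀ hL0]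
      rw [div_le_iff₀ hε] at h1
      linarith
    calc (((range (x + 1)).filter (fun q => q.Prime ∧ (2 * m' * q - 1).Prime)).card : ℝ) *
          Real.log x ≤ K * (x / Real.log x ^ 2) * Real.log x :=
          mul_le_mul_of_nonneg_right h4 hL0.le
      _ = (K / Real.log x) * x := by
          field_simp
      _ ≤ ε * x := mul_le_mul_of_nonneg_right h6 hx0'
  · -- odd `m`
    have h := (Real.isLittleO_log_id_atTop.def (half_pos hε))
    have h' := (tendsto_natCast_atTop_atTop (R := ℝ)).eventually h
    obtain ⟨x0, hx0⟩ := Filter.eventually_atTop.1 (h'.and (hlog.eventually_ge_atTop 1))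
    refine ⟨x0, fun x hx => ?_⟩
    obtain ⟨h1, h2⟩ := hx0 x hx
    have hx0' : (0 : ℝ) ≤ x := Nat.cast_nonneg x
    have hL0 : 0 < Real.log (x : ℝ) := by linarith
    rw [Real.norm_of_nonneg hL0.le, id, Real.norm_of_nonneg hx0'] at h1
    have hsub : (range (x + 1)).filter (fun q => q.Prime ∧ ((2 * m' + 1) * q - 1).Prime) ⊆
        {2, 3} := by
      intro q hq
      rw [mem_filter] at hq
      obtain ⟨-, hq1, hq2⟩ := hq
      rw [mem_insert, mem_singleton]
      rcases hq1.eq_two_or_odd' with h3 | h3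
      · exact Or.inl h3
      · right
        obtain ⟨j, hj⟩ := h3
        have he : Even ((2 * m' + 1) * q - 1) := by
          refine ⟨2 * m' * j + m' + j, ?_⟩
          rw [hj]
          have : (2 * m' + 1) * (2 * j + 1) = 2 * (2 * m' * j + m' + j) + 1 := by ring
          omega
        have h4 := (hq2.even_iff).1 he
        have h5 : q ≤ (2 * m' + 1) * q := Nat.le_mul_of_pos_left q (by omega)
        have h6 := hq1.two_le
        omega
    have hc : (((range (x + 1)).filter
        (fun q => q.Prime ∧ ((2 * m' + 1) * q - 1).Prime)).card : ℝ) ≤ 2 := by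
      have h3 : ((range (x + 1)).filter
        (fun q => q.Prime ∧ ((2 * m' + 1) * q - 1).Prime)).card ≤ 2 :=
        (card_le_card hsub).trans (card_le_two)
      exact_mod_cast h3
    calc (((range (x + 1)).filter
        (fun q => q.Prime ∧ ((2 * m' + 1) * q - 1).Prime)).card : ℝ) * Real.log x
        ≤ 2 * Real.log x := mul_le_mul_of_nonneg_right hc hL0.le
      _ ≤ 2 * (ε / 2 * x) := by linarith
      _ = ε * x := by ring

end Pool.Agent.helper6.MG
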