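import Pool.Agent.helper20.MPN.F

/-!
# MG-C: cost of missing primes, gain of extra primes, comparison of the products
-/

set_option autoImplicit false

open Finset

namespace Pool.Agent.helper6.MG

/-- the cost of missing primes: `1/p ≥ log p / (Y log Y)` for `p ≤ Y` and
`1/p ≥ (10/7) log p / (Y log Y)` for `10 p ≤ 7 Y`. -/
theorem cost (Y : ℕ) (hY : 3 ≤ Y) (Z : Finset ℕ) (hZ : ∀ p ∈ Z, p.Prime ∧ p ≤ Y) :
    10 / 7 * ∑ p ∈ Z, Real.log p - 3 / 7 * ∑ p ∈ Z.filter (fun p => 7 * Y < 10 * p), Real.log p ≤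
      (Y : ℝ) * Real.log Y * ∑ p ∈ Z, (1 : ℝ) / p := by
  rw [sum_filter, mul_sum, mul_sum, mul_sum, ← sum_sub_distrib]
  apply sum_le_sum
  intro p hp
  obtain ⟨hpp, hpY⟩ := hZ p hp
  have hp2 : (2 : ℝ) ≤ p := by exact_mod_cast hpp.two_le
  have hY3 : (3 : ℝ) ≤ Y := by exact_mod_cast hY
  have hpY' : (p : ℝ) ≤ Y := by exact_mod_cast hpY
  have hlog : Real.log p ≤ Real.log Y := Real.log_le_log (by linarith) hpY'
  have hlp : 0 ≤ Real.log (p : ℝ) := Real.log_nonneg (by linarith)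
  have hp0 : (0 : ℝ) < p := by linarith
  have he : (Y : ℝ) * Real.log Y * (1 / p) = (Y / p) * Real.log Y := by ring
  rw [he]
  split_ifs with h
  · have h1 : (1 : ℝ) ≤ Y / p := by rw [le_div_iff₀ hp0]; linarith
    nlinarith
  · have h' : 10 * (p : ℝ) ≤ 7 * Y := by
      have : 10 * p ≤ 7 * Y := by omega
      exact_mod_cast this
    have h1 : (10 / 7 : ℝ) ≤ Y / p := by rw [le_div_iff₀ hp0]; linarith
    nlinarith

/-- the gain of extra primes: `1/p ≤ log p / (Y log Y)` for `p > Y`. -/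
theorem extra (Y : ℕ) (hY : 3 ≤ Y) (Z : Finset ℕ) (hZ : ∀ p ∈ Z, Y < p) :
    (Y : ℝ) * Real.log Y * ∑ p ∈ Z, (1 : ℝ) / p ≤ ∑ p ∈ Z, Real.log p := by
  rw [mul_sum]
  apply sum_le_sum
  intro p hp
  have hpY : (Y : ℝ) < p := by exact_mod_cast hZ p hp
  have hY3 : (3 : ℝ) ≤ Y := by exact_mod_cast hY
  have hp0 : (0 : ℝ) < p := by linarith
  have hlog : Real.log Y ≤ Real.log p := Real.log_le_log (by linarith) hpY.le
  have hlY : 0 ≤ Real.log (Y : ℝ) := Real.log_nonneg (by linarith)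
  have he : (Y : ℝ) * Real.log Y * (1 / p) = (Y / p) * Real.log Y := by ring
  rw [he]
  have h1 : (Y / p : ℝ) ≤ 1 := by rw [div_le_one hp0]; linarith
  nlinarith

theorem mgc_tele (Y : ℕ) (hY : 1 ≤ Y) : ∀ N, Y ≤ N →
    ∑ p ∈ Ioc Y N, (1 : ℝ) / (p * (p - 1)) = 1 / Y - 1 / N := by
  intro N hN
  induction N, hN using Nat.le_induction with
  | base => simp
  | succ N hN ih =>
    rw [sum_Ioc_succ_top hN, ih]
    have hN0 : (0 : ℝ) < N := by
      have : 0 < N := by omega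
      exact_mod_cast this
    push_cast
    have e1 : ((N : ℝ) + 1) * ((N : ℝ) + 1 - 1) = ((N : ℝ) + 1) * N := by ring
    have e2 : (1 : ℝ) / (((N : ℝ) + 1) * N) = 1 / N - 1 / ((N : ℝ) + 1) := by
      field_simp
      ring
    rw [e1, e2]
    ring

theorem mgc_tail (Y : ℕ) (hY : 1 ≤ Y) (B : Finset ℕ) (hB : ∀ p ∈ B, Y < p) :
    ∑ p ∈ B, (1 : ℝ) / (p * (p - 1)) ≤ 1 / Y := by
  have hsub : B ⊆ Ioc Y (Y + B.sup id) := by
    intro p hp
    rw [mem_Ioc]
    refine ⟨hB p hp, ?_⟩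
    have : id p ≤ B.sup id := le_sup hp
    simp only [id] at this
    omega
  calc ∑ p ∈ B, (1 : ℝ) / (p * (p - 1)) ≤ ∑ p ∈ Ioc Y (Y + B.sup id), (1 : ℝ) / (p * (p - 1)) := by
        apply sum_le_sum_of_subset_of_nonneg hsub
        intro p hp _
        rw [mem_Ioc] at hp
        have : (1 : ℝ) ≤ p := by
          have : 1 ≤ p := by omega
          exact_mod_cast this
        apply div_nonneg zero_le_one
        apply mul_nonneg <;> linarith
    _ = 1 / Y - 1 / ((Y + B.sup id : ℕ) : ℝ) := mgc_tele Y hY _ (by omega)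
    _ ≤ 1 / Y := by
        have : (0 : ℝ) ≤ 1 / ((Y + B.sup id : ℕ) : ℝ) := by positivity
        linarith

theorem mgc_factor_le {p : ℝ} (hp : 2 ≤ p) : p / (p - 1) ≤ Real.exp (1 / p + 1 / (p * (p - 1))) := by
  have h := Real.add_one_le_exp (1 / p + 1 / (p * (p - 1)))
  refine le_trans (le_of_eq ?_) h
  have h1 : p - 1 ≠ 0 := by linarith
  have h2 : p ≠ 0 := by linarith
  field_simp
  ring

theorem mgc_le_factor {p : ℝ} (hp : 2 ≤ p) : Real.exp (1 / p) ≤ p / (p - 1) := by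
  have h := Real.add_one_le_exp (-(1 / p))
  have h1 : 0 < p - 1 := by linarith
  have h2 : 0 < p := by linarith
  have h3 : 0 < -(1 / p) + 1 := by
    have : 1 / p ≤ 1 / 2 := one_div_le_one_div_of_le (by norm_num) hp
    linarith
  have h4 : Real.exp (1 / p) = (Real.exp (-(1 / p)))⁻¹ := by
    rw [Real.exp_neg, inv_inv]
  rw [h4]
  refine (inv_anti₀ h3 h).trans (le_of_eq ?_)
  have e : -(1 / p) + 1 = (p - 1) / p := by
    field_simp
    ring
  rw [e, inv_div]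

/-- comparison of the product over the prime factors of `n` with the product over the primes `≤ Y`. -/
theorem prod_cmp (n Y : ℕ) (hY : 1 ≤ Y) :
    ∏ p ∈ n.primeFactors, ((p : ℝ) / (p - 1)) ≤
      (∏ p ∈ (range (Y + 1)).filter Nat.Prime, ((p : ℝ) / (p - 1))) *
        Real.exp (-(∑ p ∈ (range (Y + 1)).filter (fun p => p.Prime ∧ p ∉ n.primeFactors), (1 : ℝ) / p) +
          ∑ p ∈ n.primeFactors.filter (fun p => Y < p), (1 : ℝ) / p + 1 / Y) := by
  set Z := (range (Y + 1)).filter (fun p => p.Prime ∧ p ∉ n.primeFactors) with hZ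
  set B := n.primeFactors.filter (fun p => Y < p) with hB
  set A := n.primeFactors.filter (fun p => ¬ Y < p) with hA
  have hpr : ∀ p ∈ n.primeFactors, (2 : ℝ) ≤ p := by
    intro p hp
    exact_mod_cast (Nat.prime_of_mem_primeFactors hp).two_le
  have hsplit : ∏ p ∈ n.primeFactors, ((p : ℝ) / (p - 1)) =
      (∏ p ∈ B, ((p : ℝ) / (p - 1))) * ∏ p ∈ A, ((p : ℝ) / (p - 1)) := by
    rw [hB, hA, prod_filter_mul_prod_filter_not]
  have hW : (range (Y + 1)).filter Nat.Prime = Z ∪ A := by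
    ext p
    simp only [hZ, hA, mem_union, mem_filter, mem_range, not_lt, Nat.lt_succ_iff]
    constructor
    · rintro ⟨h1, h2⟩
      by_cases h : p ∈ n.primeFactors
      · exact Or.inr ⟨h, h1⟩
      · exact Or.inl ⟨h1, h2, h⟩
    · rintro (⟨h1, h2, -⟩ | ⟨h1, h2⟩)
      · exact ⟨h1, h2⟩
      · exact ⟨h2, Nat.prime_of_mem_primeFactors h1⟩
  have hdisj : Disjoint Z A := by
    rw [disjoint_left]
    intro p hp hp'
    rw [hZ, mem_filter] at hp
    rw [hA, mem_filter] at hp'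
    exact hp.2.2 hp'.1
  rw [hsplit, hW, prod_union hdisj]
  have hA0 : 0 ≤ ∏ p ∈ A, ((p : ℝ) / (p - 1)) := by
    apply prod_nonneg
    intro p hp
    have := hpr p (mem_filter.1 hp).1
    apply div_nonneg <;> linarith
  have hZ1 : Real.exp (∑ p ∈ Z, (1 : ℝ) / p) ≤ ∏ p ∈ Z, ((p : ℝ) / (p - 1)) := by
    rw [Real.exp_sum]
    apply prod_le_prod
    · intro p _
      exact (Real.exp_pos _).le
    · intro p hp
      apply mgc_le_factor
      have := (mem_filter.1 hp).2.1.two_le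
      exact_mod_cast this
  have hB1 : ∏ p ∈ B, ((p : ℝ) / (p - 1)) ≤ Real.exp (∑ p ∈ B, (1 : ℝ) / p + 1 / Y) := by
    have h1 : ∏ p ∈ B, ((p : ℝ) / (p - 1)) ≤
        ∏ p ∈ B, Real.exp (1 / (p : ℝ) + 1 / ((p : ℝ) * (p - 1))) := by
      apply prod_le_prod
      · intro p hp
        have := hpr p (mem_filter.1 hp).1
        apply div_nonneg <;> linarith
      · intro p hp
        exact mgc_factor_le (hpr p (mem_filter.1 hp).1)
    refine h1.trans ?_
    rw [← Real.exp_sum, sum_add_distrib]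
    apply Real.exp_le_exp.2
    have := mgc_tail Y hY B (fun p hp => (mem_filter.1 hp).2)
    linarith
  have hsplit2 : Real.exp (-(∑ p ∈ Z, (1 : ℝ) / p) + ∑ p ∈ B, (1 : ℝ) / p + 1 / Y) =
      (Real.exp (∑ p ∈ Z, (1 : ℝ) / p))⁻¹ * Real.exp (∑ p ∈ B, (1 : ℝ) / p + 1 / Y) := by
    rw [← Real.exp_neg, ← Real.exp_add]
    congr 1
    ring
  rw [hsplit2]
  have hZ2 : 1 ≤ (∏ p ∈ Z, ((p : ℝ) / (p - 1))) * (Real.exp (∑ p ∈ Z, (1 : ℝ) / p))⁻¹ := by
    rw [← div_eq_mul_inv, le_div_iff₀ (Real.exp_pos _), one_mul]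
    exact hZ1
  calc (∏ p ∈ B, ((p : ℝ) / (p - 1))) * ∏ p ∈ A, ((p : ℝ) / (p - 1))
      ≤ Real.exp (∑ p ∈ B, (1 : ℝ) / p + 1 / Y) * ∏ p ∈ A, ((p : ℝ) / (p - 1)) :=
        mul_le_mul_of_nonneg_right hB1 hA0
    _ = 1 * (Real.exp (∑ p ∈ B, (1 : ℝ) / p + 1 / Y) * ∏ p ∈ A, ((p : ℝ) / (p - 1))) :=
        (one_mul _).symm
    _ ≤ ((∏ p ∈ Z, ((p : ℝ) / (p - 1))) * (Real.exp (∑ p ∈ Z, (1 : ℝ) / p))⁻¹) *
        (Real.exp (∑ p ∈ B, (1 : ℝ) / p + 1 / Y) * ∏ p ∈ A, ((p : ℝ) / (p - 1))) :=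
        mul_le_mul_of_nonneg_right hZ2 (mul_nonneg (Real.exp_pos _).le hA0)
    _ = _ := by ring

end Pool.Agent.helper6.MG
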