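import Pool.Agent.helper6.MG.B

set_option autoImplicit false

open Finset

namespace Pool.Agent.helper6.MG

open scoped Classical in
/-- few primes `p ≤ 2 X` have a prime factor of `p + 1` above `X / D`. -/
theorem bad_small (D : ℕ) (hD : 1 ≤ D) (ε : ℝ) (hε : 0 < ε) : ∃ X0 : ℕ, ∀ X : ℕ, X0 ≤ X →
    ∑ p ∈ (range (2 * X + 1)).filter (fun p => p.Prime ∧ ∃ q : ℕ, q.Prime ∧ X / D < q ∧ q ∣ p + 1),
      Real.log p ≤ ε * X := by
  have hD0 : (0 : ℝ) < D := by exact_mod_cast hD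
  have hε' : 0 < ε / (6 * D) := by positivity
  choose x0 hx0 using fun m : ℕ => pairs (m + 1) (Nat.le_add_left 1 m) (ε / (6 * D)) hε'
  refine ⟨∑ m ∈ range (2 * D), x0 m + 1, fun X hX => ?_⟩
  have hX1 : 1 ≤ X := by omega
  set S := (range (2 * X + 1)).filter
    (fun p => p.Prime ∧ ∃ q : ℕ, q.Prime ∧ X / D < q ∧ q ∣ p + 1) with hS
  have hsub : S ⊆ (range (2 * D)).biUnion (fun m => ((range (2 * X + 1 + 1)).filter
      (fun q => q.Prime ∧ ((m + 1) * q - 1).Prime)).image (fun q => (m + 1) * q - 1)) := by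
    intro p hp
    rw [hS, mem_filter, mem_range] at hp
    obtain ⟨hp1, hpp, q, hq, hqX, m, hm⟩ := hp
    have hm0 : 1 ≤ m := by
      rcases Nat.eq_zero_or_pos m with h | h
      · rw [h] at hm; omega
      · exact h
    have h1 : X < D * (X / D + 1) := Nat.lt_mul_div_succ X hD
    have h2 : D * (X / D + 1) ≤ D * q := Nat.mul_le_mul_left D hqX
    have h3 : m * (X + 1) ≤ D * (2 * X + 1) := by
      calc m * (X + 1) ≤ m * (D * q) := Nat.mul_le_mul_left m (by omega)
        _ = D * (q * m) := by ring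
        _ = D * (p + 1) := by rw [hm]
        _ ≤ D * (2 * X + 1) := Nat.mul_le_mul_left D (by omega)
    have h4 : m < 2 * D := by
      by_contra hcon
      have hcon' : 2 * D ≤ m := Nat.le_of_not_lt hcon
      have h5 : 2 * D * (X + 1) ≤ m * (X + 1) := Nat.mul_le_mul_right _ hcon'
      have h6 : 2 * D * (X + 1) = D * (2 * X + 1) + D := by ring
      omega
    have h7 : q ≤ 2 * X + 1 := by
      have h8 : q * 1 ≤ q * m := Nat.mul_le_mul_left q hm0
      rw [← hm] at h8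
      omega
    have e : (m - 1 + 1) * q - 1 = p := by
      have e1 : m - 1 + 1 = m := by omega
      rw [e1, mul_comm m q, ← hm]
      rfl
    rw [mem_biUnion]
    refine ⟨m - 1, mem_range.mpr (by omega), mem_image.mpr ⟨q, ?_, e⟩⟩
    rw [mem_filter, mem_range]
    exact ⟨by omega, hq, by rw [e]; exact hpp⟩
  have hcard : S.card ≤ ∑ m ∈ range (2 * D), ((range (2 * X + 1 + 1)).filter
      (fun q => q.Prime ∧ ((m + 1) * q - 1).Prime)).card := by
    refine (card_le_card hsub).trans (card_biUnion_le.trans ?_)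
    exact sum_le_sum fun m _ => card_image_le
  have hlog0 : 0 ≤ Real.log ((2 * X + 1 : ℕ) : ℝ) := Real.log_natCast_nonneg _
  have hsum1 : ∑ p ∈ S, Real.log p ≤ (S.card : ℝ) * Real.log ((2 * X + 1 : ℕ) : ℝ) := by
    have h : ∀ p ∈ S, Real.log (p : ℝ) ≤ Real.log ((2 * X + 1 : ℕ) : ℝ) := by
      intro p hp
      rw [hS, mem_filter, mem_range] at hp
      have hp0 : (0 : ℝ) < p := by exact_mod_cast hp.2.1.pos
      apply Real.log_le_log hp0
      exact_mod_cast (by omega : p ≤ 2 * X + 1)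
    calc ∑ p ∈ S, Real.log p ≤ ∑ _p ∈ S, Real.log ((2 * X + 1 : ℕ) : ℝ) := sum_le_sum h
      _ = (S.card : ℝ) * Real.log ((2 * X + 1 : ℕ) : ℝ) := by rw [sum_const, nsmul_eq_mul]
  have hm : ∀ m ∈ range (2 * D), ((((range (2 * X + 1 + 1)).filter
      (fun q => q.Prime ∧ ((m + 1) * q - 1).Prime)).card : ℕ) : ℝ) *
        Real.log ((2 * X + 1 : ℕ) : ℝ) ≤ ε / (6 * D) * ((2 * X + 1 : ℕ) : ℝ) := by
    intro m hm
    have h1 : x0 m ≤ ∑ m ∈ range (2 * D), x0 m :=
      single_le_sum (f := x0) (fun i _ => Nat.zero_le _) hm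
    exact hx0 m (2 * X + 1) (by omega)
  have hX1' : (1 : ℝ) ≤ X := by exact_mod_cast hX1
  calc ∑ p ∈ S, Real.log p ≤ (S.card : ℝ) * Real.log ((2 * X + 1 : ℕ) : ℝ) := hsum1
    _ ≤ ((∑ m ∈ range (2 * D), ((range (2 * X + 1 + 1)).filter
          (fun q => q.Prime ∧ ((m + 1) * q - 1).Prime)).card : ℕ) : ℝ) *
          Real.log ((2 * X + 1 : ℕ) : ℝ) :=
        mul_le_mul_of_nonneg_right (by exact_mod_cast hcard) hlog0
    _ = ∑ m ∈ range (2 * D), ((((range (2 * X + 1 + 1)).filter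
          (fun q => q.Prime ∧ ((m + 1) * q - 1).Prime)).card : ℕ) : ℝ) *
          Real.log ((2 * X + 1 : ℕ) : ℝ) := by
        rw [Nat.cast_sum, sum_mul]
    _ ≤ ∑ _m ∈ range (2 * D), ε / (6 * D) * ((2 * X + 1 : ℕ) : ℝ) := sum_le_sum hm
    _ = ε / 3 * (2 * X + 1) := by
        rw [sum_const, card_range, nsmul_eq_mul]
        push_cast
        field_simp
        ring
    _ ≤ ε * X := by nlinarith

end Pool.Agent.helper6.MG
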