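import Pool.Agent.helper6.MG.D

set_option autoImplicit false

open Finset

namespace Pool.Agent.helper6.MG

open scoped Classical in
/-- as `bad_small`, for `p ≤ 4 X` -/
theorem bad_small4 (D : ℕ) (hD : 1 ≤ D) (ε : ℝ) (hε : 0 < ε) : ∃ X0 : ℕ, ∀ X : ℕ, X0 ≤ X →
    ∑ p ∈ (range (4 * X + 1)).filter (fun p => p.Prime ∧ ∃ q : ℕ, q.Prime ∧ X / D < q ∧ q ∣ p + 1),
      Real.log p ≤ ε * X := by
  obtain ⟨X0, h⟩ := bad_small (2 * D) (by omega) (ε / 2) (by linarith)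
  refine ⟨X0, fun X hX => ?_⟩
  have h1 := h (2 * X) (by omega)
  rw [show 2 * (2 * X) = 4 * X by ring, Nat.mul_div_mul_left X D (by norm_num)] at h1
  push_cast at h1
  have h2 : ε / 2 * (2 * (X : ℝ)) = ε * X := by ring
  rw [h2] at h1
  exact h1

end Pool.Agent.helper6.MG
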