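import Mathlib

set_option autoImplicit false

/-!
# MG-S: the trivial bound of the multiplier
-/

open Finset

namespace Pool.Agent.helper6.MG

/-- `k = σ(n)/n = ∑_{d ∣ n} 1/d ≤ 1 + log n` -/
theorem k_le {n k : ℕ} (hn : 0 < n) (hs : ArithmeticFunction.sigma 1 n = k * n) :
    (k : ℝ) ≤ 1 + Real.log n := by
  have hn' : (0 : ℝ) < n := by exact_mod_cast hn
  have h1 : ((ArithmeticFunction.sigma 1 n : ℕ) : ℝ) = n * ∑ d ∈ n.divisors, ((d : ℝ))⁻¹ := by
    rw [ArithmeticFunction.sigma_one_apply, ← Nat.sum_div_divisors n (fun d => d)]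
    push_cast
    rw [Finset.mul_sum]
    refine Finset.sum_congr rfl fun d hd => ?_
    have hd1 : d ∣ n := Nat.dvd_of_mem_divisors hd
    have hd0 : (d : ℝ) ≠ 0 := by
      have := Nat.pos_of_mem_divisors hd
      positivity
    rw [Nat.cast_div hd1 hd0, div_eq_mul_inv]
  have h2 : ∑ d ∈ n.divisors, ((d : ℝ))⁻¹ ≤ ∑ d ∈ Finset.Icc 1 n, ((d : ℝ))⁻¹ := by
    refine Finset.sum_le_sum_of_subset_of_nonneg (fun d hd => ?_) fun d _ _ => by positivity
    exact Finset.mem_Icc.mpr ⟨Nat.pos_of_mem_divisors hd, Nat.divisor_le hd⟩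
  have h3 : ∑ d ∈ Finset.Icc 1 n, ((d : ℝ))⁻¹ ≤ 1 + Real.log n := by
    have h := harmonic_le_one_add_log n
    rw [harmonic_eq_sum_Icc] at h
    push_cast at h
    exact h
  have h4 : (k : ℝ) * n = n * ∑ d ∈ n.divisors, ((d : ℝ))⁻¹ := by
    rw [← h1, hs]
    push_cast
    ring
  have h5 : (k : ℝ) = ∑ d ∈ n.divisors, ((d : ℝ))⁻¹ := by
    have := mul_left_cancel₀ hn'.ne' (a := (n : ℝ)) (b := (k : ℝ))
      (c := ∑ d ∈ n.divisors, ((d : ℝ))⁻¹) (by linarith)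
    exact this
  rw [h5]
  exact h2.trans h3

end Pool.Agent.helper6.MG
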