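import Pool.Agent.helper6.MG.P
import Pool.Agent.helper6.MG.S
import Pool.Agent.helper6.MG.C

set_option autoImplicit false

/-!
# MG-F: sums of `log p` over present and missing primes
-/

open Finset

namespace Pool.Agent.helper6.MG

/-- the sum of `log p` over the primes `p ≤ m` -/
noncomputable def th (m : ℕ) : ℝ := ∑ p ∈ (range (m + 1)).filter Nat.Prime, Real.log p

theorem F_log_nonneg (p : ℕ) : 0 ≤ Real.log p := Real.log_natCast_nonneg p

/-- present and missing primes up to `Y` -/
theorem F_split {n : ℕ} (Y : ℕ) :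
    ∑ p ∈ n.primeFactors.filter (fun p => p ≤ Y), Real.log p +
      ∑ p ∈ (range (Y + 1)).filter (fun p => p.Prime ∧ p ∉ n.primeFactors), Real.log p = th Y := by
  have h1 : n.primeFactors.filter (fun p => p ≤ Y) =
      (range (Y + 1)).filter (fun p => p.Prime ∧ p ∈ n.primeFactors) := by
    ext p
    simp only [Finset.mem_filter, Finset.mem_range]
    constructor
    · rintro ⟨h2, h3⟩
      exact ⟨by omega, Nat.prime_of_mem_primeFactors h2, h2⟩
    · rintro ⟨h2, h3, h4⟩
      exact ⟨h4, by omega⟩
  rw [h1, Finset.sum_filter, Finset.sum_filter, ← Finset.sum_add_distrib]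
  unfold th
  rw [Finset.sum_filter]
  refine Finset.sum_congr rfl fun p hp => ?_
  by_cases h2 : p.Prime <;> by_cases h3 : p ∈ n.primeFactors <;> simp [h2, h3]

end Pool.Agent.helper6.MG
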