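import Pool.Agent.helper20.MPN.D

set_option autoImplicit false

open Finset

namespace Pool.Agent.helper6.MG

theorem m_log {n : ℕ} (hn : 0 < n) :
    Real.log (n : ℝ) = ∑ p ∈ n.primeFactors, (n.factorization p : ℝ) * Real.log p := by
  have hn' : (n : ℝ) = ∏ p ∈ n.primeFactors, ((p : ℝ) ^ n.factorization p) := by
    conv_lhs => rw [← Nat.prod_factorization_pow_eq_self hn.ne']
    rw [Finsupp.prod, Nat.support_factorization]
    push_cast
    rfl
  conv_lhs => rw [hn']
  rw [Real.log_prod]
  · exact Finset.sum_congr rfl fun p _ => Real.log_pow _ _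
  · intro p hp
    have := (Nat.prime_of_mem_primeFactors hp).pos
    positivity

theorem m_split {n : ℕ} (hn : 0 < n) (Z : ℕ) :
    (∏ q ∈ n.primeFactors.filter (fun q => q ≤ Z), q ^ n.factorization q) *
      (∏ q ∈ n.primeFactors.filter (fun q => ¬ q ≤ Z), q ^ n.factorization q) = n := by
  rw [Finset.prod_filter_mul_prod_filter_not]
  exact Nat.prod_factorization_pow_eq_self hn.ne'

open Pool.Agent.helper20.MPN in
/-- a set `A` of prime factors with exponent one, none of whose `p + 1` has a prime factor `> Z`: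
the product of the `p + 1` divides `k` times the `Z`-smooth part of `n`. -/
theorem m_dvd {n k : ℕ} (hn : 0 < n) (hs : ArithmeticFunction.sigma 1 n = k * n) (Z : ℕ)
    (A : Finset ℕ) (hA : A ⊆ n.primeFactors) (hA1 : ∀ p ∈ A, n.factorization p = 1)
    (hA2 : ∀ p ∈ A, ∀ q : ℕ, q.Prime → q ∣ p + 1 → q ≤ Z) :
    ∏ p ∈ A, (p + 1) ∣
      k * ∏ q ∈ n.primeFactors.filter (fun q => q ≤ Z), q ^ n.factorization q := by
  have h1 : ∏ p ∈ A, (p + 1) ∣ k * n := by
    rw [← hs, D_sigma_eq hn]
    have h2 : ∏ p ∈ A, (p + 1) = ∏ p ∈ A, cyc (n.factorization p + 1) p := by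
      refine Finset.prod_congr rfl fun p hp => ?_
      rw [hA1 p hp]
      unfold cyc
      simp [Finset.sum_range_succ]
      ring
    rw [h2]
    exact Finset.prod_dvd_prod_of_subset _ _ _ hA
  have hcop : Nat.Coprime (∏ p ∈ A, (p + 1))
      (∏ q ∈ n.primeFactors.filter (fun q => ¬ q ≤ Z), q ^ n.factorization q) := by
    refine Nat.Coprime.prod_left fun p hp => Nat.Coprime.prod_right fun q hq => ?_
    obtain ⟨hq1, hq2⟩ := Finset.mem_filter.mp hq
    have hqp : q.Prime := Nat.prime_of_mem_primeFactors hq1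
    refine Nat.Coprime.pow_right _ ?_
    refine Nat.Coprime.symm ((Nat.Prime.coprime_iff_not_dvd hqp).mpr fun h => ?_)
    exact hq2 (hA2 p hp q hqp h)
  rw [← m_split hn Z, ← mul_assoc] at h1
  exact hcop.dvd_of_dvd_mul_right h1

/-- the logarithmic form of `m_dvd` -/
theorem m_good {n k : ℕ} (hn : 0 < n) (hk : 0 < k)
    (hs : ArithmeticFunction.sigma 1 n = k * n) (Z : ℕ)
    (A : Finset ℕ) (hA : A ⊆ n.primeFactors) (hA1 : ∀ p ∈ A, n.factorization p = 1)
    (hA2 : ∀ p ∈ A, ∀ q : ℕ, q.Prime → q ∣ p + 1 → q ≤ Z) :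
    ∑ p ∈ A, Real.log p ≤ Real.log k +
      ∑ q ∈ n.primeFactors.filter (fun q => q ≤ Z), (n.factorization q : ℝ) * Real.log q := by
  have hN1 : 0 < ∏ q ∈ n.primeFactors.filter (fun q => q ≤ Z), q ^ n.factorization q :=
    Finset.prod_pos fun q hq =>
      pow_pos (Nat.prime_of_mem_primeFactors (Finset.mem_filter.mp hq).1).pos _
  have hle : ∏ p ∈ A, (p + 1) ≤
      k * ∏ q ∈ n.primeFactors.filter (fun q => q ≤ Z), q ^ n.factorization q :=
    Nat.le_of_dvd (Nat.mul_pos hk hN1) (m_dvd hn hs Z A hA hA1 hA2)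
  have hle2 : ∏ p ∈ A, p ≤ ∏ p ∈ A, (p + 1) :=
    Finset.prod_le_prod' fun p _ => Nat.le_succ p
  have hpos : 0 < ∏ p ∈ A, p :=
    Finset.prod_pos fun p hp => (Nat.prime_of_mem_primeFactors (hA hp)).pos
  have h1 : Real.log ((∏ p ∈ A, p : ℕ) : ℝ) ≤
      Real.log ((k * ∏ q ∈ n.primeFactors.filter (fun q => q ≤ Z), q ^ n.factorization q : ℕ) : ℝ) :=
    Real.log_le_log (by exact_mod_cast hpos) (by exact_mod_cast hle2.trans hle)
  have h2 : Real.log ((∏ p ∈ A, p : ℕ) : ℝ) = ∑ p ∈ A, Real.log p := by
    push_cast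
    rw [Real.log_prod]
    intro p hp
    have := (Nat.prime_of_mem_primeFactors (hA hp)).pos
    positivity
  have h3 : Real.log
      ((k * ∏ q ∈ n.primeFactors.filter (fun q => q ≤ Z), q ^ n.factorization q : ℕ) : ℝ) =
      Real.log k +
      ∑ q ∈ n.primeFactors.filter (fun q => q ≤ Z), (n.factorization q : ℝ) * Real.log q := by
    have hk' : (k : ℝ) ≠ 0 := by exact_mod_cast hk.ne'
    have hN' : ((∏ q ∈ n.primeFactors.filter (fun q => q ≤ Z), q ^ n.factorization q : ℕ) : ℝ) ≠ 0 := by
      exact_mod_cast hN1.ne'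
    rw [Nat.cast_mul, Real.log_mul hk' hN']
    push_cast
    rw [Real.log_prod]
    · congr 1
      exact Finset.sum_congr rfl fun p _ => Real.log_pow _ _
    · intro p hp
      have := (Nat.prime_of_mem_primeFactors (Finset.mem_filter.mp hp).1).pos
      positivity
  rw [← h2, ← h3]
  exact h1

open scoped Classical in
/-- **the mass inequality**: a prime factor `q ∈ (Z, V]` of `n` costs at least twice its logarithm. -/
theorem mass {n k : ℕ} (hn : 0 < n) (hk : 0 < k) (hs : ArithmeticFunction.sigma 1 n = k * n)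
    (Z V : ℕ) :
    2 * ∑ q ∈ n.primeFactors.filter (fun q => Z < q ∧ q ≤ V), Real.log q +
        ∑ q ∈ n.primeFactors.filter (fun q => V < q), Real.log q ≤
      Real.log n + Real.log k +
        ∑ p ∈ (range (V + 1)).filter (fun p => p.Prime ∧ ∃ q : ℕ, q.Prime ∧ Z < q ∧ q ∣ p + 1),
          Real.log p := by
  have hlogk : 0 ≤ Real.log (k : ℝ) := Real.log_nonneg (by exact_mod_cast hk)
  have hlogp : ∀ p ∈ n.primeFactors, 0 ≤ Real.log (p : ℝ) := fun p hp =>
    Real.log_nonneg (by exact_mod_cast (Nat.prime_of_mem_primeFactors hp).one_lt.le)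
  have ha : ∀ p ∈ n.primeFactors, 1 ≤ n.factorization p := fun p hp =>
    ((Nat.prime_of_mem_primeFactors hp).dvd_iff_one_le_factorization hn.ne').mp
      (Nat.dvd_of_mem_primeFactors hp)
  have hbad0 : 0 ≤ ∑ p ∈ (range (V + 1)).filter
      (fun p => p.Prime ∧ ∃ q : ℕ, q.Prime ∧ Z < q ∧ q ∣ p + 1), Real.log (p : ℝ) := by
    refine Finset.sum_nonneg fun p hp => ?_
    exact Real.log_nonneg (by exact_mod_cast (Finset.mem_filter.mp hp).2.1.one_lt.le)
  rcases Nat.lt_or_ge V Z with hVZ | hZV
  · -- the first sum is empty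
    have h0 : n.primeFactors.filter (fun q => Z < q ∧ q ≤ V) = ∅ := by
      refine Finset.filter_eq_empty_iff.mpr fun q _ h => ?_
      omega
    rw [h0, Finset.sum_empty, mul_zero, zero_add]
    have h1 : ∑ q ∈ n.primeFactors.filter (fun q => V < q), Real.log (q : ℝ) ≤ Real.log n := by
      rw [m_log hn]
      calc ∑ q ∈ n.primeFactors.filter (fun q => V < q), Real.log (q : ℝ)
          ≤ ∑ q ∈ n.primeFactors, Real.log (q : ℝ) :=
            Finset.sum_le_sum_of_subset_of_nonneg (Finset.filter_subset _ _)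
              fun p hp _ => hlogp p hp
        _ ≤ ∑ p ∈ n.primeFactors, (n.factorization p : ℝ) * Real.log p := by
            refine Finset.sum_le_sum fun p hp => ?_
            have h1 : (1 : ℝ) ≤ n.factorization p := by exact_mod_cast ha p hp
            exact le_mul_of_one_le_left (hlogp p hp) h1
    linarith
  · -- main case
    set M := n.primeFactors.filter (fun q => Z < q ∧ q ≤ V) with hM
    set L := n.primeFactors.filter (fun q => V < q) with hL
    set B := (range (V + 1)).filter
      (fun p => p.Prime ∧ ∃ q : ℕ, q.Prime ∧ Z < q ∧ q ∣ p + 1) with hB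
    set A := M.filter (fun p => n.factorization p = 1 ∧ p ∉ B) with hA
    have hAM : A ⊆ M := Finset.filter_subset _ _
    have hMS : M ⊆ n.primeFactors := Finset.filter_subset _ _
    have hgood := m_good hn hk hs Z A (hAM.trans hMS)
      (fun p hp => (Finset.mem_filter.mp hp).2.1) (fun p hp q hq hqd => by
        by_contra hcon
        obtain ⟨hp1, _, hp3⟩ := Finset.mem_filter.mp hp
        obtain ⟨hp4, hp5, hp6⟩ := Finset.mem_filter.mp hp1
        refine hp3 (Finset.mem_filter.mpr ⟨Finset.mem_range.mpr (by omega),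
          Nat.prime_of_mem_primeFactors hp4, q, hq, by omega, hqd⟩))
    -- the splitting of `log n`
    have hsplit : Real.log (n : ℝ) =
        ∑ q ∈ n.primeFactors.filter (fun q => q ≤ Z), (n.factorization q : ℝ) * Real.log q +
        (∑ q ∈ M, (n.factorization q : ℝ) * Real.log q +
          ∑ q ∈ L, (n.factorization q : ℝ) * Real.log q) := by
      rw [m_log hn, ← Finset.sum_filter_add_sum_filter_not n.primeFactors (fun q => q ≤ Z)]
      congr 1
      rw [← Finset.sum_filter_add_sum_filter_not
        (n.primeFactors.filter (fun q => ¬ q ≤ Z)) (fun q => q ≤ V)]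
      rw [Finset.filter_filter, Finset.filter_filter]
      congr 1
      · refine Finset.sum_congr (Finset.filter_congr fun q _ => ?_) fun _ _ => rfl
        constructor <;> intro h <;> constructor <;> omega
      · refine Finset.sum_congr (Finset.filter_congr fun q _ => ?_) fun _ _ => rfl
        constructor
        · intro h
          omega
        · intro h
          constructor <;> omega
    have hLle : ∑ q ∈ L, Real.log (q : ℝ) ≤ ∑ q ∈ L, (n.factorization q : ℝ) * Real.log q := by
      refine Finset.sum_le_sum fun p hp => ?_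
      have hp1 := (Finset.mem_filter.mp hp).1
      have h1 : (1 : ℝ) ≤ n.factorization p := by exact_mod_cast ha p hp1
      exact le_mul_of_one_le_left (hlogp p hp1) h1
    -- pointwise count on `M`
    have hMle : 2 * ∑ q ∈ M, Real.log (q : ℝ) ≤
        ∑ p ∈ A, Real.log (p : ℝ) + ∑ q ∈ M, (n.factorization q : ℝ) * Real.log q +
          ∑ p ∈ B, Real.log (p : ℝ) := by
      have h1 : ∑ q ∈ M.filter (fun q => q ∈ B), Real.log (q : ℝ) ≤ ∑ p ∈ B, Real.log (p : ℝ) := by
        refine Finset.sum_le_sum_of_subset_of_nonneg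
          (fun q hq => (Finset.mem_filter.mp hq).2) fun p hp _ => ?_
        exact Real.log_nonneg (by exact_mod_cast (Finset.mem_filter.mp hp).2.1.one_lt.le)
      have h2 : 2 * ∑ q ∈ M, Real.log (q : ℝ) ≤
          ∑ p ∈ A, Real.log (p : ℝ) + ∑ q ∈ M, (n.factorization q : ℝ) * Real.log q +
            ∑ q ∈ M.filter (fun q => q ∈ B), Real.log (q : ℝ) := by
        rw [hA, Finset.sum_filter (s := M), Finset.sum_filter (s := M), Finset.mul_sum,
          ← Finset.sum_add_distrib, ← Finset.sum_add_distrib]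
        refine Finset.sum_le_sum fun p hp => ?_
        have hp1 := hMS hp
        have hl := hlogp p hp1
        have h1 : (1 : ℝ) ≤ n.factorization p := by exact_mod_cast ha p hp1
        have h1' : 1 * Real.log (p : ℝ) ≤ (n.factorization p : ℝ) * Real.log p :=
          mul_le_mul_of_nonneg_right h1 hl
        by_cases hpB : p ∈ B
        · rw [if_neg (by simp [hpB]), if_pos hpB]
          linarith
        · rw [if_neg hpB]
          by_cases h2 : n.factorization p = 1
          · rw [if_pos ⟨h2, hpB⟩]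
            linarith
          · rw [if_neg (by simp [h2])]
            have h3 : (2 : ℝ) ≤ n.factorization p := by
              have := ha p hp1
              exact_mod_cast (by omega : 2 ≤ n.factorization p)
            have h4 : 2 * Real.log (p : ℝ) ≤ (n.factorization p : ℝ) * Real.log p :=
              mul_le_mul_of_nonneg_right h3 hl
            linarith
      linarith
    linarith

end Pool.Agent.helper6.MG
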