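import Pool.Agent.helper6.MG.F
import Pool.Agent.helper6.MG.M
import Pool.Agent.helper6.MG.D

set_option autoImplicit false

/-!
# MG-H: Gronwall's bound at the square root for large multiply perfect numbers

`X = ⌊(1/2 + ε) log n⌋`, `V = 2 X`, `Z = ⌊X / D⌋`. By module M a prime factor `q ∈ (Z, V]` of `n` costs at
least `2 log q` of the total mass `log n` (up to `log k` and few exceptional primes, module D), a prime
factor `q > V` costs `log q`. So `θ(S ∩ [1, V]) + θ(S ∩ (V, ∞))/2 ≤ log n / 2 + o(X) < θ(X)`, `S` the set of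
the prime factors of `n`, and the product over `S` is smaller than the product over the primes `≤ X`.
-/

open Finset

namespace Pool.Agent.helper6.MG

theorem H_low {n : ℕ} (X V Z : ℕ) (hXV : X ≤ V) :
    ∑ p ∈ n.primeFactors.filter (fun p => X < p ∧ p ≤ V), Real.log p +
        ∑ p ∈ n.primeFactors.filter (fun p => p ≤ X), Real.log p ≤
      ∑ p ∈ n.primeFactors.filter (fun q => Z < q ∧ q ≤ V), Real.log p + th Z := by
  have h1 : ∑ p ∈ n.primeFactors.filter (fun p => p ≤ Z), Real.log p ≤ th Z := by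
    unfold th
    refine Finset.sum_le_sum_of_subset_of_nonneg ?_ fun p _ _ => F_log_nonneg p
    intro p hp
    simp only [Finset.mem_filter, Finset.mem_range] at hp ⊢
    exact ⟨by omega, Nat.prime_of_mem_primeFactors hp.1⟩
  have h2 : ∑ p ∈ n.primeFactors.filter (fun p => X < p ∧ p ≤ V), Real.log p +
        ∑ p ∈ n.primeFactors.filter (fun p => p ≤ X), Real.log p ≤
      ∑ p ∈ n.primeFactors.filter (fun q => Z < q ∧ q ≤ V), Real.log p +
        ∑ p ∈ n.primeFactors.filter (fun p => p ≤ Z), Real.log p := by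
    rw [Finset.sum_filter, Finset.sum_filter, Finset.sum_filter, Finset.sum_filter,
      ← Finset.sum_add_distrib, ← Finset.sum_add_distrib]
    refine Finset.sum_le_sum fun p hp => ?_
    have hL := F_log_nonneg p
    by_cases h3 : p ≤ V
    · have h4 : (if X < p ∧ p ≤ V then Real.log p else 0) + (if p ≤ X then Real.log p else 0) =
          Real.log (p : ℝ) := by
        rcases Nat.lt_or_ge X p with h | h
        · rw [if_pos ⟨h, h3⟩, if_neg (by omega), add_zero]
        · rw [if_neg (by omega), if_pos h, zero_add]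
      have h5 : (if Z < p ∧ p ≤ V then Real.log p else 0) + (if p ≤ Z then Real.log p else 0) =
          Real.log (p : ℝ) := by
        rcases Nat.lt_or_ge Z p with h | h
        · rw [if_pos ⟨h, h3⟩, if_neg (by omega), add_zero]
        · rw [if_neg (by omega), if_pos h, zero_add]
      rw [h4, h5]
    · rw [if_neg (by omega), if_neg (by omega), add_zero]
      split_ifs <;> linarith
  linarith

theorem H_gain {n : ℕ} (X V : ℕ) (hXV : X ≤ V) :
    ∑ p ∈ n.primeFactors.filter (fun p => X < p), (1 : ℝ) / p =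
      ∑ p ∈ n.primeFactors.filter (fun p => X < p ∧ p ≤ V), (1 : ℝ) / p +
        ∑ p ∈ n.primeFactors.filter (fun p => V < p), (1 : ℝ) / p := by
  rw [Finset.sum_filter, Finset.sum_filter, Finset.sum_filter, ← Finset.sum_add_distrib]
  refine Finset.sum_congr rfl fun p _ => ?_
  rcases Nat.lt_or_ge V p with h | h
  · rw [if_pos (by omega), if_neg (by omega), if_pos h, zero_add]
  · rw [if_neg (show ¬ V < p by omega), add_zero]
    by_cases h2 : X < p
    · rw [if_pos h2, if_pos ⟨h2, h⟩]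
    · rw [if_neg h2, if_neg (by omega)]

open scoped Classical in
/-- **Gronwall's bound at the square root** -/
theorem half (ε : ℝ) (hε : 0 < ε) : ∃ n0 : ℕ, ∀ n k : ℕ, n0 ≤ n →
    ArithmeticFunction.sigma 1 n = k * n →
      (k : ℝ) ≤ ∏ p ∈ (range (⌊(1 / 2 + ε) * Real.log n⌋₊ + 1)).filter Nat.Prime,
        ((p : ℝ) / (p - 1)) := by
  obtain ⟨η, hη⟩ : ∃ η : ℝ, η = 2 * ε / (1 + 2 * ε) / 8 := ⟨_, rfl⟩
  have h12 : 0 < 1 + 2 * ε := by linarith
  have hη0 : 0 < η := by
    rw [hη]
    positivity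
  have hη8 : 1 / (1 + 2 * ε) = 1 - 8 * η := by
    rw [hη]
    field_simp
    ring
  have hη1 : 8 * η ≤ 1 := by
    have : 0 < 1 / (1 + 2 * ε) := by positivity
    linarith
  obtain ⟨D, hD⟩ := exists_nat_ge (2 / η)
  have hD1 : 1 ≤ D := by
    have h1 : (0 : ℝ) < (D : ℝ) := lt_of_lt_of_le (by positivity) hD
    exact_mod_cast h1
  obtain ⟨m0, hm0⟩ := theta_pnt η hη0
  obtain ⟨X1, hX1⟩ := bad_small D hD1 η hη0
  -- logarithms are small
  have hlogA : ∀ᶠ X : ℕ in Filter.atTop, Real.log (X : ℝ) ≤ 4 * η * (X : ℝ) := by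
    have h1 := Real.isLittleO_log_id_atTop.bound (show (0 : ℝ) < 4 * η by positivity)
    filter_upwards [tendsto_natCast_atTop_atTop.eventually h1] with Y hY
    have h3 : (0 : ℝ) ≤ (Y : ℝ) := Nat.cast_nonneg Y
    rw [Real.norm_eq_abs, id, Real.norm_eq_abs, abs_of_nonneg h3] at hY
    exact (le_abs_self _).trans hY
  have hlogB : ∀ᶠ X : ℕ in Filter.atTop, Real.log (2 * (X : ℝ) + 3) ≤ η * (X : ℝ) := by
    have h1 := Real.isLittleO_log_id_atTop.bound (show (0 : ℝ) < η / 5 by positivity)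
    have h2 : Filter.Tendsto (fun X : ℕ => 2 * (X : ℝ) + 3) Filter.atTop Filter.atTop :=
      Filter.tendsto_atTop_add_const_right _ _
        (tendsto_natCast_atTop_atTop.const_mul_atTop (by norm_num))
    filter_upwards [h2.eventually h1, Filter.eventually_ge_atTop 1] with X hX hX1
    have h3 : (1 : ℝ) ≤ (X : ℝ) := by exact_mod_cast hX1
    rw [Real.norm_eq_abs, id, Real.norm_eq_abs, abs_of_nonneg (show 0 ≤ 2 * (X : ℝ) + 3 by linarith)]
      at hX
    refine (le_abs_self _).trans (hX.trans ?_)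
    nlinarith
  have hbig : ∀ᶠ X : ℕ in Filter.atTop, 1 / η ≤ (X : ℝ) :=
    tendsto_natCast_atTop_atTop.eventually_ge_atTop _
  obtain ⟨X2, hX2⟩ := Filter.eventually_atTop.1 (hlogA.and (hlogB.and hbig))
  have hn0 : ∀ᶠ n : ℕ in Filter.atTop,
      ((max (max (D * m0 + m0) X1) (max X2 3) : ℕ) : ℝ) ≤ (1 / 2 + ε) * Real.log (n : ℝ) :=
    ((Real.tendsto_log_atTop.comp tendsto_natCast_atTop_atTop).const_mul_atTop
      (show 0 < 1 / 2 + ε by linarith)).eventually_ge_atTop _
  obtain ⟨n1, hn1⟩ := Filter.eventually_atTop.1 hn0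
  refine ⟨max n1 1, fun n k hn hs => ?_⟩
  have hnpos : 0 < n := lt_of_lt_of_le Nat.one_pos ((le_max_right _ _).trans hn)
  have hkpos : 0 < k := by
    rcases Nat.eq_zero_or_pos k with h | h
    · exfalso
      rw [h, zero_mul] at hs
      have : 0 < ArithmeticFunction.sigma 1 n := by
        rw [ArithmeticFunction.sigma_one_apply]
        exact Finset.sum_pos (fun d hd => Nat.pos_of_mem_divisors hd)
          ⟨1, Nat.one_mem_divisors.2 hnpos.ne'⟩
      omega
    · exact h
  have hlogn := hn1 n ((le_max_left _ _).trans hn)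
  obtain ⟨X, hXdef⟩ : ∃ X : ℕ, X = ⌊(1 / 2 + ε) * Real.log (n : ℝ)⌋₊ := ⟨_, rfl⟩
  rw [← hXdef]
  have hln0 : (0 : ℝ) ≤ Real.log (n : ℝ) := F_log_nonneg n
  have hXlt : (1 / 2 + ε) * Real.log n < (X : ℝ) + 1 := by
    rw [hXdef]
    exact Nat.lt_floor_add_one _
  have hXmax : max (max (D * m0 + m0) X1) (max X2 3) ≤ X := by
    rw [hXdef]
    exact Nat.le_floor hlogn
  have hXm : D * m0 + m0 ≤ X := le_trans (le_trans (le_max_left _ _) (le_max_left _ _)) hXmax
  have hXX1 : X1 ≤ X := le_trans (le_trans (le_max_right _ _) (le_max_left _ _)) hXmax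
  have hXX2 : X2 ≤ X := le_trans (le_trans (le_max_left _ _) (le_max_right _ _)) hXmax
  have hX3 : 3 ≤ X := le_trans (le_trans (le_max_right _ _) (le_max_right _ _)) hXmax
  obtain ⟨hlA, hlB, hbg⟩ := hX2 X hXX2
  have hXR3 : (3 : ℝ) ≤ (X : ℝ) := by exact_mod_cast hX3
  have hXR : (0 : ℝ) < (X : ℝ) := by linarith
  have hL : (0 : ℝ) < Real.log (X : ℝ) := Real.log_pos (by linarith)
  have hηX : 1 ≤ η * X := by
    rw [div_le_iff₀ hη0] at hbg
    linarith
  -- `log n / 2 ≤ (1 - 8 η) X + 1`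
  have hy2 : Real.log n / 2 ≤ (1 - 8 * η) * X + 1 := by
    have h1 : Real.log n / 2 < ((X : ℝ) + 1) * (1 / (1 + 2 * ε)) := by
      rw [← div_eq_mul_one_div, lt_div_iff₀ h12]
      linarith
    rw [hη8] at h1
    nlinarith
  have hy : Real.log n ≤ 2 * (X : ℝ) + 2 := by nlinarith
  -- the pieces
  have hmass := mass hnpos hkpos hs (X / D) (2 * X)
  have hbad := hX1 X hXX1
  have hlow := H_low (n := n) X (2 * X) (X / D) (by omega)
  have hgain := H_gain (n := n) X (2 * X) (by omega)
  have hsplit := F_split (n := n) X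
  have t1 := hm0 X (by omega)
  have hZm : m0 ≤ X / D := by
    rw [Nat.le_div_iff_mul_le (by omega)]
    rw [mul_comm]
    omega
  have t2 := hm0 (X / D) hZm
  change |th X - _| ≤ _ at t1
  change |th (X / D) - _| ≤ _ at t2
  rw [abs_le] at t1 t2
  have hZR : ((X / D : ℕ) : ℝ) ≤ η / 2 * X := by
    have hDR : (0 : ℝ) < (D : ℝ) := by exact_mod_cast hD1
    have h1 : ((X / D : ℕ) : ℝ) ≤ (X : ℝ) / D := Nat.cast_div_le
    have h2 : (X : ℝ) / D ≤ η / 2 * X := by
      rw [div_le_iff₀ hDR]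
      rw [div_le_iff₀ hη0] at hD
      nlinarith
    exact h1.trans h2
  have hthZ : th (X / D) ≤ η * X := by
    have h0 : (0 : ℝ) ≤ ((X / D : ℕ) : ℝ) := Nat.cast_nonneg _
    nlinarith
  have hkle := k_le hnpos hs
  have hk1 : (0 : ℝ) < (k : ℝ) := by exact_mod_cast hkpos
  have hlogk : Real.log k ≤ η * X :=
    (Real.log_le_log hk1 (by linarith)).trans hlB
  -- the cost and the gain
  have hcost : ∑ p ∈ (range (X + 1)).filter (fun p => p.Prime ∧ p ∉ n.primeFactors), Real.log p ≤
      (X : ℝ) * Real.log X *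
        ∑ p ∈ (range (X + 1)).filter (fun p => p.Prime ∧ p ∉ n.primeFactors), (1 : ℝ) / p := by
    have h1 := cost X hX3 ((range (X + 1)).filter (fun p => p.Prime ∧ p ∉ n.primeFactors))
      (fun p hp => by
        simp only [Finset.mem_filter, Finset.mem_range] at hp
        exact ⟨hp.2.1, by omega⟩)
    have h2 : ∑ p ∈ ((range (X + 1)).filter (fun p => p.Prime ∧ p ∉ n.primeFactors)).filter
          (fun p => 7 * X < 10 * p), Real.log p ≤
        ∑ p ∈ (range (X + 1)).filter (fun p => p.Prime ∧ p ∉ n.primeFactors), Real.log p :=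
      Finset.sum_le_sum_of_subset_of_nonneg (Finset.filter_subset _ _) fun p _ _ => F_log_nonneg p
    linarith
  have hg1 := extra X hX3 (n.primeFactors.filter (fun p => X < p ∧ p ≤ 2 * X)) (fun p hp =>
    (Finset.mem_filter.1 hp).2.1)
  have hg2 := extra (2 * X) (by omega) (n.primeFactors.filter (fun p => 2 * X < p)) (fun p hp =>
    (Finset.mem_filter.1 hp).2)
  have hcmp := prod_cmp n X (by omega)
  set P : ℝ := ∏ p ∈ (range (X + 1)).filter Nat.Prime, ((p : ℝ) / (p - 1)) with hP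
  have hP0 : 0 ≤ P := by
    refine Finset.prod_nonneg fun p hp => ?_
    have h2 : 2 ≤ p := (Finset.mem_filter.1 hp).2.two_le
    have h3 : (2 : ℝ) ≤ (p : ℝ) := by exact_mod_cast h2
    exact div_nonneg (by linarith) (by linarith)
  set C : ℝ := ∑ p ∈ (range (X + 1)).filter (fun p => p.Prime ∧ p ∉ n.primeFactors), (1 : ℝ) / p
    with hC
  set G : ℝ := ∑ p ∈ n.primeFactors.filter (fun p => X < p), (1 : ℝ) / p with hG
  set G1 : ℝ := ∑ p ∈ n.primeFactors.filter (fun p => X < p ∧ p ≤ 2 * X), (1 : ℝ) / p with hG1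
  set G2 : ℝ := ∑ p ∈ n.primeFactors.filter (fun p => 2 * X < p), (1 : ℝ) / p with hG2
  have hG20 : 0 ≤ G2 := Finset.sum_nonneg fun p _ => by positivity
  have hg3 : (X : ℝ) * Real.log X * G2 ≤
      (∑ p ∈ n.primeFactors.filter (fun p => 2 * X < p), Real.log p) / 2 := by
    have h1 : Real.log (X : ℝ) ≤ Real.log ((2 * X : ℕ) : ℝ) := by
      apply Real.log_le_log hXR
      push_cast
      linarith
    have h2 : (X : ℝ) * Real.log X * G2 ≤ (X : ℝ) * Real.log ((2 * X : ℕ) : ℝ) * G2 :=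
      mul_le_mul_of_nonneg_right (mul_le_mul_of_nonneg_left h1 hXR.le) hG20
    have h3 : (((2 * X : ℕ) : ℝ)) * Real.log ((2 * X : ℕ) : ℝ) * G2 =
        2 * ((X : ℝ) * Real.log ((2 * X : ℕ) : ℝ) * G2) := by
      push_cast
      ring
    linarith
  have hd : (X : ℝ) * Real.log X * (G - C) ≤ -(4 * η * X) := by
    rw [hgain, mul_sub, mul_add]
    linarith
  have hGC : -C + G + 1 / X ≤ 0 := by
    have h1 : (X : ℝ) * Real.log X * (1 / X) = Real.log X := by
      field_simp
    have h2 : (X : ℝ) * Real.log X * (-C + G + 1 / X) ≤ 0 := by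
      have h3 : (X : ℝ) * Real.log X * (-C + G + 1 / X) =
          (X : ℝ) * Real.log X * (G - C) + (X : ℝ) * Real.log X * (1 / X) := by ring
      rw [h3, h1]
      linarith
    by_contra h3
    push Not at h3
    have h4 : 0 < (X : ℝ) * Real.log X * (-C + G + 1 / X) := by positivity
    linarith
  have h2 := Pool.Agent.helper20.MPN.le_prod hnpos
  have h3 : (ArithmeticFunction.sigma 1 n : ℝ) / n = k := by
    have hn0 : (n : ℝ) ≠ 0 := by exact_mod_cast hnpos.ne'
    rw [hs]
    push_cast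
    field_simp
  rw [h3] at h2
  calc (k : ℝ) ≤ P * Real.exp (-C + G + 1 / X) := h2.trans hcmp
    _ ≤ P * 1 := mul_le_mul_of_nonneg_left (Real.exp_le_one_iff.2 hGC) hP0
    _ = P := mul_one _

end Pool.Agent.helper6.MG
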