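import Pool.Agent.helper20.MPN.G

set_option autoImplicit false

open Finset

namespace Pool.Agent.helper6.MG

open Pool.Agent.helper20.MPN

/-- the removed classes -/
def k66R (l w p : ℕ) : Finset ℕ := if p % l = 1 ∧ p ≤ w then insert 0 (roots l p) else {0}

theorem k66_card {l w p : ℕ} (hl : l.Prime) (hp : p.Prime) :
    (k66R l w p).card = if p % l = 1 ∧ p ≤ w then l else 1 := by
  unfold k66R
  split_ifs with h
  · rw [Finset.card_insert_of_notMem (G_zero_notMem hl.pos hp), C_card_roots hl hp h.1]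
    have := hl.pos
    omega
  · rfl

theorem k66_pos {l w p : ℕ} (hl : l.Prime) (hp : p.Prime) : 1 ≤ (k66R l w p).card := by
  rw [k66_card hl hp]
  have := hl.pos
  split_ifs <;> omega

theorem k66_le {l w p : ℕ} (hl : l.Prime) (hp : p.Prime) : (k66R l w p).card ≤ l := by
  rw [k66_card hl hp]
  have := hl.pos
  split_ifs <;> omega

theorem k66_lt {l w p : ℕ} (hl : l.Prime) (hp : p.Prime) : (k66R l w p).card + 1 ≤ p := by
  rw [k66_card hl hp]
  split_ifs with h
  · have h1 := Nat.div_add_mod p l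
    rw [h.1] at h1
    have h2 : 0 < p / l := by
      rcases Nat.eq_zero_or_pos (p / l) with h3 | h3
      · rw [h3] at h1
        have := hp.one_lt
        omega
      · exact h3
    have h3 : l * 1 ≤ l * (p / l) := Nat.mul_le_mul_left _ h2
    omega
  · exact hp.two_le

theorem k66_sub {l w p : ℕ} (hp : p.Prime) : k66R l w p ⊆ range p := by
  unfold k66R
  split_ifs
  · intro x hx
    rcases Finset.mem_insert.1 hx with rfl | hx
    · exact Finset.mem_range.2 hp.pos
    · unfold roots at hx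
      exact (Finset.mem_filter.1 hx).1
  · intro x hx
    rw [Finset.mem_singleton.1 hx]
    exact Finset.mem_range.2 hp.pos

/-- the weight -/
noncomputable def k66h (l w p : ℕ) : ℝ := ((k66R l w p).card : ℝ) / ((p : ℝ) - (k66R l w p).card)

theorem k66_sub_pos {l w p : ℕ} (hl : l.Prime) (hp : p.Prime) :
    (1 : ℝ) ≤ (p : ℝ) - (k66R l w p).card := by
  have := k66_lt (w := w) hl hp
  have h : ((k66R l w p).card : ℝ) + 1 ≤ p := by exact_mod_cast this
  linarith

theorem k66_h_nonneg {l w p : ℕ} (hl : l.Prime) (hp : p.Prime) : 0 ≤ k66h l w p :=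
  div_nonneg (Nat.cast_nonneg _) (by linarith [k66_sub_pos (w := w) hl hp])

theorem k66_h_le {l w p : ℕ} (hl : l.Prime) (hp : p.Prime) :
    k66h l w p ≤ (l : ℝ) * (l + 1) / p := by
  have h1 : (((k66R l w p).card : ℕ) : ℝ) ≤ l := by exact_mod_cast k66_le hl hp
  have h2 := k66_sub_pos (w := w) hl hp
  have h3 : (0 : ℝ) ≤ ((k66R l w p).card : ℝ) := Nat.cast_nonneg _
  have hp0 : (0 : ℝ) < p := by exact_mod_cast hp.pos
  unfold k66h
  set r : ℝ := ((k66R l w p).card : ℝ)
  rw [div_le_div_iff₀ (by linarith) hp0]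
  have h4 : r * p ≤ r * (r + 1) * (p - r) := by
    have h6 : (p : ℝ) ≤ (r + 1) * (p - r) := by nlinarith [mul_nonneg h3 (sub_nonneg.2 h2)]
    calc r * p ≤ r * ((r + 1) * (p - r)) := mul_le_mul_of_nonneg_left h6 h3
      _ = r * (r + 1) * (p - r) := by ring
  have h5 : r * (r + 1) * (p - r) ≤ l * (l + 1) * (p - r) := by
    apply mul_le_mul_of_nonneg_right _ (by linarith)
    nlinarith
  linarith

theorem k66_one_add {l w p : ℕ} (hl : l.Prime) (hp : p.Prime) :
    Real.exp (((k66R l w p).card : ℝ) / p) ≤ 1 + k66h l w p := by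
  have h2 := k66_sub_pos (w := w) hl hp
  have hp0 : (0 : ℝ) < p := by exact_mod_cast hp.pos
  unfold k66h
  set r : ℝ := ((k66R l w p).card : ℝ)
  have h3 : 1 - r / p ≤ Real.exp (-(r / p)) := Real.one_sub_le_exp_neg _
  have h4 : 0 < 1 - r / p := by
    rw [sub_pos, div_lt_one hp0]
    linarith
  have h5 : 1 + r / (p - r) = (1 - r / p)⁻¹ := by
    have : (p : ℝ) - r ≠ 0 := by linarith
    field_simp
    ring
  rw [h5, ← neg_neg (r / p), Real.exp_neg]
  rw [neg_neg] at *
  exact inv_anti₀ h4 h3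

theorem k66_sum_log {l w : ℕ} (hl : l.Prime) {z : ℕ} (hz : 2 ≤ z) :
    ∑ p ∈ PP z, k66h l w p * Real.log p ≤ (3 * (l * (l + 1)) : ℝ) * Real.log z := by
  have h1 : ∑ p ∈ PP z, k66h l w p * Real.log p ≤
      ∑ p ∈ PP z, ((l : ℝ) * (l + 1)) * (Real.log p / p) := by
    apply Finset.sum_le_sum
    intro p hp
    rw [G_mem_PP] at hp
    have h2 := k66_h_le (w := w) hl hp.2.1
    have h3 : 0 ≤ Real.log p := Real.log_natCast_nonneg p
    calc k66h l w p * Real.log p ≤ ((l : ℝ) * (l + 1) / p) * Real.log p :=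
          mul_le_mul_of_nonneg_right h2 h3
      _ = ((l : ℝ) * (l + 1)) * (Real.log p / p) := by ring
  have h2 : ∑ p ∈ PP z, (Real.log p / p) ≤ Real.log z + Real.log 4 := by
    refine le_trans ?_ (Pool.Agent.helper91.Mertens.upper (N := z) (by omega))
    unfold Pool.Agent.helper91.Mertens.M
    apply Finset.sum_le_sum_of_subset_of_nonneg
    · intro p hp
      rw [G_mem_PP] at hp
      exact Nat.mem_primesLE.2 ⟨hp.1, hp.2.1⟩
    · intro p _ _
      exact div_nonneg (Real.log_natCast_nonneg p) (Nat.cast_nonneg p)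
  have h3 : Real.log 4 ≤ 2 * Real.log z := by
    have : Real.log 4 = 2 * Real.log 2 := by
      rw [show (4 : ℝ) = 2 ^ 2 by norm_num, Real.log_pow]
      norm_num
    rw [this]
    have : Real.log 2 ≤ Real.log z := Real.log_le_log (by norm_num) (by exact_mod_cast hz)
    linarith
  rw [← Finset.mul_sum] at h1
  have h4 : (0 : ℝ) ≤ (l : ℝ) * (l + 1) := by positivity
  calc ∑ p ∈ PP z, k66h l w p * Real.log p
      ≤ ((l : ℝ) * (l + 1)) * ∑ p ∈ PP z, (Real.log p / p) := h1
    _ ≤ ((l : ℝ) * (l + 1)) * (3 * Real.log z) := by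
        apply mul_le_mul_of_nonneg_left _ h4
        linarith
    _ = (3 * (l * (l + 1)) : ℝ) * Real.log z := by ring

theorem k66_sum_lower {l : ℕ} (hl : l.Prime) : ∃ δ C : ℝ, 0 < δ ∧ ∀ w z : ℕ, 3 ≤ w → w ≤ z →
    Real.log (Real.log z) + δ * Real.log (Real.log w) - C ≤
      ∑ p ∈ PP z, (((k66R l w p).card : ℝ) / p) := by
  obtain ⟨δ, C1, hδ, h1⟩ := mertens_ap l hl.two_le
  obtain ⟨C2, h2⟩ := sum_inv_lower
  have hl1 : (1 : ℝ) ≤ (l : ℝ) - 1 := by
    have : (2 : ℝ) ≤ l := by exact_mod_cast hl.two_le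
    linarith
  refine ⟨((l : ℝ) - 1) * δ, C2 + 1 / 2 + ((l : ℝ) - 1) * C1, by positivity, fun w z hw hz => ?_⟩
  have h3 := h1 w hw
  have h4 := h2 z (by omega)
  have h5 : ∑ p ∈ (range (z + 1)).filter Nat.Prime, (1 : ℝ) / p ≤
      ∑ p ∈ PP z, (1 : ℝ) / p + 1 / 2 := by
    have h6 : (range (z + 1)).filter Nat.Prime ⊆ insert 2 (PP z) := by
      intro p hp
      rw [Finset.mem_filter, Finset.mem_range] at hp
      rw [Finset.mem_insert, G_mem_PP]
      have := hp.2.two_le
      rcases this.eq_or_lt with h | h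
      · exact Or.inl h.symm
      · exact Or.inr ⟨by omega, hp.2, h⟩
    calc ∑ p ∈ (range (z + 1)).filter Nat.Prime, (1 : ℝ) / p
        ≤ ∑ p ∈ insert 2 (PP z), (1 : ℝ) / p :=
          Finset.sum_le_sum_of_subset_of_nonneg h6 fun p _ _ => by positivity
      _ = ∑ p ∈ PP z, (1 : ℝ) / p + 1 / 2 := by
          rw [Finset.sum_insert]
          · push_cast
            ring
          · rw [G_mem_PP]
            omega
  have h7 : ∑ p ∈ PP z, (((k66R l w p).card : ℝ) / p) =
      ∑ p ∈ PP z, (1 : ℝ) / p +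
        ((l : ℝ) - 1) * ∑ p ∈ (PP z).filter (fun p => p % l = 1 ∧ p ≤ w), (1 : ℝ) / p := by
    rw [Finset.sum_filter, Finset.mul_sum, ← Finset.sum_add_distrib]
    apply Finset.sum_congr rfl
    intro p hp
    rw [G_mem_PP] at hp
    rw [k66_card hl hp.2.1]
    split_ifs
    · ring
    · push_cast
      ring
  have h8 : ∑ p ∈ (range (w + 1)).filter (fun p => p.Prime ∧ p % l = 1), (1 : ℝ) / p ≤
      ∑ p ∈ (PP z).filter (fun p => p % l = 1 ∧ p ≤ w), (1 : ℝ) / p := by
    apply Finset.sum_le_sum_of_subset_of_nonneg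
    · intro p hp
      rw [Finset.mem_filter, Finset.mem_range] at hp
      rw [Finset.mem_filter, G_mem_PP]
      refine ⟨⟨by omega, hp.2.1, ?_⟩, hp.2.2, by omega⟩
      rcases hp.2.1.two_le.eq_or_lt with h | h
      · exfalso
        have h9 := hp.2.2
        rw [← h] at h9
        rcases hl.two_le.eq_or_lt with h10 | h10
        · rw [← h10] at h9
          omega
        · rw [Nat.mod_eq_of_lt h10] at h9
          omega
      · exact h
    · intro p _ _
      positivity
  rw [h7]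
  have h9 : ((l : ℝ) - 1) * (δ * Real.log (Real.log w) - C1) ≤
      ((l : ℝ) - 1) * ∑ p ∈ (PP z).filter (fun p => p % l = 1 ∧ p ≤ w), (1 : ℝ) / p :=
    mul_le_mul_of_nonneg_left (h3.trans h8) (by linarith)
  nlinarith

theorem k66_one_le_log {w : ℕ} (hw : 3 ≤ w) : 1 ≤ Real.log w := by
  have h3 : Real.exp 1 ≤ w := by
    have : (3 : ℝ) ≤ w := by exact_mod_cast hw
    linarith [Real.exp_one_lt_three]
  have := Real.log_le_log (Real.exp_pos 1) h3
  rwa [Real.log_exp] at this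

/-- lower bound for the sieve sum -/
theorem k66_lower {l : ℕ} (hl : l.Prime) : ∃ (δ c : ℝ) (s : ℕ), 0 < δ ∧ 0 < c ∧ 0 < s ∧
    ∀ w z : ℕ, 3 ≤ w → w ≤ z →
      c * ((Real.log w) ^ δ * Real.log z) ≤ gG (PP z) (k66R l w) (z ^ s) := by
  obtain ⟨δ, C, hδ, h1⟩ := k66_sum_lower hl
  refine ⟨δ, 1 / 2 * Real.exp (-C), 6 * (l * (l + 1)) + 1, hδ, by positivity, by omega,
    fun w z hw hz => ?_⟩
  have hlw := k66_one_le_log hw
  have hlz := k66_one_le_log (show 3 ≤ z by omega)
  have h2 := rankin (PP z) (fun p hp => (G_mem_PP.1 hp).2.1) (k66h l w)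
    (fun p hp => k66_h_nonneg hl (G_mem_PP.1 hp).2.1) z (by omega)
    (fun p hp => (G_mem_PP.1 hp).1) (3 * (l * (l + 1))) (k66_sum_log hl (by omega))
    (6 * (l * (l + 1)) + 1) (by push_cast; linarith)
  have h3 : Real.exp (∑ p ∈ PP z, (((k66R l w p).card : ℝ) / p)) ≤
      ∏ p ∈ PP z, (1 + k66h l w p) := by
    rw [Real.exp_sum]
    exact Finset.prod_le_prod (fun p _ => (Real.exp_pos _).le)
      fun p hp => k66_one_add hl (G_mem_PP.1 hp).2.1
  have h4 : Real.exp (-C) * ((Real.log w) ^ δ * Real.log z) ≤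
      Real.exp (∑ p ∈ PP z, (((k66R l w p).card : ℝ) / p)) := by
    have h6 : (Real.log w) ^ δ = Real.exp (δ * Real.log (Real.log w)) := by
      rw [Real.rpow_def_of_pos (by linarith), mul_comm]
    have h7 : Real.log z = Real.exp (Real.log (Real.log z)) := (Real.exp_log (by linarith)).symm
    calc Real.exp (-C) * ((Real.log w) ^ δ * Real.log z)
        = Real.exp (-C) * (Real.exp (δ * Real.log (Real.log w)) *
            Real.exp (Real.log (Real.log z))) := by rw [← h6, ← h7]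
      _ = Real.exp (Real.log (Real.log z) + δ * Real.log (Real.log w) - C) := by
          rw [← Real.exp_add, ← Real.exp_add]
          congr 1
          ring
      _ ≤ _ := Real.exp_le_exp.2 (h1 w z hw hz)
  have h5 : gG (PP z) (k66R l w) (z ^ (6 * (l * (l + 1)) + 1)) =
      ∑ S ∈ (PP z).powerset.filter (fun S => ∏ p ∈ S, p ≤ z ^ (6 * (l * (l + 1)) + 1)),
        ∏ p ∈ S, k66h l w p := rfl
  rw [h5]
  calc 1 / 2 * Real.exp (-C) * ((Real.log w) ^ δ * Real.log z)
      = 1 / 2 * (Real.exp (-C) * ((Real.log w) ^ δ * Real.log z)) := by ring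
    _ ≤ 1 / 2 * ∏ p ∈ PP z, (1 + k66h l w p) :=
        mul_le_mul_of_nonneg_left (h4.trans h3) (by norm_num)
    _ ≤ _ := h2

/-- the sieve bound -/
theorem k66_count {l : ℕ} (hl : l.Prime) : ∃ (δ c : ℝ) (s : ℕ), 0 < δ ∧ 0 < c ∧ 0 < s ∧
    ∀ x w z : ℕ, 3 ≤ w → w ≤ z →
    (((range (x + 1)).filter (fun q => q.Prime ∧
      ∀ Q ∈ range (w + 1), Q.Prime → ¬ Q ∣ cyc l q)).card : ℝ) ≤
      ((x : ℝ) + 1) / (c * ((Real.log w) ^ δ * Real.log z)) + (z : ℝ) ^ (s * 4) + (z + 1) := by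
  obtain ⟨δ, c, s, hδ, hc, hs, hG⟩ := k66_lower hl
  refine ⟨δ, c, s, hδ, hc, hs, fun x w z hw hz => ?_⟩
  have hlw := k66_one_le_log hw
  have hlz := k66_one_le_log (show 3 ≤ z by omega)
  set B := (range (x + 1)).filter (fun q => q.Prime ∧
      ∀ Q ∈ range (w + 1), Q.Prime → ¬ Q ∣ cyc l q) with hB
  set A := B.filter (fun q => z < q) with hA
  have hBA : B ⊆ A ∪ range (z + 1) := by
    intro q hq
    rw [Finset.mem_union]
    by_cases h : z < q
    · exact Or.inl (Finset.mem_filter.2 ⟨hq, h⟩)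
    · exact Or.inr (Finset.mem_range.2 (by omega))
  have hcard : (B.card : ℝ) ≤ A.card + (z + 1) := by
    have h1 := (Finset.card_le_card hBA).trans (Finset.card_union_le _ _)
    rw [Finset.card_range] at h1
    exact_mod_cast h1
  have hsieve := gsieve (PP z) (fun p hp => (G_mem_PP.1 hp).2.1) (k66R l w)
    (fun p hp => k66_sub (G_mem_PP.1 hp).2.1)
    (fun p hp => Finset.card_pos.1 (k66_pos hl (G_mem_PP.1 hp).2.1))
    (fun p hp => k66_lt hl (G_mem_PP.1 hp).2.1) (z ^ s) (x + 1) A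
    (by
      intro q hq
      exact (Finset.mem_filter.1 (Finset.mem_filter.1 hq).1).1)
    (by
      intro q hq p hp
      obtain ⟨hq1, hq2⟩ := Finset.mem_filter.1 hq
      obtain ⟨-, hqp, hQ⟩ := Finset.mem_filter.1 hq1
      rw [G_mem_PP] at hp
      have h0 : q % p ≠ 0 := by
        intro h
        have h1 : p ∣ q := Nat.dvd_of_mod_eq_zero h
        have h2 : p = q := (Nat.prime_dvd_prime_iff_eq hp.2.1 hqp).1 h1
        have h4 := hp.1
        omega
      unfold k66R
      split_ifs with hc1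
      · rw [Finset.mem_insert]
        rintro (h | h)
        · exact h0 h
        · unfold roots at h
          rw [Finset.mem_filter, C_dvd_mod] at h
          exact hQ p (Finset.mem_range.2 (by omega)) hp.2.1 h.2
      · rw [Finset.mem_singleton]
        exact h0)
  have hGl := hG w z hw hz
  set g : ℝ := gG (PP z) (k66R l w) (z ^ s) with hg
  have hwd : 0 < (Real.log w) ^ δ := Real.rpow_pos_of_pos (by linarith) _
  have hcl : 0 < c * ((Real.log w) ^ δ * Real.log z) := by positivity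
  have hg0 : 0 < g := lt_of_lt_of_le hcl hGl
  have hA1 : (A.card : ℝ) ≤ ((x : ℝ) + 1) / g + (z : ℝ) ^ (s * 4) := by
    have h1 : (A.card : ℝ) * g ≤ ((x : ℝ) + 1) + (z : ℝ) ^ (s * 4) * g := by
      refine hsieve.trans ?_
      push_cast
      rw [← pow_mul]
    rw [← sub_le_iff_le_add, le_div_iff₀ hg0]
    linarith
  have hA2 : ((x : ℝ) + 1) / g ≤ ((x : ℝ) + 1) / (c * ((Real.log w) ^ δ * Real.log z)) :=
    div_le_div_of_nonneg_left (by positivity) hcl hGl
  linarith

/-- for a prime `l` and almost all primes `q`, `1 + q + ... + q ^ (l - 1)` has a bounded prime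
factor. -/
theorem rough_card {l : ℕ} (hl : l.Prime) (ρ : ℝ) (hρ : 0 < ρ) : ∃ w x0 : ℕ, ∀ x : ℕ, x0 ≤ x →
    (((range (x + 1)).filter (fun q => q.Prime ∧
      ∀ Q ∈ range (w + 1), Q.Prime → ¬ Q ∣ Pool.Agent.helper20.MPN.cyc l q)).card : ℝ) * Real.log x ≤
      ρ * x := by
  obtain ⟨δ, c, s, hδ, hc, hs, hcount⟩ := k66_count hl
  have hcast : Filter.Tendsto (fun x : ℕ => (x : ℝ)) Filter.atTop Filter.atTop :=
    tendsto_natCast_atTop_atTop
  set T : ℕ := 8 * s with hT
  have hTpos : 0 < T := by omega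
  have hT0 : (0 : ℝ) < T := by exact_mod_cast hTpos
  have hs0 : (1 : ℝ) ≤ s := by exact_mod_cast hs
  have hT8 : (T : ℝ) = 8 * s := by
    rw [hT]
    push_cast
    ring
  have g1 : ∀ᶠ w : ℕ in Filter.atTop, 8 * T / (c * ρ) ≤ (Real.log w) ^ δ :=
    ((tendsto_rpow_atTop hδ).comp (Real.tendsto_log_atTop.comp hcast)).eventually_ge_atTop _
  obtain ⟨w, hw1, hw3⟩ := (g1.and (Filter.eventually_ge_atTop 3)).exists
  have e2 : ∀ᶠ x : ℕ in Filter.atTop, ‖Real.log x‖ ≤ (ρ / 8) * ‖(x : ℝ) ^ (1 / 2 : ℝ)‖ :=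
    hcast.eventually ((isLittleO_log_rpow_atTop (by norm_num : (0 : ℝ) < 1 / 2)).def
      (by positivity : (0 : ℝ) < ρ / 8))
  have e3 : ∀ᶠ x : ℕ in Filter.atTop, (w : ℝ) + 1 ≤ (x : ℝ) ^ (1 / (T : ℝ)) :=
    ((tendsto_rpow_atTop (by positivity : (0 : ℝ) < 1 / (T : ℝ))).comp hcast).eventually_ge_atTop _
  have e4 : ∀ᶠ x : ℕ in Filter.atTop, 2 * T * Real.log 2 ≤ Real.log x :=
    (Real.tendsto_log_atTop.comp hcast).eventually_ge_atTop _
  have e5 : ∀ᶠ x : ℕ in Filter.atTop, 16 ≤ x := Filter.eventually_ge_atTop 16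
  obtain ⟨x0, hx0⟩ := Filter.eventually_atTop.1 (e2.and (e3.and (e4.and e5)))
  refine ⟨w, x0, fun x hx => ?_⟩
  obtain ⟨f2, f3, f4, f5⟩ := hx0 x hx
  have hx1 : (16 : ℝ) ≤ x := by exact_mod_cast f5
  have hxpos : (0 : ℝ) < x := by linarith
  have hL : 0 < Real.log x := Real.log_pos (by linarith)
  have hw3' : (3 : ℝ) ≤ w := by exact_mod_cast hw3
  set y : ℝ := (x : ℝ) ^ (1 / (T : ℝ)) with hy
  set z : ℕ := ⌊y⌋₊ with hz
  have hy0 : 0 ≤ y := by linarith
  have hzy : (z : ℝ) ≤ y := Nat.floor_le hy0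
  have hyz : y < z + 1 := Nat.lt_floor_add_one y
  have hwz : w ≤ z := by
    have : (w : ℝ) < z := by linarith
    exact_mod_cast this.le
  have hz3 : (3 : ℝ) ≤ z := by
    have : (w : ℝ) ≤ z := by exact_mod_cast hwz
    linarith
  have hlogz : Real.log x / (2 * T) ≤ Real.log z := by
    have h1 : y / 2 ≤ z := by linarith
    have h2 : Real.log (y / 2) ≤ Real.log z := Real.log_le_log (by linarith) h1
    rw [Real.log_div (by linarith) (by norm_num), hy, Real.log_rpow hxpos] at h2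
    have h3 : Real.log 2 ≤ Real.log x / (2 * T) := by
      rw [le_div_iff₀ (by positivity)]
      linarith
    have h4 : 1 / (T : ℝ) * Real.log x = Real.log x / (2 * T) + Real.log x / (2 * T) := by
      field_simp
      ring
    linarith
  have hs' : (x : ℝ) ^ (1 / 2 : ℝ) * (x : ℝ) ^ (1 / 2 : ℝ) = x := by
    rw [← Real.rpow_add hxpos]
    norm_num
  set r : ℝ := (x : ℝ) ^ (1 / 2 : ℝ) with hr
  have hr0 : 0 < r := Real.rpow_pos_of_pos hxpos _
  have hr4 : 4 ≤ r := by nlinarith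
  have hzs : (z : ℝ) ^ (s * 4) ≤ r := by
    calc (z : ℝ) ^ (s * 4) ≤ y ^ (s * 4) := pow_le_pow_left₀ (by linarith) hzy _
      _ = r := by
          rw [hy, ← Real.rpow_natCast, ← Real.rpow_mul hxpos.le, hr]
          congr 1
          rw [hT8]
          push_cast
          field_simp
          norm_num
  have hzr : (z : ℝ) ≤ r := by
    calc (z : ℝ) = (z : ℝ) ^ 1 := (pow_one _).symm
      _ ≤ (z : ℝ) ^ (s * 4) := pow_le_pow_right₀ (by linarith) (by omega)
      _ ≤ r := hzs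
  have hmain := hcount x w z hw3 hwz
  have hlw := k66_one_le_log hw3
  have hfirst : ((x : ℝ) + 1) / (c * ((Real.log w) ^ δ * Real.log z)) * Real.log x ≤
      ρ / 2 * x := by
    have h1 : c * ((8 * T / (c * ρ)) * (Real.log x / (2 * T))) ≤
        c * ((Real.log w) ^ δ * Real.log z) := by
      apply mul_le_mul_of_nonneg_left _ hc.le
      exact mul_le_mul hw1 hlogz (by positivity) (Real.rpow_nonneg (by linarith) _)
    have h2 : c * ((8 * T / (c * ρ)) * (Real.log x / (2 * T))) = 4 * Real.log x / ρ := by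
      field_simp
      ring
    rw [h2] at h1
    have h3 : 0 < 4 * Real.log x / ρ := by positivity
    have h4 : ((x : ℝ) + 1) / (c * ((Real.log w) ^ δ * Real.log z)) ≤
        ((x : ℝ) + 1) / (4 * Real.log x / ρ) := div_le_div_of_nonneg_left (by positivity) h3 h1
    calc ((x : ℝ) + 1) / (c * ((Real.log w) ^ δ * Real.log z)) * Real.log x
        ≤ ((x : ℝ) + 1) / (4 * Real.log x / ρ) * Real.log x :=
          mul_le_mul_of_nonneg_right h4 hL.le
      _ = ρ / 4 * (x + 1) := by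
          field_simp
      _ ≤ ρ / 2 * x := by nlinarith
  have hsecond : ((z : ℝ) ^ (s * 4) + (z + 1)) * Real.log x ≤ ρ / 2 * x := by
    rw [Real.norm_of_nonneg hL.le, Real.norm_of_nonneg hr0.le] at f2
    calc ((z : ℝ) ^ (s * 4) + (z + 1)) * Real.log x ≤ (4 * r) * Real.log x :=
          mul_le_mul_of_nonneg_right (by linarith) hL.le
      _ ≤ (4 * r) * (ρ / 8 * r) := mul_le_mul_of_nonneg_left f2 (by positivity)
      _ = ρ / 2 * (r * r) := by ring
      _ = ρ / 2 * x := by rw [hs']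
  calc (((range (x + 1)).filter (fun q => q.Prime ∧
        ∀ Q ∈ range (w + 1), Q.Prime → ¬ Q ∣ cyc l q)).card : ℝ) * Real.log x
      ≤ (((x : ℝ) + 1) / (c * ((Real.log w) ^ δ * Real.log z)) + (z : ℝ) ^ (s * 4) + (z + 1))
          * Real.log x := mul_le_mul_of_nonneg_right hmain hL.le
    _ = ((x : ℝ) + 1) / (c * ((Real.log w) ^ δ * Real.log z)) * Real.log x
        + ((z : ℝ) ^ (s * 4) + (z + 1)) * Real.log x := by ring
    _ ≤ ρ / 2 * x + ρ / 2 * x := add_le_add hfirst hsecond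
    _ = ρ * x := by ring

end Pool.Agent.helper6.MG
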