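import Pool.Agent.helper20.MPN.D

set_option autoImplicit false

/-!
# MG-L0: the primes with a bounded prime factor of `cyc l p`, in terms of the exponents of small primes
-/

open Finset Pool.Agent.helper20.MPN

namespace Pool.Agent.helper6.MG

theorem L0_card_one {n l k : ℕ} (hn : 0 < n) (hk : 0 < k)
    (h : ArithmeticFunction.sigma 1 n = k * n) {Q : ℕ} (hQ : Q.Prime) :
    ((Pl n l).filter fun p => Q ∣ cyc l p).card ≤ k.factorization Q + n.factorization Q := by
  have hdvd : Q ^ ((Pl n l).filter fun p => Q ∣ cyc l p).card ∣ k * n := by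
    rw [← h]
    refine dvd_trans ?_ (prod_cyc_dvd (l := l) hn)
    refine dvd_trans (b := ∏ p ∈ (Pl n l).filter (fun p => Q ∣ cyc l p), cyc l p) ?_
      (Finset.prod_dvd_prod_of_subset _ _ _ (Finset.filter_subset _ _))
    rw [← Finset.prod_const]
    exact Finset.prod_dvd_prod_of_dvd _ _ fun p hp => (Finset.mem_filter.mp hp).2
  have h1 : ((Pl n l).filter fun p => Q ∣ cyc l p).card ≤ (k * n).factorization Q :=
    (hQ.pow_dvd_iff_le_factorization (Nat.mul_ne_zero hk.ne' hn.ne')).mp hdvd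
  rw [Nat.factorization_mul hk.ne' hn.ne'] at h1
  exact h1

open scoped Classical in
/-- as `card_bad`, but only the exponents of the primes `≤ w` matter -/
theorem L0_card_bad {n l k : ℕ} (hn : 0 < n) (hk : 0 < k)
    (h : ArithmeticFunction.sigma 1 n = k * n) (w E : ℕ)
    (hE : ∀ Q ∈ range (w + 1), Q.Prime → n.factorization Q ≤ E) :
    ((Pl n l).filter fun p => ∃ Q : ℕ, Q.Prime ∧ Q ≤ w ∧ Q ∣ cyc l p).card ≤
      Nat.log 2 k + w * E := by
  set P : Finset ℕ := (Finset.Icc 1 w).filter Nat.Prime with hP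
  have hsub : ((Pl n l).filter fun p => ∃ Q : ℕ, Q.Prime ∧ Q ≤ w ∧ Q ∣ cyc l p) ⊆
      P.biUnion fun Q => (Pl n l).filter fun p => Q ∣ cyc l p := by
    intro p hp
    obtain ⟨hp1, Q, hQ, hQw, hQd⟩ := Finset.mem_filter.mp hp
    refine Finset.mem_biUnion.mpr ⟨Q, ?_, Finset.mem_filter.mpr ⟨hp1, hQd⟩⟩
    exact Finset.mem_filter.mpr ⟨Finset.mem_Icc.mpr ⟨hQ.one_lt.le, hQw⟩, hQ⟩
  calc ((Pl n l).filter fun p => ∃ Q : ℕ, Q.Prime ∧ Q ≤ w ∧ Q ∣ cyc l p).card
      ≤ (P.biUnion fun Q => (Pl n l).filter fun p => Q ∣ cyc l p).card :=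
        Finset.card_le_card hsub
    _ ≤ ∑ Q ∈ P, ((Pl n l).filter fun p => Q ∣ cyc l p).card := Finset.card_biUnion_le
    _ ≤ ∑ Q ∈ P, (k.factorization Q + E) := by
        refine Finset.sum_le_sum fun Q hQ => (L0_card_one hn hk h (Finset.mem_filter.mp hQ).2).trans ?_
        have h2 := Finset.mem_filter.mp hQ
        have h3 := Finset.mem_Icc.mp h2.1
        exact Nat.add_le_add_left (hE Q (Finset.mem_range.2 (by omega)) h2.2) _
    _ = ∑ Q ∈ P, k.factorization Q + P.card * E := by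
        rw [Finset.sum_add_distrib, Finset.sum_const, smul_eq_mul]
    _ ≤ Nat.log 2 k + w * E := by
        refine add_le_add (D_sum_fact_le hk P) (Nat.mul_le_mul_right _ ?_)
        calc P.card ≤ (Finset.Icc 1 w).card := Finset.card_le_card (Finset.filter_subset _ _)
          _ = w := by simp

end Pool.Agent.helper6.MG
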