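import Pool.Agent.helper6.MG.K
import Pool.Agent.helper6.MG.S
import Pool.Agent.helper6.MG.L0

set_option autoImplicit false

open Finset

namespace Pool.Agent.helper6.MG

open Pool.Agent.helper20.MPN

theorem l_growth (D : ℕ) (hD : 1 ≤ D) (c : ℝ) (hc : 0 < c) : ∃ X1 : ℕ, ∀ X : ℕ, X1 ≤ X →
    Real.log (1 + D * X) * Real.log (1 + D * X) ≤ c * X := by
  have hD0 : (1 : ℝ) ≤ D := by exact_mod_cast hD
  have h := (Real.isLittleO_pow_log_id_atTop (n := 2)).bound (c := c / (2 * D)) (by positivity)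
  obtain ⟨y0, hy0⟩ := Filter.eventually_atTop.1 h
  refine ⟨⌈y0⌉₊ + 1, fun X hX => ?_⟩
  have hX1 : (1 : ℝ) ≤ X := by exact_mod_cast (by omega : 1 ≤ X)
  have hyX : y0 ≤ X := (Nat.le_ceil y0).trans (by exact_mod_cast (by omega : ⌈y0⌉₊ ≤ X))
  have hDX : (X : ℝ) ≤ D * X := le_mul_of_one_le_left (by linarith) hD0
  have h1 : y0 ≤ 1 + D * X := by linarith
  have h2 := hy0 (1 + D * X) h1
  rw [Real.norm_eq_abs, Real.norm_eq_abs, abs_of_nonneg (by positivity)] at h2
  simp only [id] at h2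
  rw [abs_of_nonneg (by positivity)] at h2
  have h3 : c / (2 * D) * (1 + D * X) ≤ c * X := by
    have h4 : (1 : ℝ) + D * X ≤ 2 * D * X := by linarith
    calc c / (2 * D) * (1 + D * X) ≤ c / (2 * D) * (2 * D * X) :=
          mul_le_mul_of_nonneg_left h4 (by positivity)
      _ = c * X := by
          have : (D : ℝ) ≠ 0 := by linarith
          field_simp
  calc Real.log (1 + D * X) * Real.log (1 + D * X) = Real.log (1 + D * X) ^ 2 := by ring
    _ ≤ c / (2 * D) * (1 + D * X) := h2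
    _ ≤ c * X := h3

theorem l_bi (P : Finset ℕ) (g : ℕ → Finset ℕ) (f : ℕ → ℝ) (hf : ∀ x, 0 ≤ f x) :
    ∑ x ∈ P.biUnion g, f x ≤ ∑ l ∈ P, ∑ x ∈ g l, f x := by
  induction P using Finset.induction_on with
  | empty => simp
  | insert a s ha ih =>
    rw [Finset.biUnion_insert, Finset.sum_insert ha]
    have h := Finset.sum_union_inter (s₁ := g a) (s₂ := s.biUnion g) (f := f)
    have h0 : 0 ≤ ∑ x ∈ g a ∩ s.biUnion g, f x := Finset.sum_nonneg fun x _ => hf x
    linarith

/-- `log_2 k ≤ 2 log (1 + D X)` -/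
theorem l_logk {k : ℕ} (hk : 0 < k) {y : ℝ} (hy : (k : ℝ) ≤ y) :
    ((Nat.log 2 k : ℕ) : ℝ) ≤ 2 * Real.log y := by
  have hk0 : (0 : ℝ) < k := by exact_mod_cast hk
  have h1 : ((2 ^ Nat.log 2 k : ℕ) : ℝ) ≤ k := by exact_mod_cast Nat.pow_log_le_self 2 hk.ne'
  have h2 : Real.log ((2 ^ Nat.log 2 k : ℕ) : ℝ) ≤ Real.log y :=
    Real.log_le_log (by positivity) (h1.trans hy)
  push_cast at h2
  rw [Real.log_pow] at h2
  have h3 : (1 : ℝ) / 2 ≤ Real.log 2 := by
    have := Real.log_two_gt_d9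
    linarith
  have h4 : (Nat.log 2 k : ℝ) * (1 / 2) ≤ (Nat.log 2 k : ℝ) * Real.log 2 :=
    mul_le_mul_of_nonneg_left h3 (Nat.cast_nonneg _)
  linarith

open scoped Classical in
/-- the part of the sum with `l ∣ a p + 1` -/
theorem l_one {l n k : ℕ} (hn : 0 < n) (hk : 0 < k)
    (hs : ArithmeticFunction.sigma 1 n = k * n) (w E x : ℕ)
    (hE : ∀ Q ∈ range (w + 1), Q.Prime → n.factorization Q ≤ E) :
    ∑ p ∈ (Pl n l).filter (fun p => p ≤ x), Real.log p ≤
      (((range (x + 1)).filter (fun q => q.Prime ∧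
        ∀ Q ∈ range (w + 1), Q.Prime → ¬ Q ∣ cyc l q)).card : ℝ) * Real.log x +
      ((Nat.log 2 k : ℝ) + w * E) * Real.log x := by
  have hlogx : 0 ≤ Real.log x := Real.log_natCast_nonneg x
  set R := (range (x + 1)).filter (fun q => q.Prime ∧
        ∀ Q ∈ range (w + 1), Q.Prime → ¬ Q ∣ cyc l q) with hR
  set B := (Pl n l).filter (fun p => ∃ Q : ℕ, Q.Prime ∧ Q ≤ w ∧ Q ∣ cyc l p) with hB
  have hsub : (Pl n l).filter (fun p => p ≤ x) ⊆ R ∪ B := by
    intro p hp
    obtain ⟨hp1, hp2⟩ := Finset.mem_filter.mp hp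
    rw [Finset.mem_union]
    by_cases h : ∃ Q : ℕ, Q.Prime ∧ Q ≤ w ∧ Q ∣ cyc l p
    · exact Or.inr (Finset.mem_filter.mpr ⟨hp1, h⟩)
    · refine Or.inl (Finset.mem_filter.mpr ⟨Finset.mem_range.mpr (by omega), ?_, ?_⟩)
      · exact Nat.prime_of_mem_primeFactors (Finset.mem_filter.mp hp1).1
      · intro Q hQ hQp hQd
        exact h ⟨Q, hQp, by have := Finset.mem_range.mp hQ; omega, hQd⟩
  have hcard : (((Pl n l).filter (fun p => p ≤ x)).card : ℝ) ≤
      (R.card : ℝ) + ((Nat.log 2 k : ℝ) + w * E) := by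
    have h1 := (Finset.card_le_card hsub).trans (Finset.card_union_le R B)
    have h2 : B.card ≤ Nat.log 2 k + w * E := L0_card_bad hn hk hs w E hE
    have h3 : ((Pl n l).filter (fun p => p ≤ x)).card ≤ R.card + (Nat.log 2 k + w * E) := by
      omega
    exact_mod_cast h3
  calc ∑ p ∈ (Pl n l).filter (fun p => p ≤ x), Real.log p
      ≤ ((Pl n l).filter (fun p => p ≤ x)).card • Real.log x := by
        refine Finset.sum_le_card_nsmul _ _ _ fun p hp => ?_
        obtain ⟨hp1, hp2⟩ := Finset.mem_filter.mp hp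
        have hp3 := (Nat.prime_of_mem_primeFactors (Finset.mem_filter.mp hp1).1).pos
        exact Real.log_le_log (by exact_mod_cast hp3) (by exact_mod_cast hp2)
    _ ≤ ((R.card : ℝ) + ((Nat.log 2 k : ℝ) + w * E)) * Real.log x := by
        rw [nsmul_eq_mul]
        exact mul_le_mul_of_nonneg_right hcard hlogx
    _ = _ := by ring

/-- few prime factors of `n` have a small exponent, if the exponents of the primes `≤ w` are
`o(log n / loglog n)`. -/
theorem few_exp2 (A D : ℕ) (hD : 1 ≤ D) (η : ℝ) (hη : 0 < η) : ∃ (κ : ℝ) (w X0 : ℕ), 0 < κ ∧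
    ∀ n k X : ℕ, 0 < n → 0 < k → ArithmeticFunction.sigma 1 n = k * n → X0 ≤ X →
      Real.log n ≤ D * X →
      (∀ Q ∈ range (w + 1), Q.Prime → (n.factorization Q : ℝ) * Real.log X ≤ κ * X) →
        ∑ p ∈ n.primeFactors.filter (fun p => p ≤ D * X ∧ n.factorization p < A), Real.log p ≤
          η * X := by
  have hD0 : (1 : ℝ) ≤ D := by exact_mod_cast hD
  set A' : ℝ := (A : ℝ) + 1 with hA'
  have hA'0 : 1 ≤ A' := by
    have : (0 : ℝ) ≤ A := Nat.cast_nonneg A
    linarith
  set ρ : ℝ := η / (4 * A' * D) with hρ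
  have hρ0 : 0 < ρ := by positivity
  have h : ∀ l : ℕ, ∃ w x0 : ℕ, l.Prime → ∀ x : ℕ, x0 ≤ x →
      (((range (x + 1)).filter (fun q => q.Prime ∧
        ∀ Q ∈ range (w + 1), Q.Prime → ¬ Q ∣ cyc l q)).card : ℝ) * Real.log x ≤ ρ * x := by
    intro l
    by_cases hl : l.Prime
    · obtain ⟨w, x0, h⟩ := rough_card hl ρ hρ0
      exact ⟨w, x0, fun _ => h⟩
    · exact ⟨0, 0, fun h => absurd h hl⟩
  choose w x0 hwx using h
  set P : Finset ℕ := (range (A + 1)).filter Nat.Prime with hP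
  set W : ℕ := ∑ l ∈ P, w l + 1 with hW
  have hW1 : (1 : ℝ) ≤ W := by
    have : 1 ≤ W := by omega
    exact_mod_cast this
  have hwWn : ∀ l ∈ P, w l ≤ W := by
    intro l hl
    have h1 : w l ≤ ∑ l ∈ P, w l := Finset.single_le_sum (f := w) (fun _ _ => Nat.zero_le _) hl
    omega
  have hwW : ∀ l ∈ P, (w l : ℝ) ≤ W := fun l hl => by exact_mod_cast hwWn l hl
  obtain ⟨X1, hX1⟩ := l_growth D hD (η / (8 * A')) (by positivity)
  refine ⟨η / (8 * A' * W), W, ∑ l ∈ P, x0 l + X1 + D + 1, by positivity,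
    fun n k X hn hk hs hX hnX hE' => ?_⟩
  -- the largest exponent of the primes `≤ W`
  set E : ℕ := ((range (W + 1)).filter Nat.Prime).sup (fun Q => n.factorization Q) with hEdef
  have hEle : ∀ Q ∈ range (W + 1), Q.Prime → n.factorization Q ≤ E := fun Q hQ hQp =>
    Finset.le_sup (f := fun Q => n.factorization Q) (Finset.mem_filter.2 ⟨hQ, hQp⟩)
  have hE : (E : ℝ) * Real.log X ≤ η / (8 * A' * W) * X := by
    rcases ((range (W + 1)).filter Nat.Prime).eq_empty_or_nonempty with h0 | h0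
    · have h1 : E = 0 := by
        rw [hEdef, h0]
        rfl
      rw [h1]
      simp only [Nat.cast_zero, zero_mul]
      positivity
    · obtain ⟨Q, hQ, hQE⟩ := Finset.exists_mem_eq_sup _ h0 (fun Q => n.factorization Q)
      rw [hEdef, hQE]
      exact hE' Q (Finset.mem_filter.1 hQ).1 (Finset.mem_filter.1 hQ).2
  have hXD : D ≤ X := by omega
  have hX1' : 1 ≤ X := by omega
  have hXr : (1 : ℝ) ≤ X := by exact_mod_cast hX1'
  have hDX1 : 1 ≤ D * X := Nat.mul_pos hD hX1'
  have hXDX : X ≤ D * X := Nat.le_mul_of_pos_left X hD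
  have hlogX : 0 ≤ Real.log X := Real.log_natCast_nonneg X
  have hlogDX : Real.log ((D * X : ℕ) : ℝ) ≤ 2 * Real.log X := by
    push_cast
    rw [Real.log_mul (by linarith) (by linarith)]
    have : Real.log D ≤ Real.log X := Real.log_le_log (by linarith) (by exact_mod_cast hXD)
    linarith
  have hlogDX0 : 0 ≤ Real.log ((D * X : ℕ) : ℝ) := Real.log_natCast_nonneg _
  have hlogDX1 : Real.log ((D * X : ℕ) : ℝ) ≤ Real.log (1 + D * X) := by
    push_cast
    have : (0 : ℝ) < D * X := by positivity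
    exact Real.log_le_log this (by linarith)
  have hkX : (k : ℝ) ≤ 1 + D * X := (k_le hn hs).trans (by linarith)
  have hlogk := l_logk hk hkX
  have hlog1 : 0 ≤ Real.log (1 + (D : ℝ) * X) := Real.log_nonneg (by
    have : (0 : ℝ) < D * X := by positivity
    linarith)
  have hgr := hX1 X (by omega)
  -- each `l`
  have hl1 : ∀ l ∈ P, ∑ p ∈ (Pl n l).filter (fun p => p ≤ D * X), Real.log p ≤
      η / A' * X * (3 / 4) := by
    intro l hl
    have hlp : l.Prime := (Finset.mem_filter.mp hl).2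
    have h1 := l_one (l := l) hn hk hs (w l) E (D * X) (fun Q hQ hQp => hEle Q
      (Finset.mem_range.2 (lt_of_lt_of_le (Finset.mem_range.1 hQ)
        (Nat.add_le_add_right (hwWn l hl) 1))) hQp)
    have h2 : x0 l ≤ D * X := by
      have h3 : x0 l ≤ ∑ l ∈ P, x0 l :=
        Finset.single_le_sum (f := x0) (fun _ _ => Nat.zero_le _) hl
      omega
    have h3 := hwx l hlp (D * X) h2
    have h4 : ρ * ((D * X : ℕ) : ℝ) = η / A' * X * (1 / 4) := by
      rw [hρ]
      push_cast
      have : (D : ℝ) ≠ 0 := by linarith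
      field_simp
    have h5 : (Nat.log 2 k : ℝ) * Real.log ((D * X : ℕ) : ℝ) ≤ η / A' * X * (1 / 4) := by
      calc (Nat.log 2 k : ℝ) * Real.log ((D * X : ℕ) : ℝ)
          ≤ (2 * Real.log (1 + D * X)) * Real.log (1 + D * X) :=
            mul_le_mul hlogk hlogDX1 hlogDX0 (by positivity)
        _ = 2 * (Real.log (1 + D * X) * Real.log (1 + D * X)) := by ring
        _ ≤ 2 * (η / (8 * A') * X) := by linarith
        _ = η / A' * X * (1 / 4) := by
            field_simp
            ring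
    have h6 : ((w l : ℝ) * E) * Real.log ((D * X : ℕ) : ℝ) ≤ η / A' * X * (1 / 4) := by
      have hE0 : (0 : ℝ) ≤ E := Nat.cast_nonneg _
      calc ((w l : ℝ) * E) * Real.log ((D * X : ℕ) : ℝ)
          ≤ ((W : ℝ) * E) * (2 * Real.log X) :=
            mul_le_mul (mul_le_mul_of_nonneg_right (hwW l hl) hE0) hlogDX hlogDX0 (by positivity)
        _ = 2 * W * (E * Real.log X) := by ring
        _ ≤ 2 * W * (η / (8 * A' * W) * X) := mul_le_mul_of_nonneg_left hE (by positivity)
        _ = η / A' * X * (1 / 4) := by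
            field_simp
            ring
    rw [add_mul] at h1
    linarith
  -- the splitting
  have hsub : n.primeFactors.filter (fun p => p ≤ D * X ∧ n.factorization p < A) ⊆
      P.biUnion fun l => (Pl n l).filter (fun p => p ≤ D * X) := by
    intro p hp
    obtain ⟨hp1, hp2, hp3⟩ := Finset.mem_filter.mp hp
    have hpp := Nat.prime_of_mem_primeFactors hp1
    have ha : 1 ≤ n.factorization p :=
      (hpp.dvd_iff_one_le_factorization hn.ne').mp (Nat.dvd_of_mem_primeFactors hp1)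
    have hne : n.factorization p + 1 ≠ 1 := by omega
    have hlp := Nat.minFac_prime hne
    have hld := Nat.minFac_dvd (n.factorization p + 1)
    have hle := Nat.le_of_dvd (Nat.succ_pos _) hld
    rw [Finset.mem_biUnion]
    refine ⟨Nat.minFac (n.factorization p + 1), ?_, ?_⟩
    · exact Finset.mem_filter.mpr ⟨Finset.mem_range.mpr (by omega), hlp⟩
    · exact Finset.mem_filter.mpr ⟨Finset.mem_filter.mpr ⟨hp1, hld⟩, hp2⟩
  have hPcard : (P.card : ℝ) ≤ A' := by
    have h1 : P.card ≤ A + 1 := by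
      calc P.card ≤ (range (A + 1)).card := Finset.card_filter_le _ _
        _ = A + 1 := Finset.card_range _
    rw [hA']
    exact_mod_cast h1
  calc ∑ p ∈ n.primeFactors.filter (fun p => p ≤ D * X ∧ n.factorization p < A), Real.log p
      ≤ ∑ p ∈ P.biUnion fun l => (Pl n l).filter (fun p => p ≤ D * X), Real.log p :=
        Finset.sum_le_sum_of_subset_of_nonneg hsub fun p _ _ => Real.log_natCast_nonneg p
    _ ≤ ∑ l ∈ P, ∑ p ∈ (Pl n l).filter (fun p => p ≤ D * X), Real.log p :=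
        l_bi P _ (fun p => Real.log p) fun p => Real.log_natCast_nonneg p
    _ ≤ ∑ l ∈ P, η / A' * X * (3 / 4) := Finset.sum_le_sum hl1
    _ = P.card * (η / A' * X * (3 / 4)) := by rw [Finset.sum_const, nsmul_eq_mul]
    _ ≤ A' * (η / A' * X * (3 / 4)) := mul_le_mul_of_nonneg_right hPcard (by positivity)
    _ = η * X * (3 / 4) := by
        have : A' ≠ 0 := by linarith
        field_simp
    _ ≤ η * X := by
        have : 0 ≤ η * X := by positivity
        linarith

end Pool.Agent.helper6.MG
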