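import Pool.Agent.helper6.MG.H
import Pool.Agent.helper6.MG.L

set_option autoImplicit false

/-!
# MG-N: multiply perfect numbers without very large powers of bounded primes

`X = ⌊ε log n⌋`, `V = D X` with `D ≥ 16/ε`. By module L almost all prime factors `p ≤ V` of `n` have exponent
`≥ A`, hence total `log` at most `log n / A`; a prime factor `p > V` has `1/p ≤ log p / (V log V)`, so these
contribute at most `log n / (D X log X)`. Together this is less than the contribution of the missing primes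
`≤ X`.
-/

open Finset Pool.Agent.helper20.MPN

namespace Pool.Agent.helper6.MG

/-- the prime factors with exponent at least `A` and the prime factors `> V` -/
theorem N_mass {n : ℕ} (hn : 0 < n) (A V : ℕ) :
    (A : ℝ) * ∑ p ∈ n.primeFactors.filter (fun p => p ≤ V ∧ ¬ n.factorization p < A), Real.log p ≤
      Real.log n ∧
    ∑ p ∈ n.primeFactors.filter (fun p => V < p), Real.log p ≤ Real.log n := by
  have h0 : Real.log n = ∑ p ∈ n.primeFactors, (n.factorization p : ℝ) * Real.log p := by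
    rw [Real.log_nat_eq_sum_factorization, Finsupp.sum, Nat.support_factorization]
  constructor
  · rw [h0, Finset.mul_sum, Finset.sum_filter]
    refine Finset.sum_le_sum fun p hp => ?_
    have hL := F_log_nonneg p
    split_ifs with h
    · have h1 : (A : ℝ) ≤ (n.factorization p : ℝ) := by
        exact_mod_cast not_lt.1 h.2
      exact mul_le_mul_of_nonneg_right h1 hL
    · exact mul_nonneg (Nat.cast_nonneg _) hL
  · rw [h0, Finset.sum_filter]
    refine Finset.sum_le_sum fun p hp => ?_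
    have hL := F_log_nonneg p
    have ha : 1 ≤ n.factorization p :=
      (Nat.prime_of_mem_primeFactors hp).factorization_pos_of_dvd hn.ne'
        (Nat.dvd_of_mem_primeFactors hp)
    have ha' : (1 : ℝ) ≤ (n.factorization p : ℝ) := by exact_mod_cast ha
    split_ifs with h
    · nlinarith
    · exact mul_nonneg (Nat.cast_nonneg _) hL

theorem N_low {n : ℕ} (X V A : ℕ) (hXV : X ≤ V) :
    ∑ p ∈ n.primeFactors.filter (fun p => X < p ∧ p ≤ V), Real.log p +
        ∑ p ∈ n.primeFactors.filter (fun p => p ≤ X), Real.log p =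
      ∑ p ∈ n.primeFactors.filter (fun p => p ≤ V ∧ n.factorization p < A), Real.log p +
        ∑ p ∈ n.primeFactors.filter (fun p => p ≤ V ∧ ¬ n.factorization p < A), Real.log p := by
  rw [Finset.sum_filter, Finset.sum_filter, Finset.sum_filter, Finset.sum_filter,
    ← Finset.sum_add_distrib, ← Finset.sum_add_distrib]
  refine Finset.sum_congr rfl fun p hp => ?_
  by_cases h3 : p ≤ V
  · have h4 : (if X < p ∧ p ≤ V then Real.log p else 0) + (if p ≤ X then Real.log p else 0) =
        Real.log (p : ℝ) := by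
      rcases Nat.lt_or_ge X p with h | h
      · rw [if_pos ⟨h, h3⟩, if_neg (by omega), add_zero]
      · rw [if_neg (by omega), if_pos h, zero_add]
    have h5 : (if p ≤ V ∧ n.factorization p < A then Real.log p else 0) +
        (if p ≤ V ∧ ¬ n.factorization p < A then Real.log p else 0) = Real.log (p : ℝ) := by
      by_cases h : n.factorization p < A
      · rw [if_pos ⟨h3, h⟩, if_neg (by tauto), add_zero]
      · rw [if_neg (by tauto), if_pos ⟨h3, h⟩, zero_add]
    rw [h4, h5]
  · rw [if_neg (by omega), if_neg (by omega), if_neg (by tauto), if_neg (by tauto)]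

/-- **multiply perfect numbers without very large powers of bounded primes** -/
theorem noLargeExp (ε : ℝ) (hε : 0 < ε) : ∃ (κ : ℝ) (w n0 : ℕ), 0 < κ ∧ ∀ n k : ℕ, n0 ≤ n →
    ArithmeticFunction.sigma 1 n = k * n →
      (∀ Q : ℕ, Q.Prime → Q ≤ w →
        (n.factorization Q : ℝ) ≤ κ * (Real.log n / Real.log (Real.log n))) →
      (k : ℝ) ≤ ∏ p ∈ (range (⌊ε * Real.log n⌋₊ + 1)).filter Nat.Prime, ((p : ℝ) / (p - 1)) := by
  obtain ⟨A, hA⟩ := exists_nat_ge (16 / ε)
  have hA0 : (0 : ℝ) < (A : ℝ) := lt_of_lt_of_le (by positivity) hA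
  obtain ⟨D, hD⟩ := exists_nat_ge (max (16 / ε) 1)
  have hD1' : (1 : ℝ) ≤ (D : ℝ) := (le_max_right _ _).trans hD
  have hD1 : 1 ≤ D := by exact_mod_cast hD1'
  have hDε : 16 / ε ≤ (D : ℝ) := (le_max_left _ _).trans hD
  have hD0 : (0 : ℝ) < (D : ℝ) := by linarith
  obtain ⟨κ, w, X1, hκ, hX1⟩ := few_exp2 A D hD1 (1 / 8) (by norm_num)
  obtain ⟨m0, hm0⟩ := theta_pnt (1 / 8) (by norm_num)
  -- logarithms are small
  have hlogA : ∀ᶠ X : ℕ in Filter.atTop, Real.log (X : ℝ) ≤ 1 / 8 * (X : ℝ) := by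
    have h1 := Real.isLittleO_log_id_atTop.bound (show (0 : ℝ) < 1 / 8 by positivity)
    filter_upwards [tendsto_natCast_atTop_atTop.eventually h1] with Y hY
    have h3 : (0 : ℝ) ≤ (Y : ℝ) := Nat.cast_nonneg Y
    rw [Real.norm_eq_abs, id, Real.norm_eq_abs, abs_of_nonneg h3] at hY
    exact (le_abs_self _).trans hY
  -- `log X ≤ 2 log ((1/ε) X)`, in fact for large `X`
  have hbig : ∀ᶠ X : ℕ in Filter.atTop, max (16 : ℝ) (ε ^ 2 + 1) ≤ (X : ℝ) :=
    tendsto_natCast_atTop_atTop.eventually_ge_atTop _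
  obtain ⟨X2, hX2⟩ := Filter.eventually_atTop.1 (hlogA.and hbig)
  have hn0 : ∀ᶠ n : ℕ in Filter.atTop,
      ((max (max m0 X1) (max X2 3) : ℕ) : ℝ) ≤ ε * Real.log (n : ℝ) :=
    ((Real.tendsto_log_atTop.comp tendsto_natCast_atTop_atTop).const_mul_atTop
      hε).eventually_ge_atTop _
  obtain ⟨n1, hn1⟩ := Filter.eventually_atTop.1 hn0
  refine ⟨κ * (ε / 8), w, max n1 1, by positivity, fun n k hn hs hE => ?_⟩
  have hnpos : 0 < n := lt_of_lt_of_le Nat.one_pos ((le_max_right _ _).trans hn)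
  have hkpos : 0 < k := by
    rcases Nat.eq_zero_or_pos k with h | h
    · exfalso
      rw [h, zero_mul] at hs
      have : 0 < ArithmeticFunction.sigma 1 n := by
        rw [ArithmeticFunction.sigma_one_apply]
        exact Finset.sum_pos (fun d hd => Nat.pos_of_mem_divisors hd)
          ⟨1, Nat.one_mem_divisors.2 hnpos.ne'⟩
      omega
    · exact h
  have hlogn := hn1 n ((le_max_left _ _).trans hn)
  obtain ⟨X, hXdef⟩ : ∃ X : ℕ, X = ⌊ε * Real.log (n : ℝ)⌋₊ := ⟨_, rfl⟩
  rw [← hXdef]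
  have hln0 : (0 : ℝ) ≤ Real.log (n : ℝ) := F_log_nonneg n
  have hXle : (X : ℝ) ≤ ε * Real.log n := by
    rw [hXdef]
    exact Nat.floor_le (by positivity)
  have hXlt : ε * Real.log n < (X : ℝ) + 1 := by
    rw [hXdef]
    exact Nat.lt_floor_add_one _
  have hXmax : max (max m0 X1) (max X2 3) ≤ X := by
    rw [hXdef]
    exact Nat.le_floor hlogn
  have hXm : m0 ≤ X := le_trans (le_trans (le_max_left _ _) (le_max_left _ _)) hXmax
  have hXX1 : X1 ≤ X := le_trans (le_trans (le_max_right _ _) (le_max_left _ _)) hXmax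
  have hXX2 : X2 ≤ X := le_trans (le_trans (le_max_left _ _) (le_max_right _ _)) hXmax
  have hX3 : 3 ≤ X := le_trans (le_trans (le_max_right _ _) (le_max_right _ _)) hXmax
  obtain ⟨hlA, hbg⟩ := hX2 X hXX2
  have hX16 : (16 : ℝ) ≤ (X : ℝ) := (le_max_left _ _).trans hbg
  have hXε : ε ^ 2 + 1 ≤ (X : ℝ) := (le_max_right _ _).trans hbg
  have hXR : (0 : ℝ) < (X : ℝ) := by linarith
  have hL : (0 : ℝ) < Real.log (X : ℝ) := Real.log_pos (by linarith)
  obtain ⟨y, hy⟩ : ∃ y : ℝ, y = Real.log (n : ℝ) := ⟨_, rfl⟩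
  rw [← hy] at hXle hXlt hE hln0
  -- `y ≤ 2 X / ε`
  have hyX : ε * y ≤ 2 * X := by linarith
  have hyD : y ≤ D * X := by
    have h1 : y ≤ 2 * X / ε := by
      rw [le_div_iff₀ hε]
      linarith
    have h2 : 2 * (X : ℝ) / ε ≤ 16 / ε * X := by
      rw [div_mul_eq_mul_div]
      exact div_le_div_of_nonneg_right (by linarith) hε.le
    exact h1.trans (h2.trans (mul_le_mul_of_nonneg_right hDε hXR.le))
  -- `log X ≤ 2 log y`: `X ≤ ε y`, `X ≥ ε ^ 2` gives `X ≤ y ^ 2`
  have hy0 : 0 < y := by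
    by_contra h
    push Not at h
    nlinarith
  have hXy2 : (X : ℝ) ≤ y ^ 2 := by
    have h1 : (X : ℝ) ^ 2 ≤ ε ^ 2 * y ^ 2 := by
      rw [← mul_pow]
      exact pow_le_pow_left₀ hXR.le hXle 2
    have h2 : ε ^ 2 * y ^ 2 ≤ X * y ^ 2 :=
      mul_le_mul_of_nonneg_right (by linarith) (by positivity)
    have h3 : (X : ℝ) * X ≤ X * y ^ 2 := by nlinarith
    exact le_of_mul_le_mul_left h3 hXR
  have hlogXy : Real.log (X : ℝ) ≤ 2 * Real.log y := by
    have h1 := Real.log_le_log hXR hXy2
    rw [Real.log_pow] at h1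
    exact_mod_cast h1
  have hly : 0 < Real.log y := by linarith
  -- the exponents
  have hEX : ∀ Q ∈ range (w + 1), Q.Prime → (n.factorization Q : ℝ) * Real.log X ≤ κ * X := by
    intro Q hQ hQp
    have h0 : (n.factorization Q : ℝ) ≤ κ * (ε / 8) * (y / Real.log y) :=
      hE Q hQp (Nat.lt_succ_iff.1 (Finset.mem_range.1 hQ))
    have h1 : (n.factorization Q : ℝ) * Real.log X ≤ κ * (ε / 8) * (y / Real.log y) * Real.log X :=
      mul_le_mul_of_nonneg_right h0 hL.le
    have h2 : κ * (ε / 8) * (y / Real.log y) * Real.log X ≤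
        κ * (ε / 8) * (y / Real.log y) * (2 * Real.log y) :=
      mul_le_mul_of_nonneg_left hlogXy (by positivity)
    have h3 : κ * (ε / 8) * (y / Real.log y) * (2 * Real.log y) = κ * ((ε * y) / 4) := by
      field_simp
      ring
    have h4 : κ * ((ε * y) / 4) ≤ κ * X := mul_le_mul_of_nonneg_left (by linarith) hκ.le
    linarith
  have hfew := hX1 n k X hnpos hkpos hs hXX1 (by rw [← hy]; exact hyD) hEX
  obtain ⟨hmA, hmV⟩ := N_mass hnpos A (D * X)
  have hXV : X ≤ D * X := Nat.le_mul_of_pos_left X hD1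
  have hlow := N_low (n := n) X (D * X) A hXV
  have hgain := H_gain (n := n) X (D * X) hXV
  have hsplit := F_split (n := n) X
  have t1 := hm0 X hXm
  change |th X - _| ≤ _ at t1
  rw [abs_le] at t1
  -- sums
  rw [← hy] at hmA hmV
  have hmA' : ∑ p ∈ n.primeFactors.filter (fun p => p ≤ D * X ∧ ¬ n.factorization p < A),
      Real.log p ≤ X / 8 := by
    have h1 : (A : ℝ) * ∑ p ∈ n.primeFactors.filter
        (fun p => p ≤ D * X ∧ ¬ n.factorization p < A), Real.log p ≤ A * (X / 8) := by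
      refine hmA.trans ?_
      have h2 : 16 / ε * (X / 8) ≤ A * (X / 8) := mul_le_mul_of_nonneg_right hA (by positivity)
      have h3 : y ≤ 16 / ε * (X / 8) := by
        rw [div_mul_eq_mul_div, le_div_iff₀ hε]
        linarith
      exact h3.trans h2
    exact le_of_mul_le_mul_left h1 hA0
  -- the cost and the gain
  have hcost : ∑ p ∈ (range (X + 1)).filter (fun p => p.Prime ∧ p ∉ n.primeFactors), Real.log p ≤
      (X : ℝ) * Real.log X *
        ∑ p ∈ (range (X + 1)).filter (fun p => p.Prime ∧ p ∉ n.primeFactors), (1 : ℝ) / p := by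
    have h1 := cost X hX3 ((range (X + 1)).filter (fun p => p.Prime ∧ p ∉ n.primeFactors))
      (fun p hp => by
        simp only [Finset.mem_filter, Finset.mem_range] at hp
        exact ⟨hp.2.1, by omega⟩)
    have h2 : ∑ p ∈ ((range (X + 1)).filter (fun p => p.Prime ∧ p ∉ n.primeFactors)).filter
          (fun p => 7 * X < 10 * p), Real.log p ≤
        ∑ p ∈ (range (X + 1)).filter (fun p => p.Prime ∧ p ∉ n.primeFactors), Real.log p :=
      Finset.sum_le_sum_of_subset_of_nonneg (Finset.filter_subset _ _) fun p _ _ => F_log_nonneg p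
    linarith
  have hg1 := extra X hX3 (n.primeFactors.filter (fun p => X < p ∧ p ≤ D * X)) (fun p hp =>
    (Finset.mem_filter.1 hp).2.1)
  have hg2 := extra (D * X) (by omega) (n.primeFactors.filter (fun p => D * X < p)) (fun p hp =>
    (Finset.mem_filter.1 hp).2)
  have hcmp := prod_cmp n X (by omega)
  set P : ℝ := ∏ p ∈ (range (X + 1)).filter Nat.Prime, ((p : ℝ) / (p - 1)) with hP
  have hP0 : 0 ≤ P := by
    refine Finset.prod_nonneg fun p hp => ?_
    have h2 : 2 ≤ p := (Finset.mem_filter.1 hp).2.two_le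
    have h3 : (2 : ℝ) ≤ (p : ℝ) := by exact_mod_cast h2
    exact div_nonneg (by linarith) (by linarith)
  set C : ℝ := ∑ p ∈ (range (X + 1)).filter (fun p => p.Prime ∧ p ∉ n.primeFactors), (1 : ℝ) / p
    with hC
  set G : ℝ := ∑ p ∈ n.primeFactors.filter (fun p => X < p), (1 : ℝ) / p with hG
  set G1 : ℝ := ∑ p ∈ n.primeFactors.filter (fun p => X < p ∧ p ≤ D * X), (1 : ℝ) / p with hG1
  set G2 : ℝ := ∑ p ∈ n.primeFactors.filter (fun p => D * X < p), (1 : ℝ) / p with hG2
  have hG20 : 0 ≤ G2 := Finset.sum_nonneg fun p _ => by positivity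
  have hg3 : (X : ℝ) * Real.log X * G2 ≤ X / 8 := by
    have h1 : Real.log (X : ℝ) ≤ Real.log ((D * X : ℕ) : ℝ) := by
      apply Real.log_le_log hXR
      exact_mod_cast hXV
    have h2 : (X : ℝ) * Real.log X * G2 ≤ (X : ℝ) * Real.log ((D * X : ℕ) : ℝ) * G2 :=
      mul_le_mul_of_nonneg_right (mul_le_mul_of_nonneg_left h1 hXR.le) hG20
    have h3 : (((D * X : ℕ) : ℝ)) * Real.log ((D * X : ℕ) : ℝ) * G2 =
        D * ((X : ℝ) * Real.log ((D * X : ℕ) : ℝ) * G2) := by
      push_cast
      ring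
    rw [h3] at hg2
    have h4 : (D : ℝ) * ((X : ℝ) * Real.log ((D * X : ℕ) : ℝ) * G2) ≤ D * (X / 8) := by
      refine hg2.trans (hmV.trans ?_)
      have h5 : 16 / ε * (X / 8) ≤ D * (X / 8) := mul_le_mul_of_nonneg_right hDε (by positivity)
      have h6 : y ≤ 16 / ε * (X / 8) := by
        rw [div_mul_eq_mul_div, le_div_iff₀ hε]
        linarith
      exact h6.trans h5
    exact h2.trans (le_of_mul_le_mul_left h4 hD0)
  have hd : (X : ℝ) * Real.log X * (G - C) ≤ -(X / 2) := by
    rw [hgain, mul_sub, mul_add]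
    linarith
  have hGC : -C + G + 1 / X ≤ 0 := by
    have h1 : (X : ℝ) * Real.log X * (1 / X) = Real.log X := by
      field_simp
    have h2 : (X : ℝ) * Real.log X * (-C + G + 1 / X) ≤ 0 := by
      have h3 : (X : ℝ) * Real.log X * (-C + G + 1 / X) =
          (X : ℝ) * Real.log X * (G - C) + (X : ℝ) * Real.log X * (1 / X) := by ring
      rw [h3, h1]
      linarith
    by_contra h3
    push Not at h3
    have h4 : 0 < (X : ℝ) * Real.log X * (-C + G + 1 / X) := by positivity
    linarith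
  have h2 := Pool.Agent.helper20.MPN.le_prod hnpos
  have h3 : (ArithmeticFunction.sigma 1 n : ℝ) / n = k := by
    have hn0 : (n : ℝ) ≠ 0 := by exact_mod_cast hnpos.ne'
    rw [hs]
    push_cast
    field_simp
  rw [h3] at h2
  calc (k : ℝ) ≤ P * Real.exp (-C + G + 1 / X) := h2.trans hcmp
    _ ≤ P * 1 := mul_le_mul_of_nonneg_left (Real.exp_le_one_iff.2 hGC) hP0
    _ = P := mul_one _

end Pool.Agent.helper6.MG
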