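import Pool.Agent.helper62.Sieg.SWT

set_option autoImplicit false

open Finset

namespace Pool.Agent.helper6.MG

lemma P_thetaAP_one (m : ℕ) : BVM.thetaAP 1 1 m =
    ∑ p ∈ (range (m + 1)).filter Nat.Prime, Real.log p := by
  unfold BVM.thetaAP
  refine Finset.sum_congr ?_ fun _ _ => rfl
  ext p
  simp only [mem_filter, mem_Icc, mem_range, Nat.modEq_one, and_true]
  constructor
  · rintro ⟨⟨-, h⟩, hp⟩
    exact ⟨by omega, hp⟩
  · rintro ⟨h, hp⟩
    exact ⟨⟨hp.one_lt.le, by omega⟩, hp⟩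

/-- the prime number theorem for `θ` at integers.

PROOF. `Pool.Agent.helper62.Sieg.theta_sw 1 0` (`q = 1`, `a = 1`, `x = y = m`; `thetaAP 1 1 m` is the
full sum of `log p` over the primes `p ≤ m`, `φ(1) = 1`): error `≤ C m / log m ≤ ε m` for large `m`. -/
theorem theta_pnt (ε : ℝ) (hε : 0 < ε) : ∃ m0 : ℕ, ∀ m : ℕ, m0 ≤ m →
    |∑ p ∈ (range (m + 1)).filter Nat.Prime, Real.log p - m| ≤ ε * m := by
  obtain ⟨C, x₀, hC, hx₀, h⟩ := Pool.Agent.helper62.Sieg.theta_sw 1 0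
  refine ⟨⌈x₀⌉₊ + ⌈Real.exp (C / ε)⌉₊, fun m hm => ?_⟩
  have h1 : x₀ ≤ (m : ℝ) := by
    have := Nat.le_ceil x₀
    have h2 : (⌈x₀⌉₊ : ℝ) ≤ m := by exact_mod_cast (by omega : ⌈x₀⌉₊ ≤ m)
    linarith
  have h2 : Real.exp (C / ε) ≤ (m : ℝ) := by
    have := Nat.le_ceil (Real.exp (C / ε))
    have h3 : (⌈Real.exp (C / ε)⌉₊ : ℝ) ≤ m := by
      exact_mod_cast (by omega : ⌈Real.exp (C / ε)⌉₊ ≤ m)
    linarith
  have hm3 : (3 : ℝ) ≤ m := hx₀.trans h1
  have hm0 : (0 : ℝ) < m := by linarith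
  have hlog : 0 < Real.log m := Real.log_pos (by linarith)
  have hlog2 : C / ε ≤ Real.log m := by
    rw [Real.le_log_iff_exp_le hm0]
    exact h2
  have h3 := h m h1 1 le_rfl (by simp) 1 (Nat.coprime_one_left 1) m le_rfl
  rw [P_thetaAP_one] at h3
  simp only [Nat.totient_one, Nat.cast_one, div_one, pow_one] at h3
  refine h3.trans ?_
  rw [div_le_iff₀ hlog]
  rw [div_le_iff₀ hε] at hlog2
  nlinarith

end Pool.Agent.helper6.MG
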