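import Pool.Agent.helper6.ME.B

set_option autoImplicit false

open Finset Pool.Agent.helper20.MPN

namespace Pool.Agent.helper6.MG

/-- the sieve inequality -/
theorem t66_sieve {l : ℕ} (hl : l.Prime) {c : ℝ} {s1 M0 : ℕ} (hc : 0 < c)
    (hB : ∀ l : ℕ, l.Prime → ∀ M w : ℕ, M0 ≤ M → M ≤ w → (l : ℝ) ≤ Real.log M ^ 1 →
      c * (Real.log w ^ 2 / Real.log M) ≤ gG (PP w) (Pool.Agent.helper6.ME.RM l M) (w ^ s1))
    (T s x M w : ℕ) (hM0 : M0 ≤ M) (hM2 : 2 ≤ M) (hMw : M ≤ w) (hlM : (l : ℝ) ≤ Real.log M)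
    (hwx : w ≤ x) (hPT : ∀ P : ℕ, M < P → P ≤ w → P ^ T ≤ x ∧ x < P ^ s) :
    (((range (x + 1)).filter (fun q => q.Prime ∧ ∀ P ∈ range (x + 1), P.Prime →
        P ^ T ≤ x → x < P ^ s → ¬ P ∣ cyc l q)).card : ℝ) ≤
      ((x : ℝ) + 1) / (c * (Real.log w ^ 2 / Real.log M)) + (w : ℝ) ^ (s1 * 4) + (w + 1) := by
  have hlogM : 0 < Real.log M := Real.log_pos (by exact_mod_cast (by omega : 1 < M))
  have hlogw : 0 < Real.log w := Real.log_pos (by exact_mod_cast (by omega : 1 < w))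
  set B := (range (x + 1)).filter (fun q => q.Prime ∧ ∀ P ∈ range (x + 1), P.Prime →
        P ^ T ≤ x → x < P ^ s → ¬ P ∣ cyc l q) with hBdef
  set A := B.filter (fun q => w < q) with hA
  have hBA : B ⊆ A ∪ range (w + 1) := by
    intro q hq
    rw [Finset.mem_union]
    by_cases h : w < q
    · exact Or.inl (Finset.mem_filter.2 ⟨hq, h⟩)
    · exact Or.inr (Finset.mem_range.2 (by omega))
  have hcard : (B.card : ℝ) ≤ A.card + (w + 1) := by
    have h1 := (Finset.card_le_card hBA).trans (Finset.card_union_le _ _)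
    rw [Finset.card_range] at h1
    exact_mod_cast h1
  have hsieve := gsieve (PP w) (fun p hp => (G_mem_PP.1 hp).2.1) (Pool.Agent.helper6.ME.RM l M)
    (fun p hp => Pool.Agent.helper6.ME.RM_sub (G_mem_PP.1 hp).2.1)
    (fun p hp => Finset.card_pos.1 (Pool.Agent.helper6.ME.RM_pos hl (G_mem_PP.1 hp).2.1))
    (fun p hp => Pool.Agent.helper6.ME.RM_lt hl (G_mem_PP.1 hp).2.1 (G_mem_PP.1 hp).2.2)
    (w ^ s1) (x + 1) A
    (by
      intro q hq
      exact (Finset.mem_filter.1 (Finset.mem_filter.1 hq).1).1)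
    (by
      intro q hq p hp
      obtain ⟨hq1, hq2⟩ := Finset.mem_filter.1 hq
      obtain ⟨-, hqp, hQ⟩ := Finset.mem_filter.1 hq1
      rw [G_mem_PP] at hp
      have h0 : q % p ≠ 0 := by
        intro h
        have h1 : p ∣ q := Nat.dvd_of_mod_eq_zero h
        have h2 : p = q := (Nat.prime_dvd_prime_iff_eq hp.2.1 hqp).1 h1
        have h4 := hp.1
        omega
      unfold Pool.Agent.helper6.ME.RM
      split_ifs with hc1
      · rw [Finset.mem_insert]
        rintro (h | h)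
        · exact h0 h
        · unfold roots at h
          rw [Finset.mem_filter, C_dvd_mod] at h
          obtain ⟨h5, h6⟩ := hPT p hc1.2 hp.1
          exact hQ p (Finset.mem_range.2 (by omega)) hp.2.1 h5 h6 h.2
      · rw [Finset.mem_singleton]
        exact h0)
  have hGl := hB l hl M w hM0 hMw (by rwa [pow_one])
  set g : ℝ := gG (PP w) (Pool.Agent.helper6.ME.RM l M) (w ^ s1) with hg
  have hcl : 0 < c * (Real.log w ^ 2 / Real.log M) := by positivity
  have hg0 : 0 < g := lt_of_lt_of_le hcl hGl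
  have hA1 : (A.card : ℝ) ≤ ((x : ℝ) + 1) / g + (w : ℝ) ^ (s1 * 4) := by
    have h1 : (A.card : ℝ) * g ≤ ((x : ℝ) + 1) + (w : ℝ) ^ (s1 * 4) * g := by
      refine hsieve.trans ?_
      push_cast
      rw [← pow_mul]
    rw [← sub_le_iff_le_add, le_div_iff₀ hg0]
    linarith
  have hA2 : ((x : ℝ) + 1) / g ≤ ((x : ℝ) + 1) / (c * (Real.log w ^ 2 / Real.log M)) :=
    div_le_div_of_nonneg_left (by positivity) hcl hGl
  linarith

/-- for almost all primes `q ≤ x` the number `cyc l q` has a prime factor in `(x^(1/s), x^(1/T)]`. -/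
theorem typ : ∃ (K : ℝ) (T : ℕ), 0 < K ∧ 3 ≤ T ∧ ∀ l : ℕ, l.Prime → ∀ s : ℕ, T ≤ s → ∃ x0 : ℕ,
    ∀ x : ℕ, x0 ≤ x →
      (((range (x + 1)).filter (fun q => q.Prime ∧ ∀ P ∈ range (x + 1), P.Prime →
        P ^ T ≤ x → x < P ^ s → ¬ P ∣ cyc l q)).card : ℝ) * Real.log x ≤ K / s * x := by
  obtain ⟨c, s1, M0, hc, hs1, hM03, hB⟩ := Pool.Agent.helper6.ME.B_lower 1 (le_refl 1)
  set T : ℕ := 8 * s1 + 3 with hT
  have hTpos : 0 < T := by omega
  have hT0 : (0 : ℝ) < T := by exact_mod_cast hTpos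
  have hT8 : (T : ℝ) = 8 * s1 + 3 := by
    rw [hT]
    push_cast
    ring
  have hs10 : (1 : ℝ) ≤ s1 := by exact_mod_cast hs1
  refine ⟨16 * (T : ℝ) ^ 2 / c + 1, T, by positivity, by omega, fun l hl s hs => ?_⟩
  have hspos : 0 < s := by omega
  have hs0 : (0 : ℝ) < s := by exact_mod_cast hspos
  have hTs : (T : ℝ) ≤ s := by exact_mod_cast hs
  have hcast : Filter.Tendsto (fun x : ℕ => (x : ℝ)) Filter.atTop Filter.atTop :=
    tendsto_natCast_atTop_atTop
  have e1 : ∀ᶠ x : ℕ in Filter.atTop, 2 * (s : ℝ) * l ≤ Real.log x :=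
    (Real.tendsto_log_atTop.comp hcast).eventually_ge_atTop _
  have e2 : ∀ᶠ x : ℕ in Filter.atTop, ‖Real.log x‖ ≤ (1 / (3 * (s : ℝ))) *
      ‖(x : ℝ) ^ (1 / 2 : ℝ)‖ :=
    hcast.eventually ((isLittleO_log_rpow_atTop (by norm_num : (0 : ℝ) < 1 / 2)).def
      (by positivity : (0 : ℝ) < 1 / (3 * (s : ℝ))))
  have e3 : ∀ᶠ x : ℕ in Filter.atTop, (M0 : ℝ) + 1 ≤ (x : ℝ) ^ (1 / (T : ℝ)) :=
    ((tendsto_rpow_atTop (by positivity : (0 : ℝ) < 1 / (T : ℝ))).comp hcast).eventually_ge_atTop _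
  have e3' : ∀ᶠ x : ℕ in Filter.atTop, (M0 : ℝ) + 1 ≤ (x : ℝ) ^ (1 / (s : ℝ)) :=
    ((tendsto_rpow_atTop (by positivity : (0 : ℝ) < 1 / (s : ℝ))).comp hcast).eventually_ge_atTop _
  have e4 : ∀ᶠ x : ℕ in Filter.atTop, 2 * (s : ℝ) * Real.log 2 ≤ Real.log x :=
    (Real.tendsto_log_atTop.comp hcast).eventually_ge_atTop _
  have e5 : ∀ᶠ x : ℕ in Filter.atTop, 16 ≤ x := Filter.eventually_ge_atTop 16
  obtain ⟨x0, hx0⟩ := Filter.eventually_atTop.1
    (e1.and (e2.and (e3.and (e3'.and (e4.and e5)))))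
  refine ⟨x0, fun x hx => ?_⟩
  obtain ⟨f1, f2, f3, f3', f4, f5⟩ := hx0 x hx
  have hx1 : (16 : ℝ) ≤ x := by exact_mod_cast f5
  have hxpos : (0 : ℝ) < x := by linarith
  have hL : 0 < Real.log x := Real.log_pos (by linarith)
  have hlog2 : 0 < Real.log 2 := Real.log_pos (by norm_num)
  have hM03' : (3 : ℝ) ≤ M0 := by exact_mod_cast hM03
  set y : ℝ := (x : ℝ) ^ (1 / (T : ℝ)) with hy
  set ys : ℝ := (x : ℝ) ^ (1 / (s : ℝ)) with hys
  set w : ℕ := ⌊y⌋₊ with hw
  have hy0 : 0 ≤ y := by linarith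
  have hys0 : 0 < ys := by linarith
  have hwy : (w : ℝ) ≤ y := Nat.floor_le hy0
  have hyw : y < w + 1 := Nat.lt_floor_add_one y
  have hM0w : M0 ≤ w := by
    have : (M0 : ℝ) < w := by linarith
    exact_mod_cast this.le
  have hw3 : (3 : ℝ) ≤ w := by
    have : (M0 : ℝ) ≤ w := by exact_mod_cast hM0w
    linarith
  set M1 : ℕ := ⌈ys⌉₊ with hM1
  have hM1a : ys ≤ M1 := Nat.le_ceil ys
  have hM1b : (M1 : ℝ) < ys + 1 := Nat.ceil_lt_add_one hys0.le
  have hM0M1 : M0 ≤ M1 := by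
    have : (M0 : ℝ) < M1 := by linarith
    exact_mod_cast this.le
  set M : ℕ := min M1 w with hM
  have hM0M : M0 ≤ M := le_min hM0M1 hM0w
  have hMw : M ≤ w := min_le_right _ _
  have hMM1 : M ≤ M1 := min_le_left _ _
  have hlogw : Real.log x / (2 * T) ≤ Real.log w := by
    have h1 : y / 2 ≤ w := by linarith
    have h2 : Real.log (y / 2) ≤ Real.log w := Real.log_le_log (by linarith) h1
    rw [Real.log_div (by linarith) (by norm_num), hy, Real.log_rpow hxpos] at h2
    have h3 : Real.log 2 ≤ Real.log x / (2 * T) := by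
      rw [le_div_iff₀ (by positivity)]
      nlinarith
    have h4 : 1 / (T : ℝ) * Real.log x = Real.log x / (2 * T) + Real.log x / (2 * T) := by
      field_simp
      ring
    linarith
  have hMpos : (0 : ℝ) < M := by
    have : (M0 : ℝ) ≤ M := by exact_mod_cast hM0M
    linarith
  -- lower bound of log M
  have hlogMlow : Real.log x / (2 * s) ≤ Real.log M := by
    rcases le_total M1 w with h | h
    · have hMeq : M = M1 := min_eq_left h
      rw [hMeq]
      have h2 : Real.log ys ≤ Real.log M1 := Real.log_le_log hys0 hM1a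
      rw [hys, Real.log_rpow hxpos] at h2
      have h4 : 1 / (s : ℝ) * Real.log x = Real.log x / (2 * s) + Real.log x / (2 * s) := by
        field_simp
        ring
      have h5 : 0 ≤ Real.log x / (2 * s) := by positivity
      linarith
    · have hMeq : M = w := min_eq_right h
      rw [hMeq]
      refine le_trans ?_ hlogw
      exact div_le_div_of_nonneg_left hL.le (by positivity) (by linarith)
  have hlM : (l : ℝ) ≤ Real.log M := by
    refine le_trans ?_ hlogMlow
    rw [le_div_iff₀ (by positivity)]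
    linarith
  -- upper bound of log M
  have hlogMup : Real.log M ≤ 2 * Real.log x / s := by
    have h1 : Real.log M ≤ Real.log (2 * ys) := by
      apply Real.log_le_log hMpos
      have : (M : ℝ) ≤ M1 := by exact_mod_cast hMM1
      linarith
    rw [Real.log_mul (by norm_num) hys0.ne', hys, Real.log_rpow hxpos] at h1
    have h3 : Real.log 2 ≤ Real.log x / s := by
      rw [le_div_iff₀ hs0]
      nlinarith
    have h4 : 2 * Real.log x / s = Real.log x / s + 1 / (s : ℝ) * Real.log x := by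
      field_simp
      ring
    linarith
  have hs' : (x : ℝ) ^ (1 / 2 : ℝ) * (x : ℝ) ^ (1 / 2 : ℝ) = x := by
    rw [← Real.rpow_add hxpos]
    norm_num
  set r : ℝ := (x : ℝ) ^ (1 / 2 : ℝ) with hr
  have hr0 : 0 < r := Real.rpow_pos_of_pos hxpos _
  have hr4 : 4 ≤ r := by nlinarith
  have hzs : (w : ℝ) ^ (s1 * 4) ≤ r := by
    calc (w : ℝ) ^ (s1 * 4) ≤ y ^ (s1 * 4) := pow_le_pow_left₀ (by linarith) hwy _
      _ = (x : ℝ) ^ (1 / (T : ℝ) * ((s1 * 4 : ℕ) : ℝ)) := by
          rw [hy, ← Real.rpow_natCast, ← Real.rpow_mul hxpos.le]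
      _ ≤ r := by
          apply Real.rpow_le_rpow_of_exponent_le (by linarith)
          rw [div_mul_eq_mul_div, div_le_div_iff₀ hT0 (by norm_num), hT8]
          push_cast
          linarith
  have hwr : (w : ℝ) ≤ r := by
    calc (w : ℝ) = (w : ℝ) ^ 1 := (pow_one _).symm
      _ ≤ (w : ℝ) ^ (s1 * 4) := pow_le_pow_right₀ (by linarith) (by omega)
      _ ≤ r := hzs
  have hwx : w ≤ x := by
    have h1 : r ≤ x := by nlinarith
    have : (w : ℝ) ≤ x := hwr.trans h1
    exact_mod_cast this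
  have hwT : w ^ T ≤ x := by
    have h1 : (w : ℝ) ^ T ≤ x := by
      calc (w : ℝ) ^ T ≤ y ^ T := pow_le_pow_left₀ (by linarith) hwy _
        _ = x := by
            rw [hy, ← Real.rpow_natCast, ← Real.rpow_mul hxpos.le,
              one_div_mul_cancel hT0.ne', Real.rpow_one]
    exact_mod_cast h1
  have hPT : ∀ P : ℕ, M < P → P ≤ w → P ^ T ≤ x ∧ x < P ^ s := by
    intro P h1 h2
    refine ⟨(Nat.pow_le_pow_left h2 T).trans hwT, ?_⟩
    have h3 : M1 < P := by
      rcases le_total M1 w with h | h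
      · rwa [hM, min_eq_left h] at h1
      · rw [hM, min_eq_right h] at h1
        omega
    have h4 : ys < (P : ℝ) := by
      have : (M1 : ℝ) < P := by exact_mod_cast h3
      linarith
    have h5 : (x : ℝ) < (P : ℝ) ^ s := by
      calc (x : ℝ) = ys ^ s := by
            rw [hys, ← Real.rpow_natCast, ← Real.rpow_mul hxpos.le,
              one_div_mul_cancel hs0.ne', Real.rpow_one]
        _ < (P : ℝ) ^ s := pow_lt_pow_left₀ h4 hys0.le hspos.ne'
    exact_mod_cast h5
  have hmain := t66_sieve hl hc hB T s x M w hM0M (by omega) hMw hlM hwx hPT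
  have hlogM : 0 < Real.log M := lt_of_lt_of_le (by positivity) hlogMlow
  have hfirst : ((x : ℝ) + 1) / (c * (Real.log w ^ 2 / Real.log M)) * Real.log x ≤
      16 * (T : ℝ) ^ 2 / c / s * x := by
    have h1 : c * ((Real.log x / (2 * T)) ^ 2 / (2 * Real.log x / s)) ≤
        c * (Real.log w ^ 2 / Real.log M) := by
      apply mul_le_mul_of_nonneg_left _ hc.le
      apply div_le_div₀ (by positivity) _ hlogM hlogMup
      exact pow_le_pow_left₀ (by positivity) hlogw 2
    have h3 : 0 < c * ((Real.log x / (2 * T)) ^ 2 / (2 * Real.log x / s)) := by positivity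
    have h4 : ((x : ℝ) + 1) / (c * (Real.log w ^ 2 / Real.log M)) ≤
        ((x : ℝ) + 1) / (c * ((Real.log x / (2 * T)) ^ 2 / (2 * Real.log x / s))) :=
      div_le_div_of_nonneg_left (by positivity) h3 h1
    calc ((x : ℝ) + 1) / (c * (Real.log w ^ 2 / Real.log M)) * Real.log x
        ≤ ((x : ℝ) + 1) / (c * ((Real.log x / (2 * T)) ^ 2 / (2 * Real.log x / s))) *
            Real.log x := mul_le_mul_of_nonneg_right h4 hL.le
      _ = 8 * (T : ℝ) ^ 2 / c / s * (x + 1) := by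
          field_simp
          ring
      _ ≤ 8 * (T : ℝ) ^ 2 / c / s * (2 * x) := by
          apply mul_le_mul_of_nonneg_left (by linarith) (by positivity)
      _ = 16 * (T : ℝ) ^ 2 / c / s * x := by ring
  have hsecond : ((w : ℝ) ^ (s1 * 4) + (w + 1)) * Real.log x ≤ 1 / s * x := by
    rw [Real.norm_of_nonneg hL.le, Real.norm_of_nonneg hr0.le] at f2
    calc ((w : ℝ) ^ (s1 * 4) + (w + 1)) * Real.log x ≤ (3 * r) * Real.log x :=
          mul_le_mul_of_nonneg_right (by linarith) hL.le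
      _ ≤ (3 * r) * (1 / (3 * s) * r) := mul_le_mul_of_nonneg_left f2 (by positivity)
      _ = 1 / s * (r * r) := by
          field_simp
      _ = 1 / s * x := by rw [hs']
  calc (((range (x + 1)).filter (fun q => q.Prime ∧ ∀ P ∈ range (x + 1), P.Prime →
        P ^ T ≤ x → x < P ^ s → ¬ P ∣ cyc l q)).card : ℝ) * Real.log x
      ≤ (((x : ℝ) + 1) / (c * (Real.log w ^ 2 / Real.log M)) + (w : ℝ) ^ (s1 * 4) + (w + 1))
          * Real.log x := mul_le_mul_of_nonneg_right hmain hL.le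
    _ = ((x : ℝ) + 1) / (c * (Real.log w ^ 2 / Real.log M)) * Real.log x
        + ((w : ℝ) ^ (s1 * 4) + (w + 1)) * Real.log x := by ring
    _ ≤ 16 * (T : ℝ) ^ 2 / c / s * x + 1 / s * x := add_le_add hfirst hsecond
    _ = (16 * (T : ℝ) ^ 2 / c + 1) / s * x := by ring

end Pool.Agent.helper6.MG
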