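import Pool.Agent.HAE.DIV
import Pool.Agent.helper20.MPN.D

set_option autoImplicit false

open Finset Pool.Agent.helper20.MPN

namespace Pool.Agent.helper6.MG

/-- the primes `r` in `(V / D, V]` with `r ∣ p ^ d - 1` and `d ∣ r - 1` -/
def u76S (V D p d : ℕ) : Finset ℕ :=
  (range (V + 1)).filter (fun r => r.Prime ∧ V < D * r ∧ r ∣ p ^ d - 1 ∧ d ∣ r - 1)

theorem u76_mem {V D p d r : ℕ} : r ∈ u76S V D p d ↔
    r ≤ V ∧ r.Prime ∧ V < D * r ∧ r ∣ p ^ d - 1 ∧ d ∣ r - 1 := by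
  unfold u76S
  rw [Finset.mem_filter, Finset.mem_range, Nat.lt_succ_iff]

theorem u76_card_div {V D p d : ℕ} (hd : 0 < d) : (u76S V D p d).card ≤ V / d := by
  have h : (u76S V D p d).card ≤ (Icc 1 (V / d)).card := by
    refine Finset.card_le_card_of_injOn (fun r => (r - 1) / d) ?_ ?_
    · intro r hr
      obtain ⟨h1, h2, h3, h4, h5⟩ := u76_mem.1 (Finset.mem_coe.1 hr)
      have h2' := h2.two_le
      refine Finset.mem_coe.2 (Finset.mem_Icc.2 ⟨?_, ?_⟩)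
      · exact (Nat.one_le_div_iff hd).2 (Nat.le_of_dvd (by omega) h5)
      · exact Nat.div_le_div_right (by omega)
    · intro r hr s hs hrs
      obtain ⟨-, h2, -, -, h5⟩ := u76_mem.1 (Finset.mem_coe.1 hr)
      obtain ⟨-, g2, -, -, g5⟩ := u76_mem.1 (Finset.mem_coe.1 hs)
      have h6 := Nat.div_mul_cancel h5
      have g6 := Nat.div_mul_cancel g5
      have hrs' : (r - 1) / d = (s - 1) / d := hrs
      rw [hrs'] at h6
      have h2' := h2.two_le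
      have g2' := g2.two_le
      omega
  rwa [Nat.card_Icc, Nat.add_sub_cancel] at h

theorem u76_card_le {V D p d : ℕ} (hp : 2 ≤ p) (hd : 0 < d) (hDV : D ^ 2 ≤ V) (h3 : p ^ 3 ≤ V) :
    (u76S V D p d).card ≤ d := by
  have hge : ∀ r ∈ u76S V D p d, p ≤ r := by
    intro r hr
    obtain ⟨-, -, h4, -, -⟩ := u76_mem.1 hr
    by_contra hlt
    push Not at hlt
    have h5 : V < D * p := lt_of_lt_of_le h4 (Nat.mul_le_mul_left _ hlt.le)
    have h6 : p < D := by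
      by_contra hc
      push Not at hc
      have h7 : D * p ≤ p * p := Nat.mul_le_mul_right _ hc
      have h8 : p * p ≤ p ^ 3 := by
        rw [pow_succ, pow_two]
        exact Nat.le_mul_of_pos_right _ (by omega)
      omega
    have h9 : D * p ≤ D ^ 2 := by
      rw [pow_two]
      exact Nat.mul_le_mul_left _ h6.le
    omega
  have hprod : ∏ r ∈ u76S V D p d, r ∣ p ^ d - 1 :=
    Finset.prod_primes_dvd _ (fun r hr => (u76_mem.1 hr).2.1.prime)
      (fun r hr => (u76_mem.1 hr).2.2.2.1)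
  have hpos : 0 < p ^ d - 1 := Nat.sub_pos_of_lt (Nat.one_lt_pow hd.ne' (by omega))
  have hle := Nat.le_of_dvd hpos hprod
  have hpow : p ^ (u76S V D p d).card ≤ ∏ r ∈ u76S V D p d, r := by
    rw [← Finset.prod_const]
    exact Finset.prod_le_prod' hge
  have hlt : p ^ (u76S V D p d).card < p ^ d := by omega
  exact ((Nat.pow_lt_pow_iff_right (by omega)).1 hlt).le

theorem u76_card {V D p d : ℕ} (hp : 2 ≤ p) (hd : 0 < d) (hDV : D ^ 2 ≤ V) (h3 : p ^ 3 ≤ V) :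
    ((u76S V D p d).card : ℝ) ≤ (V : ℝ) ^ (1 / 2 : ℝ) := by
  have h1 := u76_card_div (V := V) (D := D) (p := p) hd
  have h2 := u76_card_le hp hd hDV h3
  have h4 : (u76S V D p d).card * (u76S V D p d).card ≤ V :=
    (Nat.mul_le_mul h2 h1).trans (Nat.mul_div_le V d)
  have h5 : ((u76S V D p d).card : ℝ) ^ 2 ≤ V := by
    rw [pow_two]
    exact_mod_cast h4
  rw [← Real.sqrt_eq_rpow]
  exact Real.le_sqrt_of_sq_le h5

theorem u76_exists {V D p N r : ℕ} (hp : 2 ≤ p) (hN : 0 < N) (hr : r.Prime) (hrV : r ≤ V)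
    (hVr : V < D * r) (hdiv : r ∣ cyc N p) : ∃ d ∈ N.divisors, r ∈ u76S V D p d := by
  haveI := Fact.mk hr
  have h0 : ((cyc N p : ℕ) : ZMod r) = 0 := (ZMod.natCast_eq_zero_iff _ _).2 hdiv
  have h1 : (p : ZMod r) ^ N = 1 := by
    have h2 := geom_sum_mul (p : ZMod r) N
    have h3 : ∑ i ∈ range N, (p : ZMod r) ^ i = 0 := by
      rw [← h0]
      unfold cyc
      push_cast
      rfl
    rw [h3, zero_mul] at h2
    exact sub_eq_zero.1 h2.symm
  have hp0 : (p : ZMod r) ≠ 0 := by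
    intro h
    rw [h, zero_pow hN.ne'] at h1
    exact zero_ne_one h1
  have hdN : orderOf (p : ZMod r) ∣ N := orderOf_dvd_of_pow_eq_one h1
  refine ⟨orderOf (p : ZMod r), Nat.mem_divisors.2 ⟨hdN, hN.ne'⟩, ?_⟩
  rw [u76_mem]
  refine ⟨hrV, hr, hVr, ?_, ?_⟩
  · rw [← ZMod.natCast_eq_zero_iff, Nat.cast_sub (Nat.one_le_pow _ _ (by omega)), Nat.cast_pow,
      pow_orderOf_eq_one]
    simp
  · exact ZMod.orderOf_dvd_card_sub_one hp0

theorem u76_fact {V n p : ℕ} (hn : 0 < n) (hlog : Real.log n ≤ V) (hp : p.Prime) (hV : 1 ≤ V) :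
    ((n.factorization p + 1 : ℕ) : ℝ) ≤ 3 * V := by
  have h1 : p ^ n.factorization p ≤ n := Nat.le_of_dvd hn (Nat.ordProj_dvd n p)
  have h2 : 2 ^ n.factorization p ≤ n := (Nat.pow_le_pow_left hp.two_le _).trans h1
  have h3 : (n.factorization p : ℝ) * Real.log 2 ≤ Real.log n := by
    rw [← Real.log_pow]
    exact Real.log_le_log (by positivity) (by exact_mod_cast h2)
  have h4 : (1 : ℝ) / 2 ≤ Real.log 2 := by
    have := Real.log_two_gt_d9
    linarith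
  have h5 : (0 : ℝ) ≤ (n.factorization p : ℝ) := Nat.cast_nonneg _
  have h6 : (1 : ℝ) ≤ V := by exact_mod_cast hV
  push_cast
  nlinarith

theorem u76_count {V n : ℕ} :
    (((n.primeFactors.filter (fun p => p ^ 3 ≤ V)).card : ℕ) : ℝ) ≤ (V : ℝ) ^ (1 / 3 : ℝ) := by
  have hV0 : (0 : ℝ) ≤ (V : ℝ) := Nat.cast_nonneg _
  have hsub : n.primeFactors.filter (fun p => p ^ 3 ≤ V) ⊆ Icc 1 ⌊(V : ℝ) ^ (1 / 3 : ℝ)⌋₊ := by
    intro p hp
    obtain ⟨h1, h2⟩ := Finset.mem_filter.1 hp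
    rw [Finset.mem_Icc]
    refine ⟨(Nat.prime_of_mem_primeFactors h1).one_le, Nat.le_floor ?_⟩
    have h3 : ((p : ℝ) ^ 3) ≤ V := by exact_mod_cast h2
    have h4 : (p : ℝ) = ((p : ℝ) ^ 3) ^ (1 / 3 : ℝ) := by
      rw [← Real.rpow_natCast, ← Real.rpow_mul (Nat.cast_nonneg p)]
      norm_num
    rw [h4]
    exact Real.rpow_le_rpow (by positivity) h3 (by norm_num)
  have h1 := Finset.card_le_card hsub
  rw [Nat.card_Icc, Nat.add_sub_cancel] at h1
  calc (((n.primeFactors.filter (fun p => p ^ 3 ≤ V)).card : ℕ) : ℝ)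
      ≤ (⌊(V : ℝ) ^ (1 / 3 : ℝ)⌋₊ : ℝ) := by exact_mod_cast h1
    _ ≤ _ := Nat.floor_le (Real.rpow_nonneg hV0 _)

open scoped Classical in
/-- small primes supply few large primes. -/
theorem bot (D : ℕ) (hD : 1 ≤ D) (η : ℝ) (hη : 0 < η) : ∃ V0 : ℕ, ∀ V n : ℕ, V0 ≤ V → 0 < n →
    Real.log n ≤ V →
      ∑ r ∈ (range (V + 1)).filter (fun r => r.Prime ∧ V < D * r ∧
        ∃ p ∈ n.primeFactors, p ^ 3 ≤ V ∧ r ∣ cyc (n.factorization p + 1) p), Real.log r ≤ η * V := by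
  obtain ⟨C, hC, hdiv⟩ := Pool.Agent.HAE.div_bound (1 / 24) (by norm_num)
  set C' : ℝ := C * (3 : ℝ) ^ (1 / 24 : ℝ) + 1 with hC'
  have h3p : (0 : ℝ) ≤ (3 : ℝ) ^ (1 / 24 : ℝ) := Real.rpow_nonneg (by norm_num) _
  have hC'0 : 0 < C' := by
    have := mul_nonneg hC h3p
    linarith
  have hcast : Filter.Tendsto (fun x : ℕ => (x : ℝ)) Filter.atTop Filter.atTop :=
    tendsto_natCast_atTop_atTop
  have e1 : ∀ᶠ x : ℕ in Filter.atTop, ‖Real.log x‖ ≤ (η / C') * ‖(x : ℝ) ^ (1 / 8 : ℝ)‖ :=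
    hcast.eventually ((isLittleO_log_rpow_atTop (by norm_num : (0 : ℝ) < 1 / 8)).def
      (by positivity : (0 : ℝ) < η / C'))
  obtain ⟨x0, hx0⟩ := Filter.eventually_atTop.1 e1
  refine ⟨max x0 (max (D ^ 2) 3), fun V n hV hn hlog => ?_⟩
  have hV1 : x0 ≤ V := (le_max_left _ _).trans hV
  have hV2 : D ^ 2 ≤ V := ((le_max_left _ _).trans (le_max_right _ _)).trans hV
  have hV3 : 3 ≤ V := ((le_max_right _ _).trans (le_max_right _ _)).trans hV
  have hVR : (3 : ℝ) ≤ V := by exact_mod_cast hV3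
  have hVpos : (0 : ℝ) < V := by linarith
  have hlogV : 0 ≤ Real.log V := Real.log_nonneg (by linarith)
  have f1 := hx0 V hV1
  rw [Real.norm_of_nonneg hlogV, Real.norm_of_nonneg (Real.rpow_nonneg hVpos.le _)] at f1
  set S := (range (V + 1)).filter (fun r => r.Prime ∧ V < D * r ∧
    ∃ p ∈ n.primeFactors, p ^ 3 ≤ V ∧ r ∣ cyc (n.factorization p + 1) p) with hS
  set P := n.primeFactors.filter (fun p => p ^ 3 ≤ V) with hP
  have hsub : S ⊆ P.biUnion fun p => (n.factorization p + 1).divisors.biUnion fun d =>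
      u76S V D p d := by
    intro r hr
    obtain ⟨h1, h2, h3, p, h4, h5, h6⟩ := Finset.mem_filter.1 hr
    rw [Finset.mem_range] at h1
    have hp := Nat.prime_of_mem_primeFactors h4
    obtain ⟨d, h7, h8⟩ := u76_exists (V := V) (D := D) hp.two_le (Nat.succ_pos _) h2 (by omega) h3 h6
    rw [Finset.mem_biUnion]
    refine ⟨p, Finset.mem_filter.2 ⟨h4, h5⟩, ?_⟩
    rw [Finset.mem_biUnion]
    exact ⟨d, h7, h8⟩
  have hcard : (S.card : ℝ) ≤ C' * (V : ℝ) ^ (7 / 8 : ℝ) := by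
    have h1 : (S.card : ℝ) ≤ ∑ p ∈ P, ∑ d ∈ (n.factorization p + 1).divisors,
        ((u76S V D p d).card : ℝ) := by
      have h2 : S.card ≤ ∑ p ∈ P, ∑ d ∈ (n.factorization p + 1).divisors, (u76S V D p d).card :=
        (Finset.card_le_card hsub).trans (Finset.card_biUnion_le.trans
          (Finset.sum_le_sum fun p _ => Finset.card_biUnion_le))
      exact_mod_cast h2
    have h2 : ∀ p ∈ P, ∑ d ∈ (n.factorization p + 1).divisors, ((u76S V D p d).card : ℝ) ≤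
        (C * ((3 : ℝ) ^ (1 / 24 : ℝ) * (V : ℝ) ^ (1 / 24 : ℝ))) * (V : ℝ) ^ (1 / 2 : ℝ) := by
      intro p hp
      obtain ⟨h4, h5⟩ := Finset.mem_filter.1 hp
      have hpp := Nat.prime_of_mem_primeFactors h4
      have h6 : ∑ d ∈ (n.factorization p + 1).divisors, ((u76S V D p d).card : ℝ) ≤
          ∑ d ∈ (n.factorization p + 1).divisors, (V : ℝ) ^ (1 / 2 : ℝ) :=
        Finset.sum_le_sum fun d hd =>
          u76_card hpp.two_le (Nat.pos_of_mem_divisors hd) hV2 h5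
      rw [Finset.sum_const, nsmul_eq_mul] at h6
      refine h6.trans (mul_le_mul_of_nonneg_right ?_ (Real.rpow_nonneg hVpos.le _))
      refine (hdiv _ (Nat.succ_le_succ (Nat.zero_le _))).trans
        (mul_le_mul_of_nonneg_left ?_ hC)
      rw [← Real.mul_rpow (by norm_num) hVpos.le]
      exact Real.rpow_le_rpow (Nat.cast_nonneg _) (u76_fact hn hlog hpp (by omega)) (by norm_num)
    have h3 : ∑ p ∈ P, ∑ d ∈ (n.factorization p + 1).divisors, ((u76S V D p d).card : ℝ) ≤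
        (P.card : ℝ) * ((C * ((3 : ℝ) ^ (1 / 24 : ℝ) * (V : ℝ) ^ (1 / 24 : ℝ))) *
          (V : ℝ) ^ (1 / 2 : ℝ)) := by
      have := Finset.sum_le_sum h2
      rwa [Finset.sum_const, nsmul_eq_mul] at this
    have h4 : 0 ≤ (C * ((3 : ℝ) ^ (1 / 24 : ℝ) * (V : ℝ) ^ (1 / 24 : ℝ))) *
        (V : ℝ) ^ (1 / 2 : ℝ) := by
      have := Real.rpow_nonneg hVpos.le (1 / 24 : ℝ)
      have := Real.rpow_nonneg hVpos.le (1 / 2 : ℝ)
      positivity
    have h5 : (V : ℝ) ^ (1 / 3 : ℝ) * ((C * ((3 : ℝ) ^ (1 / 24 : ℝ) * (V : ℝ) ^ (1 / 24 : ℝ))) *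
        (V : ℝ) ^ (1 / 2 : ℝ)) = (C * (3 : ℝ) ^ (1 / 24 : ℝ)) * (V : ℝ) ^ (7 / 8 : ℝ) := by
      have h6 : (V : ℝ) ^ (7 / 8 : ℝ) =
          (V : ℝ) ^ (1 / 3 : ℝ) * ((V : ℝ) ^ (1 / 24 : ℝ) * (V : ℝ) ^ (1 / 2 : ℝ)) := by
        rw [← Real.rpow_add hVpos, ← Real.rpow_add hVpos]
        norm_num
      rw [h6]
      ring
    calc (S.card : ℝ) ≤ (P.card : ℝ) * ((C * ((3 : ℝ) ^ (1 / 24 : ℝ) *
          (V : ℝ) ^ (1 / 24 : ℝ))) * (V : ℝ) ^ (1 / 2 : ℝ)) := h1.trans h3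
      _ ≤ (V : ℝ) ^ (1 / 3 : ℝ) * ((C * ((3 : ℝ) ^ (1 / 24 : ℝ) *
          (V : ℝ) ^ (1 / 24 : ℝ))) * (V : ℝ) ^ (1 / 2 : ℝ)) :=
          mul_le_mul_of_nonneg_right u76_count h4
      _ = (C * (3 : ℝ) ^ (1 / 24 : ℝ)) * (V : ℝ) ^ (7 / 8 : ℝ) := h5
      _ ≤ C' * (V : ℝ) ^ (7 / 8 : ℝ) := by
          apply mul_le_mul_of_nonneg_right _ (Real.rpow_nonneg hVpos.le _)
          rw [hC']
          linarith
  have hsum : ∑ r ∈ S, Real.log r ≤ (S.card : ℝ) * Real.log V := by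
    have h1 : ∑ r ∈ S, Real.log r ≤ ∑ r ∈ S, Real.log V := by
      refine Finset.sum_le_sum fun r hr => ?_
      obtain ⟨h1, h2, -⟩ := Finset.mem_filter.1 hr
      rw [Finset.mem_range] at h1
      exact Real.log_le_log (by exact_mod_cast h2.pos) (by exact_mod_cast (by omega : r ≤ V))
    rwa [Finset.sum_const, nsmul_eq_mul] at h1
  calc ∑ r ∈ S, Real.log r ≤ (S.card : ℝ) * Real.log V := hsum
    _ ≤ (C' * (V : ℝ) ^ (7 / 8 : ℝ)) * Real.log V := mul_le_mul_of_nonneg_right hcard hlogV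
    _ ≤ (C' * (V : ℝ) ^ (7 / 8 : ℝ)) * (η / C' * (V : ℝ) ^ (1 / 8 : ℝ)) :=
        mul_le_mul_of_nonneg_left f1 (by
          have := Real.rpow_nonneg hVpos.le (7 / 8 : ℝ)
          positivity)
    _ = η * ((V : ℝ) ^ (7 / 8 : ℝ) * (V : ℝ) ^ (1 / 8 : ℝ)) := by
        field_simp
    _ = η * V := by
        rw [← Real.rpow_add hVpos]
        norm_num

end Pool.Agent.helper6.MG
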