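import Pool.Agent.helper20.MPN.D

set_option autoImplicit false

open Finset Pool.Agent.helper20.MPN

namespace Pool.Agent.helper6.MG

/-- divisors `f p` of the `cyc (a p + 1) p`, all of whose prime factors satisfy `C` -/
theorem wl_core {n k : ℕ} (hn : 0 < n) (hk : 0 < k) (hs : ArithmeticFunction.sigma 1 n = k * n)
    (C : ℕ → Prop) [DecidablePred C] (A : Finset ℕ) (hA : A ⊆ n.primeFactors) (f : ℕ → ℕ)
    (hf0 : ∀ p ∈ A, 0 < f p) (hf : ∀ p ∈ A, f p ∣ cyc (n.factorization p + 1) p)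
    (hfC : ∀ p ∈ A, ∀ r : ℕ, r.Prime → r ∣ f p → C r) :
    ∑ p ∈ A, Real.log (f p) ≤
      ∑ p ∈ n.primeFactors.filter C, (n.factorization p : ℝ) * Real.log p + Real.log k := by
  have hsplit : (∏ q ∈ n.primeFactors.filter C, q ^ n.factorization q) *
      (∏ q ∈ n.primeFactors.filter (fun q => ¬ C q), q ^ n.factorization q) = n := by
    rw [Finset.prod_filter_mul_prod_filter_not]
    exact Nat.prod_factorization_pow_eq_self hn.ne'
  have h1 : ∏ p ∈ A, f p ∣ k * n := by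
    rw [← hs, D_sigma_eq hn]
    exact (Finset.prod_dvd_prod_of_dvd _ _ hf).trans (Finset.prod_dvd_prod_of_subset _ _ _ hA)
  have hcop : Nat.Coprime (∏ p ∈ A, f p)
      (∏ q ∈ n.primeFactors.filter (fun q => ¬ C q), q ^ n.factorization q) := by
    refine Nat.Coprime.prod_left fun p hp => Nat.Coprime.prod_right fun q hq => ?_
    obtain ⟨hq1, hq2⟩ := Finset.mem_filter.mp hq
    have hqp : q.Prime := Nat.prime_of_mem_primeFactors hq1
    refine Nat.Coprime.pow_right _ ?_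
    refine Nat.Coprime.symm ((Nat.Prime.coprime_iff_not_dvd hqp).mpr fun h => ?_)
    exact hq2 (hfC p hp q hqp h)
  have h2 : ∏ p ∈ A, f p ∣ k * ∏ q ∈ n.primeFactors.filter C, q ^ n.factorization q := by
    rw [← hsplit, ← mul_assoc] at h1
    exact hcop.dvd_of_dvd_mul_right h1
  have hN1 : 0 < ∏ q ∈ n.primeFactors.filter C, q ^ n.factorization q :=
    Finset.prod_pos fun q hq =>
      pow_pos (Nat.prime_of_mem_primeFactors (Finset.mem_filter.mp hq).1).pos _
  have hle := Nat.le_of_dvd (Nat.mul_pos hk hN1) h2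
  have hpos : 0 < ∏ p ∈ A, f p := Finset.prod_pos hf0
  have h3 : Real.log ((∏ p ∈ A, f p : ℕ) : ℝ) ≤
      Real.log ((k * ∏ q ∈ n.primeFactors.filter C, q ^ n.factorization q : ℕ) : ℝ) :=
    Real.log_le_log (by exact_mod_cast hpos) (by exact_mod_cast hle)
  have h4 : Real.log ((∏ p ∈ A, f p : ℕ) : ℝ) = ∑ p ∈ A, Real.log (f p) := by
    push_cast
    rw [Real.log_prod]
    intro p hp
    have := hf0 p hp
    positivity
  have h5 : Real.log ((k * ∏ q ∈ n.primeFactors.filter C, q ^ n.factorization q : ℕ) : ℝ) =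
      Real.log k + ∑ p ∈ n.primeFactors.filter C, (n.factorization p : ℝ) * Real.log p := by
    have hk' : (k : ℝ) ≠ 0 := by exact_mod_cast hk.ne'
    have hN' : ((∏ q ∈ n.primeFactors.filter C, q ^ n.factorization q : ℕ) : ℝ) ≠ 0 := by
      exact_mod_cast hN1.ne'
    rw [Nat.cast_mul, Real.log_mul hk' hN']
    push_cast
    rw [Real.log_prod]
    · congr 1
      exact Finset.sum_congr rfl fun p _ => Real.log_pow _ _
    · intro p hp
      have := (Nat.prime_of_mem_primeFactors (Finset.mem_filter.mp hp).1).pos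
      positivity
  rw [h4, h5] at h3
  linarith

theorem wl_pow {V s P q : ℕ} (hs1 : 1 ≤ s) (hq : 0 < q) (hqV : q ≤ V) (hP : V < P ^ s) :
    1 / (s : ℝ) * Real.log q ≤ Real.log P := by
  have hs0 : (0 : ℝ) < s := by exact_mod_cast hs1
  have h1 : Real.log q ≤ Real.log ((P ^ s : ℕ) : ℝ) :=
    Real.log_le_log (by exact_mod_cast hq) (by exact_mod_cast (by omega : q ≤ P ^ s))
  push_cast at h1
  rw [Real.log_pow] at h1
  rw [one_div, inv_mul_le_iff₀ hs0]
  exact h1

open scoped Classical in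
/-- W2: mass of the low primes. -/
theorem W_low {n k : ℕ} (hn : 0 < n) (hk : 0 < k) (hs : ArithmeticFunction.sigma 1 n = k * n)
    (Z V T s : ℕ) (hs1 : 1 ≤ s) (hT : 1 ≤ T) (hZ : ∀ P : ℕ, P ^ T ≤ V → P ≤ Z) :
    ∑ q ∈ n.primeFactors.filter (fun q => (Z < q ∧ q ≤ V) ∧ n.factorization q = 1), Real.log q +
        1 / s * ∑ q ∈ n.primeFactors.filter (fun q => (Z < q ∧ q ≤ V) ∧ n.factorization q = 2),
          Real.log q ≤
      ∑ p ∈ n.primeFactors.filter (fun p => p ≤ Z), (n.factorization p : ℝ) * Real.log p +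
        Real.log k +
        ∑ p ∈ (range (V + 1)).filter (fun p => p.Prime ∧ ∃ q : ℕ, q.Prime ∧ Z < q ∧ q ∣ p + 1),
          Real.log p +
        1 / s * ∑ q ∈ (range (V + 1)).filter (fun q => q.Prime ∧ ∀ P ∈ range (V + 1), P.Prime →
          P ^ T ≤ V → V < P ^ s → ¬ P ∣ cyc 3 q), Real.log q := by
  set B1 := (range (V + 1)).filter
    (fun p => p.Prime ∧ ∃ q : ℕ, q.Prime ∧ Z < q ∧ q ∣ p + 1) with hB1
  set B3 := (range (V + 1)).filter (fun q => q.Prime ∧ ∀ P ∈ range (V + 1), P.Prime →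
    P ^ T ≤ V → V < P ^ s → ¬ P ∣ cyc 3 q) with hB3
  set G1 := n.primeFactors.filter (fun q => (Z < q ∧ q ≤ V) ∧ n.factorization q = 1) with hG1
  set G2 := n.primeFactors.filter (fun q => (Z < q ∧ q ≤ V) ∧ n.factorization q = 2) with hG2
  set A1 := G1.filter (fun q => q ∉ B1) with hA1
  set A2 := G2.filter (fun q => q ∉ B3) with hA2
  have hs0 : (0 : ℝ) < s := by exact_mod_cast hs1
  have hlogp : ∀ p : ℕ, 0 ≤ Real.log (p : ℝ) := fun p => Real.log_natCast_nonneg p
  have hP : ∀ q : ℕ, ∃ P : ℕ, q ∈ A2 → P.Prime ∧ P ^ T ≤ V ∧ V < P ^ s ∧ P ∣ cyc 3 q := by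
    intro q
    by_cases hq : q ∈ A2
    · obtain ⟨hq1, hq2⟩ := Finset.mem_filter.mp hq
      obtain ⟨hq3, ⟨hq4, hq5⟩, hq6⟩ := Finset.mem_filter.mp hq1
      by_contra hcon
      refine hq2 (Finset.mem_filter.mpr ⟨Finset.mem_range.mpr (by omega),
        Nat.prime_of_mem_primeFactors hq3, fun P _ h1 h2 h3 h4 => ?_⟩)
      exact hcon ⟨P, fun _ => ⟨h1, h2, h3, h4⟩⟩
    · exact ⟨0, fun h => absurd h hq⟩
  choose P hP using hP
  set f : ℕ → ℕ := fun p => if p ∈ A2 then P p else p + 1 with hf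
  have hdis : ∀ p ∈ A1, p ∉ A2 := by
    intro p hp hp2
    have h1 := (Finset.mem_filter.mp (Finset.mem_filter.mp hp).1).2.2
    have h2 := (Finset.mem_filter.mp (Finset.mem_filter.mp hp2).1).2.2
    omega
  have hcore := wl_core hn hk hs (fun p => p ≤ Z) (A1 ∪ A2)
    (Finset.union_subset ((Finset.filter_subset _ _).trans (Finset.filter_subset _ _))
      ((Finset.filter_subset _ _).trans (Finset.filter_subset _ _))) f
    (fun p hp => by
      simp only [hf]
      split_ifs with h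
      · exact (hP p h).1.pos
      · exact Nat.succ_pos p)
    (fun p hp => by
      simp only [hf]
      split_ifs with h
      · rw [(Finset.mem_filter.mp (Finset.mem_filter.mp h).1).2.2]
        exact (hP p h).2.2.2
      · have h1 : p ∈ A1 := (Finset.mem_union.mp hp).resolve_right h
        rw [(Finset.mem_filter.mp (Finset.mem_filter.mp h1).1).2.2]
        have h2 : cyc (1 + 1) p = p + 1 := by
          unfold cyc
          simp [Finset.sum_range_succ]
          ring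
        rw [h2])
    (fun p hp r hr hrd => by
      simp only [hf] at hrd
      split_ifs at hrd with h
      · have h1 : r = P p := (Nat.prime_dvd_prime_iff_eq hr (hP p h).1).1 hrd
        rw [h1]
        exact hZ _ (hP p h).2.1
      · have h1 : p ∈ A1 := (Finset.mem_union.mp hp).resolve_right h
        obtain ⟨h2, h3⟩ := Finset.mem_filter.mp h1
        obtain ⟨h4, ⟨h5, h6⟩, h7⟩ := Finset.mem_filter.mp h2
        by_contra hcon
        exact h3 (Finset.mem_filter.mpr ⟨Finset.mem_range.mpr (by omega),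
          Nat.prime_of_mem_primeFactors h4, r, hr, by omega, hrd⟩))
  rw [Finset.sum_union (Finset.disjoint_left.mpr hdis)] at hcore
  have hc1 : ∑ p ∈ A1, Real.log (p : ℝ) ≤ ∑ p ∈ A1, Real.log (f p) := by
    refine Finset.sum_le_sum fun p hp => ?_
    have hp0 := (Nat.prime_of_mem_primeFactors
      (Finset.mem_filter.mp (Finset.mem_filter.mp hp).1).1).pos
    simp only [hf]
    rw [if_neg (hdis p hp)]
    exact Real.log_le_log (by exact_mod_cast hp0) (by exact_mod_cast Nat.le_succ p)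
  have hc2 : 1 / (s : ℝ) * ∑ p ∈ A2, Real.log (p : ℝ) ≤ ∑ p ∈ A2, Real.log (f p) := by
    rw [Finset.mul_sum]
    refine Finset.sum_le_sum fun p hp => ?_
    obtain ⟨hq3, ⟨hq4, hq5⟩, hq6⟩ := Finset.mem_filter.mp (Finset.mem_filter.mp hp).1
    simp only [hf]
    rw [if_pos hp]
    exact wl_pow hs1 (Nat.prime_of_mem_primeFactors hq3).pos hq5 (hP p hp).2.2.1
  have hG1A : ∑ q ∈ G1, Real.log (q : ℝ) ≤
      ∑ q ∈ A1, Real.log (q : ℝ) + ∑ p ∈ B1, Real.log (p : ℝ) := by
    have h1 := Finset.sum_filter_add_sum_filter_not G1 (fun q => q ∉ B1)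
      (fun q : ℕ => Real.log (q : ℝ))
    have h2 : ∑ q ∈ G1.filter (fun q => ¬ q ∉ B1), Real.log (q : ℝ) ≤
        ∑ p ∈ B1, Real.log (p : ℝ) := by
      refine Finset.sum_le_sum_of_subset_of_nonneg (fun r hr => ?_) fun r _ _ => hlogp r
      exact not_not.mp (Finset.mem_filter.mp hr).2
    linarith
  have hG2A : ∑ q ∈ G2, Real.log (q : ℝ) ≤
      ∑ q ∈ A2, Real.log (q : ℝ) + ∑ p ∈ B3, Real.log (p : ℝ) := by
    have h1 := Finset.sum_filter_add_sum_filter_not G2 (fun q => q ∉ B3)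
      (fun q : ℕ => Real.log (q : ℝ))
    have h2 : ∑ q ∈ G2.filter (fun q => ¬ q ∉ B3), Real.log (q : ℝ) ≤
        ∑ p ∈ B3, Real.log (p : ℝ) := by
      refine Finset.sum_le_sum_of_subset_of_nonneg (fun r hr => ?_) fun r _ _ => hlogp r
      exact not_not.mp (Finset.mem_filter.mp hr).2
    linarith
  have hG2s : 1 / (s : ℝ) * ∑ q ∈ G2, Real.log (q : ℝ) ≤
      1 / (s : ℝ) * ∑ q ∈ A2, Real.log (q : ℝ) + 1 / (s : ℝ) * ∑ p ∈ B3, Real.log (p : ℝ) := by
    rw [← mul_add]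
    exact mul_le_mul_of_nonneg_left hG2A (by positivity)
  linarith

/-- W3: mass of the bottom primes. -/
theorem W_bot {n k : ℕ} (hn : 0 < n) (hk : 0 < k) (hs : ArithmeticFunction.sigma 1 n = k * n)
    (Z V T s : ℕ) (hs1 : 1 ≤ s) (hT : 3 ≤ T) :
    1 / s * ∑ q ∈ n.primeFactors.filter (fun q => (Z < q ∧ q ≤ V) ∧ n.factorization q = 1),
        Real.log q ≤
      ∑ p ∈ n.primeFactors.filter (fun p => p ^ 3 ≤ V), (n.factorization p : ℝ) * Real.log p +
        Real.log k +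
        1 / s * ∑ q ∈ (range (V + 1)).filter (fun q => q.Prime ∧ ∀ P ∈ range (V + 1), P.Prime →
          P ^ T ≤ V → V < P ^ s → ¬ P ∣ cyc 2 q), Real.log q := by
  classical
  generalize hB3 : (range (V + 1)).filter (fun q => q.Prime ∧ ∀ P ∈ range (V + 1), P.Prime →
    P ^ T ≤ V → V < P ^ s → ¬ P ∣ cyc 2 q) = B3
  set G1 := n.primeFactors.filter (fun q => (Z < q ∧ q ≤ V) ∧ n.factorization q = 1) with hG1
  set A2 := G1.filter (fun q => q ∉ B3) with hA2
  have hs0 : (0 : ℝ) < s := by exact_mod_cast hs1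
  have hlogp : ∀ p : ℕ, 0 ≤ Real.log (p : ℝ) := fun p => Real.log_natCast_nonneg p
  have hP : ∀ q : ℕ, ∃ P : ℕ, q ∈ A2 → P.Prime ∧ P ^ T ≤ V ∧ V < P ^ s ∧ P ∣ cyc 2 q := by
    intro q
    by_cases hq : q ∈ A2
    · obtain ⟨hq1, hq2⟩ := Finset.mem_filter.mp hq
      obtain ⟨hq3, ⟨hq4, hq5⟩, hq6⟩ := Finset.mem_filter.mp hq1
      by_contra hcon
      rw [← hB3] at hq2
      refine hq2 (Finset.mem_filter.mpr ⟨Finset.mem_range.mpr (by omega),
        Nat.prime_of_mem_primeFactors hq3, fun P _ h1 h2 h3 h4 => ?_⟩)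
      exact hcon ⟨P, fun _ => ⟨h1, h2, h3, h4⟩⟩
    · exact ⟨0, fun h => absurd h hq⟩
  choose P hP using hP
  have hcore := wl_core hn hk hs (fun p => p ^ 3 ≤ V) A2
    ((Finset.filter_subset _ _).trans (Finset.filter_subset _ _)) P
    (fun p hp => (hP p hp).1.pos)
    (fun p hp => by
      rw [(Finset.mem_filter.mp (Finset.mem_filter.mp hp).1).2.2]
      exact (hP p hp).2.2.2)
    (fun p hp r hr hrd => by
      have h1 : r = P p := (Nat.prime_dvd_prime_iff_eq hr (hP p hp).1).1 hrd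
      rw [h1]
      exact (Nat.pow_le_pow_right (hP p hp).1.pos hT).trans (hP p hp).2.1)
  have hc2 : 1 / (s : ℝ) * ∑ p ∈ A2, Real.log (p : ℝ) ≤ ∑ p ∈ A2, Real.log (P p) := by
    rw [Finset.mul_sum]
    refine Finset.sum_le_sum fun p hp => ?_
    obtain ⟨hq3, ⟨hq4, hq5⟩, hq6⟩ := Finset.mem_filter.mp (Finset.mem_filter.mp hp).1
    exact wl_pow hs1 (Nat.prime_of_mem_primeFactors hq3).pos hq5 (hP p hp).2.2.1
  have hG2A : ∑ q ∈ G1, Real.log (q : ℝ) ≤
      ∑ q ∈ A2, Real.log (q : ℝ) + ∑ p ∈ B3, Real.log (p : ℝ) := by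
    have h1 := Finset.sum_filter_add_sum_filter_not G1 (fun q => q ∉ B3)
      (fun q : ℕ => Real.log (q : ℝ))
    have h2 : ∑ q ∈ G1.filter (fun q => ¬ q ∉ B3), Real.log (q : ℝ) ≤
        ∑ p ∈ B3, Real.log (p : ℝ) := by
      refine Finset.sum_le_sum_of_subset_of_nonneg (fun r hr => ?_) fun r _ _ => hlogp r
      exact not_not.mp (Finset.mem_filter.mp hr).2
    linarith
  have hG2s : 1 / (s : ℝ) * ∑ q ∈ G1, Real.log (q : ℝ) ≤
      1 / (s : ℝ) * ∑ q ∈ A2, Real.log (q : ℝ) + 1 / (s : ℝ) * ∑ p ∈ B3, Real.log (p : ℝ) := by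
    rw [← mul_add]
    exact mul_le_mul_of_nonneg_left hG2A (by positivity)
  linarith

end Pool.Agent.helper6.MG
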