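import Pool.Agent.helper20.MPN.D

set_option autoImplicit false

open Finset Pool.Agent.helper20.MPN

namespace Pool.Agent.helper6.MG

theorem wt_cyc_pos {l x : ℕ} : 0 < cyc (l + 1) x := by
  unfold cyc
  rw [Finset.sum_range_succ']
  simp

theorem wt_pow_le {l x : ℕ} : x ^ l ≤ cyc (l + 1) x := by
  unfold cyc
  exact Finset.single_le_sum (f := fun i => x ^ i) (fun i _ => Nat.zero_le _)
    (Finset.mem_range.mpr (Nat.lt_succ_self l))

theorem wt_dvd {n k : ℕ} (hn : 0 < n) (hs : ArithmeticFunction.sigma 1 n = k * n) {q : ℕ}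
    (hq : q ∈ n.primeFactors) :
    ∃ p ∈ n.primeFactors, q ∣ cyc (n.factorization p + 1) p := by
  have hqp : q.Prime := Nat.prime_of_mem_primeFactors hq
  have h1 : q ∣ ∏ p ∈ n.primeFactors, cyc (n.factorization p + 1) p := by
    rw [← D_sigma_eq hn, hs]
    exact dvd_mul_of_dvd_right (Nat.dvd_of_mem_primeFactors hq) k
  exact (hqp.prime.dvd_finsetProd_iff _).mp h1

theorem wt_logn {n : ℕ} (hn : 0 < n) :
    Real.log (n : ℝ) = ∑ p ∈ n.primeFactors, (n.factorization p : ℝ) * Real.log p := by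
  have hn' : (n : ℝ) = ∏ p ∈ n.primeFactors, ((p : ℝ) ^ n.factorization p) := by
    conv_lhs => rw [← Nat.prod_factorization_pow_eq_self hn.ne']
    rw [Finsupp.prod, Nat.support_factorization]
    push_cast
    rfl
  conv_lhs => rw [hn']
  rw [Real.log_prod]
  · exact Finset.sum_congr rfl fun p _ => Real.log_pow _ _
  · intro p hp
    have := (Nat.prime_of_mem_primeFactors hp).pos
    positivity

/-- the primes of `R` are supplied by the `p` of `U` -/
theorem wt_supply {n k : ℕ} (hn : 0 < n) (hk : 0 < k)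
    (hs : ArithmeticFunction.sigma 1 n = k * n) (R U : Finset ℕ)
    (hR : R ⊆ n.primeFactors) (hU : U ⊆ n.primeFactors)
    (hRU : ∀ r ∈ R, ∃ p ∈ U, r ∣ cyc (n.factorization p + 1) p) :
    ∑ r ∈ R, Real.log r ≤
      ∑ p ∈ U, (n.factorization p : ℝ) * Real.log p + Real.log k := by
  have hdvd : ∏ q ∈ R, q ∣ ∏ p ∈ U, cyc (n.factorization p + 1) p := by
    refine Finset.prod_primes_dvd _ (fun q hq => ?_) (fun q hq => ?_)
    · exact (Nat.prime_of_mem_primeFactors (hR hq)).prime
    · obtain ⟨p, hp, hpd⟩ := hRU q hq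
      exact hpd.trans (Finset.dvd_prod_of_mem (fun p => cyc (n.factorization p + 1) p) hp)
  have hUpos : 0 < ∏ p ∈ U, cyc (n.factorization p + 1) p :=
    Finset.prod_pos fun p _ => wt_cyc_pos
  have hle : ∏ q ∈ R, q ≤ ∏ p ∈ U, cyc (n.factorization p + 1) p := Nat.le_of_dvd hUpos hdvd
  have hTlog : Real.log ((∏ q ∈ R, q : ℕ) : ℝ) = ∑ q ∈ R, Real.log q := by
    push_cast
    rw [Real.log_prod]
    intro q hq
    have := (Nat.prime_of_mem_primeFactors (hR hq)).pos
    positivity
  have hcyclog : ∀ S : Finset ℕ, Real.log ((∏ p ∈ S, cyc (n.factorization p + 1) p : ℕ) : ℝ) =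
      ∑ p ∈ S, Real.log (cyc (n.factorization p + 1) p : ℝ) := by
    intro S
    push_cast
    rw [Real.log_prod]
    intro p _
    have : 0 < cyc (n.factorization p + 1) p := wt_cyc_pos
    positivity
  have hTpos : 0 < ∏ q ∈ R, q :=
    Finset.prod_pos fun q hq => (Nat.prime_of_mem_primeFactors (hR hq)).pos
  have h1 : ∑ q ∈ R, Real.log q ≤ ∑ p ∈ U, Real.log (cyc (n.factorization p + 1) p : ℝ) := by
    rw [← hTlog, ← hcyclog U]
    exact Real.log_le_log (by exact_mod_cast hTpos) (by exact_mod_cast hle)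
  have hnn : ∀ p ∈ n.primeFactors, 0 ≤ Real.log (cyc (n.factorization p + 1) p : ℝ) -
      (n.factorization p : ℝ) * Real.log p := by
    intro p hp
    have hpp : p.Prime := Nat.prime_of_mem_primeFactors hp
    have h : Real.log ((p ^ n.factorization p : ℕ) : ℝ) ≤
        Real.log (cyc (n.factorization p + 1) p : ℝ) := by
      refine Real.log_le_log ?_ ?_
      · have := pow_pos hpp.pos (n.factorization p)
        exact_mod_cast this
      · exact_mod_cast wt_pow_le
    push_cast at h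
    rw [Real.log_pow] at h
    linarith
  have hnlog := wt_logn hn
  have hslog : ∑ p ∈ n.primeFactors, Real.log (cyc (n.factorization p + 1) p : ℝ) =
      Real.log k + Real.log n := by
    rw [← hcyclog, ← D_sigma_eq hn, hs]
    push_cast
    have hk' : (k : ℝ) ≠ 0 := by exact_mod_cast hk.ne'
    have hn'' : (n : ℝ) ≠ 0 := by exact_mod_cast hn.ne'
    exact Real.log_mul hk' hn''
  have h2 : ∑ p ∈ U, (Real.log (cyc (n.factorization p + 1) p : ℝ) -
      (n.factorization p : ℝ) * Real.log p) ≤ Real.log k := by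
    calc ∑ p ∈ U, (Real.log (cyc (n.factorization p + 1) p : ℝ) -
          (n.factorization p : ℝ) * Real.log p)
        ≤ ∑ p ∈ n.primeFactors, (Real.log (cyc (n.factorization p + 1) p : ℝ) -
          (n.factorization p : ℝ) * Real.log p) :=
          Finset.sum_le_sum_of_subset_of_nonneg hU fun p hp _ => hnn p hp
      _ = Real.log k := by
          rw [Finset.sum_sub_distrib, hslog, ← hnlog]
          ring
  rw [Finset.sum_sub_distrib] at h2
  linarith

open scoped Classical in
/-- W4: supply of the top primes. -/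
theorem W_top {n k : ℕ} (hn : 0 < n) (hk : 0 < k) (hs : ArithmeticFunction.sigma 1 n = k * n)
    (Z V D : ℕ) (hD : ∀ r : ℕ, Z < r → V < D * r) (hZ : ∀ P : ℕ, P ^ 3 ≤ V → P ≤ Z) :
    ∑ r ∈ n.primeFactors.filter (fun r => Z < r ∧ r ≤ V), Real.log r +
        ∑ q ∈ n.primeFactors.filter (fun q => (Z < q ∧ q ≤ V) ∧ n.factorization q = 1), Real.log q +
        ∑ p ∈ n.primeFactors.filter (fun p => p ^ 3 ≤ V), (n.factorization p : ℝ) * Real.log p ≤
      Real.log n + Real.log k +
        ∑ p ∈ (range (V + 1)).filter (fun p => p.Prime ∧ ∃ q : ℕ, q.Prime ∧ Z < q ∧ q ∣ p + 1),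
          Real.log p +
        ∑ r ∈ (range (V + 1)).filter (fun r => r.Prime ∧ V < D * r ∧
          ∃ p ∈ n.primeFactors, p ^ 3 ≤ V ∧ r ∣ cyc (n.factorization p + 1) p), Real.log r := by
  set B1 := (range (V + 1)).filter
    (fun p => p.Prime ∧ ∃ q : ℕ, q.Prime ∧ Z < q ∧ q ∣ p + 1) with hB1
  set B2 := (range (V + 1)).filter (fun r => r.Prime ∧ V < D * r ∧
    ∃ p ∈ n.primeFactors, p ^ 3 ≤ V ∧ r ∣ cyc (n.factorization p + 1) p) with hB2
  set M := n.primeFactors.filter (fun r => Z < r ∧ r ≤ V) with hM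
  set G := n.primeFactors.filter (fun q => (Z < q ∧ q ≤ V) ∧ n.factorization q = 1) with hG
  set L := n.primeFactors.filter (fun p => p ^ 3 ≤ V) with hL
  set R := M.filter (fun r => r ∉ B2) with hR
  set U := n.primeFactors.filter (fun p => ∃ r ∈ R, r ∣ cyc (n.factorization p + 1) p) with hU
  set G' := n.primeFactors.filter
    (fun q => ((Z < q ∧ q ≤ V) ∧ n.factorization q = 1) ∧ q ∉ B1) with hG'
  have hlogp : ∀ p : ℕ, 0 ≤ Real.log (p : ℝ) := fun p => Real.log_natCast_nonneg p
  -- no source of a prime of `R` is a bottom prime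
  have hUL : ∀ p ∈ n.primeFactors, (∃ r ∈ R, r ∣ cyc (n.factorization p + 1) p) →
      ¬ p ^ 3 ≤ V := by
    rintro p hp ⟨r, hr, hrd⟩ hp3
    obtain ⟨hr1, hr2⟩ := Finset.mem_filter.mp hr
    obtain ⟨hr3, hr4, hr5⟩ := Finset.mem_filter.mp hr1
    exact hr2 (Finset.mem_filter.mpr ⟨Finset.mem_range.mpr (by omega),
      Nat.prime_of_mem_primeFactors hr3, hD r hr4, p, hp, hp3, hrd⟩)
  -- no source of a prime of `R` is in `G'`
  have hUG : ∀ p ∈ n.primeFactors, (∃ r ∈ R, r ∣ cyc (n.factorization p + 1) p) →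
      ¬ (((Z < p ∧ p ≤ V) ∧ n.factorization p = 1) ∧ p ∉ B1) := by
    rintro p hp ⟨r, hr, hrd⟩ ⟨⟨⟨h1, h2⟩, h3⟩, h4⟩
    obtain ⟨hr1, hr2⟩ := Finset.mem_filter.mp hr
    obtain ⟨hr3, hr4, hr5⟩ := Finset.mem_filter.mp hr1
    have hcyc : cyc (n.factorization p + 1) p = p + 1 := by
      rw [h3]
      unfold cyc
      simp [Finset.sum_range_succ]
      ring
    rw [hcyc] at hrd
    exact h4 (Finset.mem_filter.mpr ⟨Finset.mem_range.mpr (by omega),
      Nat.prime_of_mem_primeFactors hp, r, Nat.prime_of_mem_primeFactors hr3, hr4, hrd⟩)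
  have hsup := wt_supply hn hk hs R U
    ((Finset.filter_subset _ _).trans (Finset.filter_subset _ _)) (Finset.filter_subset _ _)
    (fun r hr => by
      obtain ⟨hr1, _⟩ := Finset.mem_filter.mp hr
      obtain ⟨p, hp, hpd⟩ := wt_dvd hn hs (Finset.mem_filter.mp hr1).1
      exact ⟨p, Finset.mem_filter.mpr ⟨hp, r, hr, hpd⟩, hpd⟩)
  -- the three disjoint sets
  have hthree : ∑ p ∈ U, (n.factorization p : ℝ) * Real.log p + ∑ q ∈ G', Real.log (q : ℝ) +
      ∑ p ∈ L, (n.factorization p : ℝ) * Real.log p ≤ Real.log n := by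
    rw [wt_logn hn, hU, hG', hL, Finset.sum_filter (s := n.primeFactors),
      Finset.sum_filter (s := n.primeFactors), Finset.sum_filter (s := n.primeFactors),
      ← Finset.sum_add_distrib, ← Finset.sum_add_distrib]
    refine Finset.sum_le_sum fun p hp => ?_
    have hx : 0 ≤ (n.factorization p : ℝ) * Real.log p :=
      mul_nonneg (Nat.cast_nonneg _) (hlogp p)
    by_cases h1 : ∃ r ∈ R, r ∣ cyc (n.factorization p + 1) p
    · rw [if_pos h1, if_neg (hUG p hp h1), if_neg (hUL p hp h1)]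
      linarith
    · rw [if_neg h1]
      by_cases h2 : ((Z < p ∧ p ≤ V) ∧ n.factorization p = 1) ∧ p ∉ B1
      · have h3 : ¬ p ^ 3 ≤ V := by
          intro h
          have := hZ p h
          have := h2.1.1.1
          omega
        rw [if_pos h2, if_neg h3, h2.1.2]
        simp
      · rw [if_neg h2]
        by_cases h3 : p ^ 3 ≤ V
        · rw [if_pos h3]
          linarith
        · rw [if_neg h3]
          linarith
  -- the exceptional sets
  have hMR : ∑ r ∈ M, Real.log (r : ℝ) ≤ ∑ r ∈ R, Real.log (r : ℝ) + ∑ r ∈ B2, Real.log (r : ℝ) := by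
    have h1 := Finset.sum_filter_add_sum_filter_not M (fun r => r ∉ B2)
      (fun r : ℕ => Real.log (r : ℝ))
    have h2 : ∑ r ∈ M.filter (fun r => ¬ r ∉ B2), Real.log (r : ℝ) ≤
        ∑ r ∈ B2, Real.log (r : ℝ) := by
      refine Finset.sum_le_sum_of_subset_of_nonneg (fun r hr => ?_) fun r _ _ => hlogp r
      exact not_not.mp (Finset.mem_filter.mp hr).2
    linarith
  have hGG : ∑ q ∈ G, Real.log (q : ℝ) ≤ ∑ q ∈ G', Real.log (q : ℝ) + ∑ p ∈ B1, Real.log (p : ℝ) := by
    have h0 : G.filter (fun q => q ∉ B1) = G' := by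
      rw [hG, hG', Finset.filter_filter]
    have h1 := Finset.sum_filter_add_sum_filter_not G (fun q => q ∉ B1)
      (fun q : ℕ => Real.log (q : ℝ))
    have h2 : ∑ q ∈ G.filter (fun q => ¬ q ∉ B1), Real.log (q : ℝ) ≤
        ∑ p ∈ B1, Real.log (p : ℝ) := by
      refine Finset.sum_le_sum_of_subset_of_nonneg (fun r hr => ?_) fun r _ _ => hlogp r
      exact not_not.mp (Finset.mem_filter.mp hr).2
    rw [h0] at h1
    linarith
  linarith

end Pool.Agent.helper6.MG
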