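import Pool.Agent.helper6.MG.H
import Pool.Agent.helper6.MG.D2
import Pool.Agent.helper6.MG.T
import Pool.Agent.helper6.MG.U
import Pool.Agent.helper6.MG.WT
import Pool.Agent.helper6.MG.WL

set_option autoImplicit false

/-!
# MG-Q: below one half

`X = ⌊(1/2 - c) log n⌋`, `V = 4 X`, `Z = ⌊X / D⌋`. `t1, t2, t3` are the sums of `log q` over the prime factors
`q ∈ (Z, V]` of `n` with exponent `1`, `2`, `≥ 3`, and `H` over the prime factors `> V`.
* mass: `Low + t1 + 2 t2 + 3 t3 + H ≤ log n`;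
* `W_low`: `t1 + b t2 ≤ Low + small`; `W_bot`: `a t1 ≤ Bot + small`;
* `W_top`: `(t1 + t2 + t3) + t1 + Bot ≤ log n + small`.
Hence `(2 + a b / 2) (t1 + t2 + t3) + (1 - b / 2) H ≤ log n + small`.
-/

open Finset Pool.Agent.helper20.MPN

namespace Pool.Agent.helper6.MG

theorem Q_mass {n : ℕ} (hn : 0 < n) (Z V : ℕ) (hZV : Z ≤ V) :
    ∑ p ∈ n.primeFactors.filter (fun p => p ≤ Z), (n.factorization p : ℝ) * Real.log p +
        ∑ q ∈ n.primeFactors.filter (fun q => (Z < q ∧ q ≤ V) ∧ n.factorization q = 1), Real.log q +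
        2 * ∑ q ∈ n.primeFactors.filter (fun q => (Z < q ∧ q ≤ V) ∧ n.factorization q = 2),
          Real.log q +
        3 * ∑ q ∈ n.primeFactors.filter (fun q => (Z < q ∧ q ≤ V) ∧ 3 ≤ n.factorization q),
          Real.log q +
        ∑ q ∈ n.primeFactors.filter (fun q => V < q), Real.log q ≤ Real.log n := by
  rw [Real.log_nat_eq_sum_factorization, Finsupp.sum, Nat.support_factorization, Finset.mul_sum,
    Finset.mul_sum, Finset.sum_filter, Finset.sum_filter, Finset.sum_filter, Finset.sum_filter,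
    Finset.sum_filter, ← Finset.sum_add_distrib, ← Finset.sum_add_distrib,
    ← Finset.sum_add_distrib, ← Finset.sum_add_distrib]
  refine Finset.sum_le_sum fun p hp => ?_
  have hL := F_log_nonneg p
  have ha : 1 ≤ n.factorization p :=
    (Nat.prime_of_mem_primeFactors hp).factorization_pos_of_dvd hn.ne'
      (Nat.dvd_of_mem_primeFactors hp)
  have ha' : (1 : ℝ) ≤ (n.factorization p : ℝ) := by exact_mod_cast ha
  rcases Nat.lt_or_ge Z p with hZ | hZ
  · rcases Nat.lt_or_ge V p with hV | hV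
    · rw [if_neg (by omega), if_neg (by omega), if_neg (by omega), if_neg (by omega), if_pos hV]
      nlinarith
    · rcases (by omega : n.factorization p = 1 ∨ n.factorization p = 2 ∨ 3 ≤ n.factorization p) with
        h | h | h
      · rw [if_neg (by omega), if_pos ⟨⟨hZ, hV⟩, h⟩, if_neg (by omega), if_neg (by omega),
          if_neg (by omega)]
        nlinarith
      · have h' : (2 : ℝ) ≤ (n.factorization p : ℝ) := by exact_mod_cast h.ge
        rw [if_neg (by omega), if_neg (by omega), if_pos ⟨⟨hZ, hV⟩, h⟩, if_neg (by omega),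
          if_neg (by omega)]
        nlinarith
      · have h' : (3 : ℝ) ≤ (n.factorization p : ℝ) := by exact_mod_cast h
        rw [if_neg (by omega), if_neg (by omega), if_neg (by omega), if_pos ⟨⟨hZ, hV⟩, h⟩,
          if_neg (by omega)]
        nlinarith
  · rw [if_pos hZ, if_neg (by omega), if_neg (by omega), if_neg (by omega), if_neg (by omega)]
    linarith

theorem Q_split3 {n : ℕ} (hn : 0 < n) (Z V : ℕ) :
    ∑ q ∈ n.primeFactors.filter (fun q => Z < q ∧ q ≤ V), Real.log q =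
      ∑ q ∈ n.primeFactors.filter (fun q => (Z < q ∧ q ≤ V) ∧ n.factorization q = 1), Real.log q +
        ∑ q ∈ n.primeFactors.filter (fun q => (Z < q ∧ q ≤ V) ∧ n.factorization q = 2), Real.log q +
        ∑ q ∈ n.primeFactors.filter (fun q => (Z < q ∧ q ≤ V) ∧ 3 ≤ n.factorization q),
          Real.log (q : ℝ) := by
  rw [Finset.sum_filter, Finset.sum_filter, Finset.sum_filter, Finset.sum_filter,
    ← Finset.sum_add_distrib, ← Finset.sum_add_distrib]
  refine Finset.sum_congr rfl fun p hp => ?_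
  have ha : 1 ≤ n.factorization p :=
    (Nat.prime_of_mem_primeFactors hp).factorization_pos_of_dvd hn.ne'
      (Nat.dvd_of_mem_primeFactors hp)
  by_cases h0 : Z < p ∧ p ≤ V
  · rcases (by omega : n.factorization p = 1 ∨ n.factorization p = 2 ∨ 3 ≤ n.factorization p) with
      h | h | h
    · rw [if_pos h0, if_pos ⟨h0, h⟩, if_neg (by omega), if_neg (by omega)]
      ring
    · rw [if_pos h0, if_neg (by omega), if_pos ⟨h0, h⟩, if_neg (by omega)]
      ring
    · rw [if_pos h0, if_neg (by omega), if_neg (by omega), if_pos ⟨h0, h⟩]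
      ring
  · rw [if_neg h0, if_neg (by tauto), if_neg (by tauto), if_neg (by tauto)]
    ring

/-- the linear programme -/
theorem Q_lp {y Low Bot t1 t2 t3 H lk B1 BS n2 n3 a b : ℝ} (ht1 : 0 ≤ t1) (ht2 : 0 ≤ t2)
    (ht3 : 0 ≤ t3) (hH : 0 ≤ H) (hlk : 0 ≤ lk) (hB1 : 0 ≤ B1) (hBS : 0 ≤ BS) (hn2 : 0 ≤ n2)
    (hn3 : 0 ≤ n3) (ha : 0 < a) (ha3 : a ≤ 1 / 3) (hb : 0 < b) (hb3 : b ≤ 1 / 3)
    (h1 : Low + t1 + 2 * t2 + 3 * t3 + H ≤ y) (h2 : t1 + b * t2 ≤ Low + lk + B1 + b * n3)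
    (h3 : a * t1 ≤ Bot + lk + a * n2) (h4 : (t1 + t2 + t3) + t1 + Bot ≤ y + lk + B1 + BS) :
    (2 + a * b / 2) * (t1 + t2 + t3 + H / 4) ≤
      y + (2 * lk + B1 + BS) + b * n3 + a * b / 2 * n2 := by
  have hA : 2 * t1 + (2 + b) * t2 + 3 * t3 + H ≤ y + lk + B1 + b * n3 := by linarith
  have hB : (2 + a) * t1 + t2 + t3 ≤ y + 2 * lk + B1 + BS + a * n2 := by linarith
  have hA' := mul_le_mul_of_nonneg_left hA (show 0 ≤ 1 - b / 2 by linarith)
  have hB' := mul_le_mul_of_nonneg_left hB (show 0 ≤ b / 2 by linarith)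
  have hab : 0 < a * b := mul_pos ha hb
  have hab3 : a * b ≤ 1 / 3 * b := mul_le_mul_of_nonneg_right ha3 hb.le
  have hbb : b * b ≤ 1 / 3 * b := mul_le_mul_of_nonneg_right hb3 hb.le
  have e1 : 0 ≤ (b / 2 - b * b / 2 - a * b / 2) * t2 := mul_nonneg (by linarith) ht2
  have e2 : 0 ≤ (1 - b - a * b / 2) * t3 := mul_nonneg (by linarith) ht3
  have e3 : 0 ≤ (1 - b / 2 - (2 + a * b / 2) / 4) * H := mul_nonneg (by linarith) hH
  have e4 : 0 ≤ (b / 2) * (b * n3) := by positivity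
  have e5 : 0 ≤ (b / 2) * lk := by positivity
  have e6 : 0 ≤ (1 - b / 2) * BS := mul_nonneg (by linarith) hBS
  nlinarith [hA', hB', e1, e2, e3, e4, e5, e6]

open scoped Classical in
/-- **below one half** -/
theorem below_half : ∃ (c : ℝ) (n0 : ℕ), 0 < c ∧ ∀ n k : ℕ, n0 ≤ n →
    ArithmeticFunction.sigma 1 n = k * n →
      (k : ℝ) ≤ ∏ p ∈ (range (⌊(1 / 2 - c) * Real.log n⌋₊ + 1)).filter Nat.Prime,
        ((p : ℝ) / (p - 1)) := by
  obtain ⟨K, T, hK, hT, htyp⟩ := typ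
  -- the two scales
  obtain ⟨s, hs⟩ : ∃ s : ℕ, s = T + ⌈32 * K⌉₊ := ⟨_, rfl⟩
  obtain ⟨s2, hs2⟩ : ∃ s2 : ℕ, s2 = s * (⌈64 * K⌉₊ + 1) := ⟨_, rfl⟩
  have hsT : T ≤ s := by omega
  have hs3 : 3 ≤ s := by omega
  have hs2s : s ≤ s2 := by
    rw [hs2]
    exact Nat.le_mul_of_pos_right s (by omega)
  have hs2T : T ≤ s2 := hsT.trans hs2s
  have hs23 : 3 ≤ s2 := hs3.trans hs2s
  have hsR : (3 : ℝ) ≤ (s : ℝ) := by exact_mod_cast hs3
  have hs2R : (3 : ℝ) ≤ (s2 : ℝ) := by exact_mod_cast hs23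
  have hsK : 32 * K ≤ (s : ℝ) := by
    have h1 : 32 * K ≤ (⌈32 * K⌉₊ : ℝ) := Nat.le_ceil _
    have h2 : ((⌈32 * K⌉₊ : ℕ) : ℝ) ≤ (s : ℝ) := by
      exact_mod_cast (by omega : ⌈32 * K⌉₊ ≤ s)
    linarith
  have hs2K : 64 * K * s ≤ (s2 : ℝ) := by
    have h1 : 64 * K ≤ (⌈64 * K⌉₊ : ℝ) := Nat.le_ceil _
    rw [hs2]
    push_cast
    nlinarith
  obtain ⟨a, ha⟩ : ∃ a : ℝ, a = 1 / (s : ℝ) := ⟨_, rfl⟩
  obtain ⟨b, hb⟩ : ∃ b : ℝ, b = 1 / (s2 : ℝ) := ⟨_, rfl⟩
  have ha0 : 0 < a := by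
    rw [ha]
    positivity
  have hb0 : 0 < b := by
    rw [hb]
    positivity
  have ha3 : a ≤ 1 / 3 := by
    rw [ha]
    exact one_div_le_one_div_of_le (by norm_num) hsR
  have hb3 : b ≤ 1 / 3 := by
    rw [hb]
    exact one_div_le_one_div_of_le (by norm_num) hs2R
  have haK : 32 * K * a ≤ 1 := by
    rw [ha, mul_one_div, div_le_one (by linarith)]
    exact hsK
  have hbK : 64 * K * b ≤ a := by
    rw [ha, hb, mul_one_div, div_le_div_iff₀ (by linarith) (by linarith)]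
    linarith
  obtain ⟨c1, hc1⟩ : ∃ c1 : ℝ, c1 = a * b / 2 := ⟨_, rfl⟩
  have hc10 : 0 < c1 := by
    rw [hc1]
    positivity
  have hc11 : c1 ≤ 1 / 18 := by
    rw [hc1]
    nlinarith
  obtain ⟨η, hη⟩ : ∃ η : ℝ, η = c1 / 64 := ⟨_, rfl⟩
  have hη0 : 0 < η := by
    rw [hη]
    positivity
  obtain ⟨D, hD⟩ := exists_nat_ge (2 / η)
  have hD0 : (0 : ℝ) < (D : ℝ) := lt_of_lt_of_le (by positivity) hD
  have hD1 : 1 ≤ D := by exact_mod_cast hD0
  obtain ⟨m0, hm0⟩ := theta_pnt η hη0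
  obtain ⟨X1, hX1⟩ := bad_small4 D hD1 η hη0
  obtain ⟨x2, hx2⟩ := htyp 2 Nat.prime_two s hsT
  obtain ⟨x3, hx3⟩ := htyp 3 Nat.prime_three s2 hs2T
  obtain ⟨V0, hV0⟩ := bot (4 * D) (by omega) (η / 4) (by linarith)
  -- logarithms are small
  have hlogA : ∀ᶠ X : ℕ in Filter.atTop, Real.log (X : ℝ) ≤ c1 / 32 * (X : ℝ) := by
    have h1 := Real.isLittleO_log_id_atTop.bound (show (0 : ℝ) < c1 / 32 by positivity)
    filter_upwards [tendsto_natCast_atTop_atTop.eventually h1] with Y hY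
    have h3 : (0 : ℝ) ≤ (Y : ℝ) := Nat.cast_nonneg Y
    rw [Real.norm_eq_abs, id, Real.norm_eq_abs, abs_of_nonneg h3] at hY
    exact (le_abs_self _).trans hY
  have hlogB : ∀ᶠ X : ℕ in Filter.atTop, Real.log (4 * (X : ℝ) + 5) ≤ η * (X : ℝ) := by
    have h1 := Real.isLittleO_log_id_atTop.bound (show (0 : ℝ) < η / 9 by positivity)
    have h2 : Filter.Tendsto (fun X : ℕ => 4 * (X : ℝ) + 5) Filter.atTop Filter.atTop :=
      Filter.tendsto_atTop_add_const_right _ _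
        (tendsto_natCast_atTop_atTop.const_mul_atTop (by norm_num))
    filter_upwards [h2.eventually h1, Filter.eventually_ge_atTop 1] with X hX hX1
    have h3 : (1 : ℝ) ≤ (X : ℝ) := by exact_mod_cast hX1
    rw [Real.norm_eq_abs, id, Real.norm_eq_abs, abs_of_nonneg (show 0 ≤ 4 * (X : ℝ) + 5 by linarith)]
      at hX
    refine (le_abs_self _).trans (hX.trans ?_)
    nlinarith
  have hbig : ∀ᶠ X : ℕ in Filter.atTop, max (32 / c1) (4 * (D : ℝ) ^ 3) ≤ (X : ℝ) :=
    tendsto_natCast_atTop_atTop.eventually_ge_atTop _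
  obtain ⟨X2, hX2⟩ := Filter.eventually_atTop.1 (hlogA.and (hlogB.and hbig))
  have hcc : 0 < 1 / 2 - c1 / 16 := by linarith
  have hn0 : ∀ᶠ n : ℕ in Filter.atTop,
      ((max (max (D * m0 + m0) X1) (max (max X2 3) (x2 + x3 + V0)) : ℕ) : ℝ) ≤
        (1 / 2 - c1 / 16) * Real.log (n : ℝ) :=
    ((Real.tendsto_log_atTop.comp tendsto_natCast_atTop_atTop).const_mul_atTop
      hcc).eventually_ge_atTop _
  obtain ⟨n1, hn1⟩ := Filter.eventually_atTop.1 hn0
  refine ⟨c1 / 16, max n1 1, by positivity, fun n k hn hsig => ?_⟩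
  have hnpos : 0 < n := lt_of_lt_of_le Nat.one_pos ((le_max_right _ _).trans hn)
  have hkpos : 0 < k := by
    rcases Nat.eq_zero_or_pos k with h | h
    · exfalso
      rw [h, zero_mul] at hsig
      have : 0 < ArithmeticFunction.sigma 1 n := by
        rw [ArithmeticFunction.sigma_one_apply]
        exact Finset.sum_pos (fun d hd => Nat.pos_of_mem_divisors hd)
          ⟨1, Nat.one_mem_divisors.2 hnpos.ne'⟩
      omega
    · exact h
  have hlogn := hn1 n ((le_max_left _ _).trans hn)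
  obtain ⟨X, hXdef⟩ : ∃ X : ℕ, X = ⌊(1 / 2 - c1 / 16) * Real.log (n : ℝ)⌋₊ := ⟨_, rfl⟩
  rw [← hXdef]
  have hln0 : (0 : ℝ) ≤ Real.log (n : ℝ) := F_log_nonneg n
  have hXle : (X : ℝ) ≤ (1 / 2 - c1 / 16) * Real.log n := by
    rw [hXdef]
    exact Nat.floor_le (mul_nonneg hcc.le hln0)
  have hXlt : (1 / 2 - c1 / 16) * Real.log n < (X : ℝ) + 1 := by
    rw [hXdef]
    exact Nat.lt_floor_add_one _
  have hXmax : max (max (D * m0 + m0) X1) (max (max X2 3) (x2 + x3 + V0)) ≤ X := by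
    rw [hXdef]
    exact Nat.le_floor hlogn
  have hXm : D * m0 + m0 ≤ X := le_trans (le_trans (le_max_left _ _) (le_max_left _ _)) hXmax
  have hXX1 : X1 ≤ X := le_trans (le_trans (le_max_right _ _) (le_max_left _ _)) hXmax
  have hXX2 : X2 ≤ X := le_trans (le_trans (le_trans (le_max_left _ _) (le_max_left _ _))
    (le_max_right _ _)) hXmax
  have hX3 : 3 ≤ X := le_trans (le_trans (le_trans (le_max_right _ _) (le_max_left _ _))
    (le_max_right _ _)) hXmax
  have hXx : x2 + x3 + V0 ≤ X := le_trans (le_trans (le_max_right _ _) (le_max_right _ _)) hXmax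
  obtain ⟨hlA, hlB, hbg⟩ := hX2 X hXX2
  have hXc : 32 / c1 ≤ (X : ℝ) := (le_max_left _ _).trans hbg
  have hXD : 4 * (D : ℝ) ^ 3 ≤ (X : ℝ) := (le_max_right _ _).trans hbg
  have hXDn : 4 * D ^ 3 ≤ X := by exact_mod_cast hXD
  have hXR3 : (3 : ℝ) ≤ (X : ℝ) := by exact_mod_cast hX3
  have hXR : (0 : ℝ) < (X : ℝ) := by linarith
  have hL : (0 : ℝ) < Real.log (X : ℝ) := Real.log_pos (by linarith)
  have hcX : 32 ≤ c1 * X := by
    rw [div_le_iff₀ hc10] at hXc
    linarith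
  obtain ⟨y, hy⟩ : ∃ y : ℝ, y = Real.log (n : ℝ) := ⟨_, rfl⟩
  rw [← hy] at hXle hXlt hln0
  have hcy : 0 ≤ c1 / 16 * y := by positivity
  have hcy' : c1 / 16 * y ≤ 1 / 288 * y := mul_le_mul_of_nonneg_right (by linarith) hln0
  have hyX : 2 * (X : ℝ) ≤ y := by linarith only [hXle, hcy]
  have hyX4 : y ≤ 4 * (X : ℝ) := by linarith only [hXlt, hcy', hXR3, hln0]
  obtain ⟨V, hV⟩ : ∃ V : ℕ, V = 4 * X := ⟨_, rfl⟩
  have hVR : (V : ℝ) = 4 * X := by
    rw [hV]
    push_cast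
    ring
  obtain ⟨Z, hZ⟩ : ∃ Z : ℕ, Z = X / D := ⟨_, rfl⟩
  have hZX : Z ≤ X := by
    rw [hZ]
    exact Nat.div_le_self _ _
  have hZV : Z ≤ V := by omega
  -- `P ^ 3 ≤ V` implies `P ≤ Z`
  have hZ3 : ∀ P : ℕ, P ^ 3 ≤ V → P ≤ Z := by
    intro P hP
    by_contra h
    push Not at h
    rw [hZ, Nat.div_lt_iff_lt_mul (by omega)] at h
    have h1 : X ^ 3 < (P * D) ^ 3 := Nat.pow_lt_pow_left h (by norm_num)
    have h2 : (P * D) ^ 3 ≤ X * X := by
      calc (P * D) ^ 3 = P ^ 3 * D ^ 3 := mul_pow _ _ _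
        _ ≤ V * D ^ 3 := Nat.mul_le_mul_right _ hP
        _ = X * (4 * D ^ 3) := by rw [hV]; ring
        _ ≤ X * X := Nat.mul_le_mul_left _ hXDn
    have h3 : X * X ≤ X ^ 3 := by
      calc X * X = X ^ 2 := by ring
        _ ≤ X ^ 3 := Nat.pow_le_pow_right (by omega) (by norm_num)
    omega
  have hZT : ∀ P : ℕ, P ^ T ≤ V → P ≤ Z := by
    intro P hP
    rcases Nat.eq_zero_or_pos P with h | h
    · omega
    · exact hZ3 P ((Nat.pow_le_pow_right h hT).trans hP)
  have hDr : ∀ r : ℕ, Z < r → V < (4 * D) * r := by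
    intro r hr
    rw [hZ, Nat.div_lt_iff_lt_mul (by omega)] at hr
    rw [hV, show 4 * D * r = 4 * (r * D) by ring]
    omega
  -- the inequalities
  have hmass := Q_mass hnpos Z V hZV
  have hsplit3 := Q_split3 hnpos Z V
  have hWlow := W_low hnpos hkpos hsig Z V T s2 (by omega) (by omega) hZT
  have hWbot := W_bot hnpos hkpos hsig Z V T s (by omega) hT
  have hWtop := W_top hnpos hkpos hsig Z V (4 * D) hDr hZ3
  rw [hsplit3] at hWtop
  have hbad := hX1 X hXX1
  rw [← hV, ← hZ] at hbad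
  have hbs := hV0 V n (by omega) hnpos (by rw [← hy, hVR]; exact hyX4)
  -- the exceptional sets of `typ`
  have hVpos : (0 : ℝ) < (V : ℝ) := by
    rw [hVR]
    linarith
  have hnt : ∀ (l s' : ℕ), (((range (V + 1)).filter (fun q => q.Prime ∧ ∀ P ∈ range (V + 1),
      P.Prime → P ^ T ≤ V → V < P ^ s' → ¬ P ∣ cyc l q)).card : ℝ) * Real.log V ≤ K / s' * V →
      ∑ q ∈ (range (V + 1)).filter (fun q => q.Prime ∧ ∀ P ∈ range (V + 1), P.Prime →
        P ^ T ≤ V → V < P ^ s' → ¬ P ∣ cyc l q), Real.log q ≤ K / s' * V := by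
    intro l s' h
    refine le_trans ?_ h
    rw [← nsmul_eq_mul]
    refine Finset.sum_le_card_nsmul _ _ _ fun q hq => ?_
    simp only [Finset.mem_filter, Finset.mem_range] at hq
    exact Real.log_le_log (by exact_mod_cast hq.2.1.pos) (by exact_mod_cast (by omega : q ≤ V))
  have hn2 := hnt 2 s (hx2 V (by omega))
  have hn3 := hnt 3 s2 (hx3 V (by omega))
  have hkle := k_le hnpos hsig
  have hk1 : (0 : ℝ) < (k : ℝ) := by exact_mod_cast hkpos
  have hk1' : (1 : ℝ) ≤ (k : ℝ) := by exact_mod_cast hkpos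
  have hlogk : Real.log k ≤ η * X := by
    refine (Real.log_le_log hk1 ?_).trans hlB
    rw [← hy] at hkle
    linarith
  have hlogk0 : 0 ≤ Real.log k := Real.log_nonneg hk1'
  -- names
  have nn : ∀ (A : Finset ℕ), 0 ≤ ∑ q ∈ A, Real.log (q : ℝ) := fun A =>
    Finset.sum_nonneg fun p _ => F_log_nonneg p
  have hlow := H_low (n := n) X V Z (by omega)
  rw [hsplit3] at hlow
  set Low : ℝ := ∑ p ∈ n.primeFactors.filter (fun p => p ≤ Z), (n.factorization p : ℝ) * Real.log p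
  set Bot : ℝ := ∑ p ∈ n.primeFactors.filter (fun p => p ^ 3 ≤ V),
    (n.factorization p : ℝ) * Real.log p
  set t1 : ℝ := ∑ q ∈ n.primeFactors.filter (fun q => (Z < q ∧ q ≤ V) ∧ n.factorization q = 1),
    Real.log q with ht1
  set t2 : ℝ := ∑ q ∈ n.primeFactors.filter (fun q => (Z < q ∧ q ≤ V) ∧ n.factorization q = 2),
    Real.log q with ht2
  set t3 : ℝ := ∑ q ∈ n.primeFactors.filter (fun q => (Z < q ∧ q ≤ V) ∧ 3 ≤ n.factorization q),
    Real.log q with ht3
  set H : ℝ := ∑ q ∈ n.primeFactors.filter (fun q => V < q), Real.log q with hH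
  set B1 : ℝ := ∑ p ∈ (range (V + 1)).filter (fun p => p.Prime ∧ ∃ q : ℕ, q.Prime ∧ Z < q ∧
    q ∣ p + 1), Real.log p with hB1
  set BS : ℝ := ∑ r ∈ (range (V + 1)).filter (fun r => r.Prime ∧ V < (4 * D) * r ∧
    ∃ p ∈ n.primeFactors, p ^ 3 ≤ V ∧ r ∣ cyc (n.factorization p + 1) p), Real.log r with hBS
  set n2 : ℝ := ∑ q ∈ (range (V + 1)).filter (fun q => q.Prime ∧ ∀ P ∈ range (V + 1), P.Prime →
          P ^ T ≤ V → V < P ^ s → ¬ P ∣ cyc 2 q), Real.log q with hn2d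
  set n3 : ℝ := ∑ q ∈ (range (V + 1)).filter (fun q => q.Prime ∧ ∀ P ∈ range (V + 1), P.Prime →
          P ^ T ≤ V → V < P ^ s2 → ¬ P ∣ cyc 3 q), Real.log q with hn3d
  rw [← ha] at hWbot
  rw [← hb] at hWlow
  rw [← hy] at hmass hWtop
  have ht10 : 0 ≤ t1 := nn _
  have ht20 : 0 ≤ t2 := nn _
  have ht30 : 0 ≤ t3 := nn _
  have hH0 : 0 ≤ H := nn _
  have hB10 : 0 ≤ B1 := nn _
  have hBS0 : 0 ≤ BS := nn _
  have hn20 : 0 ≤ n2 := nn _
  have hn30 : 0 ≤ n3 := nn _
  have hlp := Q_lp ht10 ht20 ht30 hH0 hlogk0 hB10 hBS0 hn20 hn30 ha0 ha3 hb0 hb3 hmass hWlow hWbot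
    hWtop
  rw [← hc1] at hlp
  -- the errors
  have hn2' : n2 ≤ K * a * (2 * y) := by
    have h1 : K / s * (V : ℝ) = K * a * V := by
      rw [ha]
      ring
    rw [h1] at hn2
    have h2 : K * a * (V : ℝ) ≤ K * a * (2 * y) :=
      mul_le_mul_of_nonneg_left (by linarith) (by positivity)
    linarith
  have hn3' : n3 ≤ K * b * (2 * y) := by
    have h1 : K / s2 * (V : ℝ) = K * b * V := by
      rw [hb]
      ring
    rw [h1] at hn3
    have h2 : K * b * (V : ℝ) ≤ K * b * (2 * y) :=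
      mul_le_mul_of_nonneg_left (by linarith) (by positivity)
    linarith
  have hy0 : 0 ≤ y := hln0
  have he2 : c1 * n2 ≤ c1 * y / 16 := by
    have h1 : n2 ≤ y / 16 := by
      have h2 : K * a * (2 * y) ≤ y / 16 := by
        have h3 : (32 * K * a) * y ≤ 1 * y := mul_le_mul_of_nonneg_right haK hy0
        linarith
      linarith
    have h4 := mul_le_mul_of_nonneg_left h1 hc10.le
    linarith
  have he3 : b * n3 ≤ c1 * y / 16 := by
    have h1 : n3 ≤ a * y / 32 := by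
      have h2 : (64 * K * b) * y ≤ a * y := mul_le_mul_of_nonneg_right hbK hy0
      linarith
    have h4 := mul_le_mul_of_nonneg_left h1 hb0.le
    rw [hc1]
    linarith
  have hbs' : BS ≤ η * X := by
    rw [hVR] at hbs
    linarith
  have hmain : t1 + t2 + t3 + H / 4 ≤ y / 2 - c1 * y / 8 + 2 * η * X := by
    have h1 : (2 + c1) * (t1 + t2 + t3 + H / 4) ≤ y + c1 * y / 8 + 4 * η * X := by linarith
    have h2 : y + c1 * y / 8 + 4 * η * X ≤ (2 + c1) * (y / 2 - c1 * y / 8 + 2 * η * X) := by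
      have h3 : (2 + c1) * (y / 2 - c1 * y / 8 + 2 * η * X) =
          y + c1 * y / 8 + 4 * η * X + (c1 * y / 8 - c1 * c1 * y / 8) + c1 * (2 * η * X) := by ring
      have h4 : c1 * c1 * y ≤ c1 * y := by
        have h5 : c1 * c1 ≤ c1 := mul_le_of_le_one_right hc10.le (by linarith only [hc11])
        exact mul_le_mul_of_nonneg_right h5 hy0
      have h6 : 0 ≤ c1 * (2 * η * X) := by positivity
      rw [h3]
      linarith
    exact le_of_mul_le_mul_left (h1.trans h2) (by linarith)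
  -- theta
  have t1' := hm0 X (by omega)
  have hZm : m0 ≤ Z := by
    rw [hZ, Nat.le_div_iff_mul_le (by omega)]
    rw [mul_comm]
    omega
  have t2' := hm0 Z hZm
  change |th X - _| ≤ _ at t1'
  change |th Z - _| ≤ _ at t2'
  rw [abs_le] at t1' t2'
  have hZR : (Z : ℝ) ≤ η / 2 * X := by
    have h1 : (Z : ℝ) ≤ (X : ℝ) / D := by
      rw [hZ]
      exact Nat.cast_div_le
    have h2 : (X : ℝ) / D ≤ η / 2 * X := by
      rw [div_le_iff₀ hD0]
      rw [div_le_iff₀ hη0] at hD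
      have h3 := mul_le_mul_of_nonneg_left hD hXR.le
      linarith only [h3]
    exact h1.trans h2
  have hη1 : η ≤ 1 := by linarith
  have hthZ : th Z ≤ η * X := by
    have h0 : (0 : ℝ) ≤ (Z : ℝ) := Nat.cast_nonneg _
    have h1 : η * (Z : ℝ) ≤ 1 * Z := mul_le_mul_of_nonneg_right hη1 h0
    linarith only [t2'.2, h1, hZR]
  -- the cost and the gain
  have hgain := H_gain (n := n) X V (by omega)
  have hsplit := F_split (n := n) X
  have hcost : ∑ p ∈ (range (X + 1)).filter (fun p => p.Prime ∧ p ∉ n.primeFactors), Real.log p ≤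
      (X : ℝ) * Real.log X *
        ∑ p ∈ (range (X + 1)).filter (fun p => p.Prime ∧ p ∉ n.primeFactors), (1 : ℝ) / p := by
    have h1 := cost X hX3 ((range (X + 1)).filter (fun p => p.Prime ∧ p ∉ n.primeFactors))
      (fun p hp => by
        simp only [Finset.mem_filter, Finset.mem_range] at hp
        exact ⟨hp.2.1, by omega⟩)
    have h2 : ∑ p ∈ ((range (X + 1)).filter (fun p => p.Prime ∧ p ∉ n.primeFactors)).filter
          (fun p => 7 * X < 10 * p), Real.log p ≤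
        ∑ p ∈ (range (X + 1)).filter (fun p => p.Prime ∧ p ∉ n.primeFactors), Real.log p :=
      Finset.sum_le_sum_of_subset_of_nonneg (Finset.filter_subset _ _) fun p _ _ => F_log_nonneg p
    linarith
  have hg1 := extra X hX3 (n.primeFactors.filter (fun p => X < p ∧ p ≤ V)) (fun p hp =>
    (Finset.mem_filter.1 hp).2.1)
  have hg2 := extra V (by omega) (n.primeFactors.filter (fun p => V < p)) (fun p hp =>
    (Finset.mem_filter.1 hp).2)
  have hcmp := prod_cmp n X (by omega)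
  set P : ℝ := ∏ p ∈ (range (X + 1)).filter Nat.Prime, ((p : ℝ) / (p - 1)) with hP
  have hP0 : 0 ≤ P := by
    refine Finset.prod_nonneg fun p hp => ?_
    have h2 : 2 ≤ p := (Finset.mem_filter.1 hp).2.two_le
    have h3 : (2 : ℝ) ≤ (p : ℝ) := by exact_mod_cast h2
    exact div_nonneg (by linarith) (by linarith)
  set C : ℝ := ∑ p ∈ (range (X + 1)).filter (fun p => p.Prime ∧ p ∉ n.primeFactors), (1 : ℝ) / p
    with hC
  set G : ℝ := ∑ p ∈ n.primeFactors.filter (fun p => X < p), (1 : ℝ) / p with hG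
  set G1 : ℝ := ∑ p ∈ n.primeFactors.filter (fun p => X < p ∧ p ≤ V), (1 : ℝ) / p with hG1
  set G2 : ℝ := ∑ p ∈ n.primeFactors.filter (fun p => V < p), (1 : ℝ) / p with hG2
  have hG20 : 0 ≤ G2 := Finset.sum_nonneg fun p _ => by positivity
  have hg3 : (X : ℝ) * Real.log X * G2 ≤ H / 4 := by
    have h1 : Real.log (X : ℝ) ≤ Real.log (V : ℝ) :=
      Real.log_le_log hXR (by rw [hVR]; linarith)
    have h2 : (X : ℝ) * Real.log X * G2 ≤ (X : ℝ) * Real.log V * G2 :=
      mul_le_mul_of_nonneg_right (mul_le_mul_of_nonneg_left h1 hXR.le) hG20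
    have h3 : (V : ℝ) * Real.log (V : ℝ) * G2 = 4 * ((X : ℝ) * Real.log V * G2) := by
      rw [hVR]
      ring
    linarith
  have hy2 : y / 2 ≤ X + 1 + c1 * y / 16 := by linarith
  have hd : (X : ℝ) * Real.log X * (G - C) ≤ -(c1 / 32 * X) := by
    rw [hgain, mul_sub, mul_add]
    have h1 : c1 * (2 * X) ≤ c1 * y := mul_le_mul_of_nonneg_left hyX hc10.le
    have h2 : η * X = c1 * X / 64 := by
      rw [hη]
      ring
    linarith only [hg1, hg3, hcost, hlow, hsplit, hmain, t1'.1, hthZ, h1, h2, hy2, hcX]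
  have hGC : -C + G + 1 / X ≤ 0 := by
    have h1 : (X : ℝ) * Real.log X * (1 / X) = Real.log X := by
      field_simp
    have h2 : (X : ℝ) * Real.log X * (-C + G + 1 / X) ≤ 0 := by
      have h3 : (X : ℝ) * Real.log X * (-C + G + 1 / X) =
          (X : ℝ) * Real.log X * (G - C) + (X : ℝ) * Real.log X * (1 / X) := by ring
      rw [h3, h1]
      linarith
    by_contra h3
    push Not at h3
    have h4 : 0 < (X : ℝ) * Real.log X * (-C + G + 1 / X) := by positivity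
    linarith
  have h2 := Pool.Agent.helper20.MPN.le_prod hnpos
  have h3 : (ArithmeticFunction.sigma 1 n : ℝ) / n = k := by
    have hn0 : (n : ℝ) ≠ 0 := by exact_mod_cast hnpos.ne'
    rw [hsig]
    push_cast
    field_simp
  rw [h3] at h2
  calc (k : ℝ) ≤ P * Real.exp (-C + G + 1 / X) := h2.trans hcmp
    _ ≤ P * 1 := mul_le_mul_of_nonneg_left (Real.exp_le_one_iff.2 hGC) hP0
    _ = P := mul_one _

end Pool.Agent.helper6.MG
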